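import Mathlib

/-!
# SixLines: definitions

`Dat k Ω`: a ring `R` of germs of `T`-integral sequences (all finite `T`) in a field `Ω` of germs. A unit of `R` is a germ of
`T`-units. Such germs, if pairwise not proportional over `k`, are linearly independent over `k` (subspace theorem).
-/

set_option autoImplicit false

namespace Pool.Agent.SL

universe u v

structure Dat (k : Type u) (Ω : Type v) [Field k] [Field Ω] [Algebra k Ω] where
  R : Subalgebra k Ω
  indep : ∀ (n : ℕ) (y : Fin n → Ω), (∀ i, y i ≠ 0 ∧ y i ∈ R ∧ (y i)⁻¹ ∈ R) →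
    (∀ i j, i ≠ j → ∀ a : k, y i ≠ algebraMap k Ω a * y j) → LinearIndependent k y
  root : ∀ y ∈ R, ∀ n : ℕ, 0 < n → ∀ a : k, y ^ n = algebraMap k Ω a → ∃ b : k, y = algebraMap k Ω b

variable {k : Type u} {Ω : Type v} [Field k] [Field Ω] [Algebra k Ω]

/-- Units of `R`. -/
def Dat.U (D : Dat k Ω) (y : Ω) : Prop := y ≠ 0 ∧ y ∈ D.R ∧ y⁻¹ ∈ D.R

/-- `y` is a constant -/
def Cst (k : Type u) {Ω : Type v} [Field k] [Field Ω] [Algebra k Ω] (y : Ω) : Prop :=
  ∃ a : k, y = algebraMap k Ω a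

/-- The value of the linear form `ℓ` at `x`. -/
def lin (ℓ : Fin 3 → k) (x : Fin 3 → Ω) : Ω := ∑ j, algebraMap k Ω (ℓ j) * x j

/-- Any three of the lines have no common point. -/
def GenPos {q : ℕ} (ℓ : Fin q → Fin 3 → k) : Prop :=
  ∀ f : Fin 3 → Fin q, Function.Injective f → (Matrix.of fun i j => ℓ (f i) j).det ≠ 0

/-- An involution of the plane exchanges the lines in pairs. -/
def Inv {q : ℕ} (ℓ : Fin q → Fin 3 → k) : Prop :=
  ∃ (M : Matrix (Fin 3) (Fin 3) k) (π : Fin q → Fin q), M * M = 1 ∧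
    ∀ i, π i ≠ i ∧ π (π i) = i ∧ ∃ c : k, M.mulVec (ℓ i) = c • ℓ (π i)

end Pool.Agent.SL
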