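import Pool.Agent.Helper16.SL.Units
import Pool.Agent.Helper26.DMC.SU1

/-!
# SixLines, block B10: the germs

`Ω = (U : Filter ℕ).Germ (AlgebraicClosure k)`, a field (`Filter.Germ.instField`).
PROOF. `R` = germs of the sequences `z` such that for some finite `T` eventually `TInt T (z n)`. A subring: `T ∪ T'`; it contains the constants (an element of `k` is a `T`-integer for some finite `T`). `y ≠ 0`, `y, y⁻¹ ∈ R`: `y` is the germ of `z` with
eventually `TUnit T (z n)`. `indep`: `Pool.Agent.Helper26.DMC.sunit_indep` (with the union of the sets `T`). `root`: `y ^ n = a`: the sequence in `k` takes its values eventually in the finite set of roots of `X ^ n - a`, so it is eventually constant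
(`Pool.Agent.Helper26.DMC.SU1.ult_finite`).
-/

set_option autoImplicit false

namespace Pool.Agent.SL

open NumberField IntermediateField Pool.Agent.Helper64.Vojta Pool.Agent.VZ Filter

universe u

/-- the field of germs -/
def Om (k : Type u) [Field k] (U : Ultrafilter ℕ) : Type u := (U : Filter ℕ).Germ (AlgebraicClosure k)

noncomputable instance fieldOm {k : Type u} [Field k] (U : Ultrafilter ℕ) : Field (Om k U) :=
  inferInstanceAs (Field ((U : Filter ℕ).Germ (AlgebraicClosure k)))

/-- the germ of a sequence -/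
noncomputable def gm {k : Type u} [Field k] (U : Ultrafilter ℕ) : (ℕ → AlgebraicClosure k) →+* Om k U :=
  Filter.Germ.coeRingHom (U : Filter ℕ)

noncomputable instance algOm {k : Type u} [Field k] (U : Ultrafilter ℕ) : Algebra k (Om k U) :=
  ((gm U).comp ((Pi.constRingHom ℕ (AlgebraicClosure k)).comp
      (algebraMap k (AlgebraicClosure k)))).toAlgebra

theorem gm_eq {k : Type u} [Field k] (U : Ultrafilter ℕ) (f g : ℕ → AlgebraicClosure k) :
    gm U f = gm U g ↔ ∀ᶠ i in (U : Filter ℕ), f i = g i := Filter.Germ.coe_eq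

theorem gm_zero {k : Type u} [Field k] (U : Ultrafilter ℕ) (f : ℕ → AlgebraicClosure k) :
    gm U f = 0 ↔ ∀ᶠ i in (U : Filter ℕ), f i = 0 := by
  rw [← map_zero (gm U), gm_eq]
  rfl

theorem gm_surj {k : Type u} [Field k] (U : Ultrafilter ℕ) (y : Om k U) : ∃ z, gm U z = y := by
  induction y using Filter.Germ.inductionOn with
  | _ f => exact ⟨f, rfl⟩

theorem gm_cst {k : Type u} [Field k] (U : Ultrafilter ℕ) (a : k) :
    algebraMap k (Om k U) a = gm U fun _ => algebraMap k (AlgebraicClosure k) a := rfl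

theorem gm_inv {k : Type u} [Field k] (U : Ultrafilter ℕ) (f : ℕ → AlgebraicClosure k) :
    (gm U f)⁻¹ = gm U fun n => (f n)⁻¹ := rfl

variable {k : Type u} [Field k] [NumberField k]

theorem TInt.mono {T T' : Finset (FinitePlace k)} (h : T ⊆ T') {z : AlgebraicClosure k} (hz : TInt T z) :
    TInt T' z := by
  obtain ⟨a, ha, hv⟩ := hz
  exact ⟨a, ha, fun v hv' => hv v fun h' => hv' (h h')⟩

theorem TUnit.tint {T : Finset (FinitePlace k)} {z : AlgebraicClosure k} (hz : TUnit T z) : TInt T z := by
  obtain ⟨a, ha, -, hv⟩ := hz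
  exact ⟨a, ha, fun v hv' => (hv v hv').le⟩

theorem TUnit.tint_inv {T : Finset (FinitePlace k)} {z : AlgebraicClosure k} (hz : TUnit T z) :
    TInt T z⁻¹ := by
  obtain ⟨a, ha, h0, hv⟩ := hz
  refine ⟨a⁻¹, by rw [map_inv₀, ha], fun v hv' => ?_⟩
  rw [map_inv₀, hv v hv', inv_one]

theorem exists_tint (a : k) : ∃ T : Finset (FinitePlace k), TInt T (algebraMap k (AlgebraicClosure k) a) := by
  classical
  by_cases ha : a = 0
  · exact ⟨∅, a, rfl, fun v _ => by rw [ha, map_zero]; exact zero_le_one⟩
  · have h1 : (Function.mulSupport fun w : FinitePlace k => w a).Finite :=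
      FinitePlace.hasFiniteMulSupport ha
    refine ⟨h1.toFinset, a, rfl, fun v hv => ?_⟩
    rw [Set.Finite.mem_toFinset, Function.mem_mulSupport, not_not] at hv
    exact hv.le

/-- the ring of germs of `T`-integers -/
noncomputable def RR (k : Type u) [Field k] [NumberField k] (U : Ultrafilter ℕ) : Subalgebra k (Om k U) where
  carrier := {y | ∃ (T : Finset (FinitePlace k)) (z : ℕ → AlgebraicClosure k),
    (∀ᶠ n in (U : Filter ℕ), TInt T (z n)) ∧ gm U z = y}
  mul_mem' := by
    classical
    rintro _ _ ⟨T, z, hz, rfl⟩ ⟨T', z', hz', rfl⟩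
    refine ⟨T ∪ T', fun n => z n * z' n, ?_, map_mul (gm U) z z'⟩
    filter_upwards [hz, hz'] with n h1 h2
    obtain ⟨a, ha, hav⟩ := h1.mono (Finset.subset_union_left (s₂ := T'))
    obtain ⟨b, hb, hbv⟩ := h2.mono (Finset.subset_union_right (s₁ := T))
    refine ⟨a * b, by rw [map_mul, ha, hb], fun v hv => ?_⟩
    rw [map_mul]
    exact mul_le_one₀ (hav v hv) (apply_nonneg v b) (hbv v hv)
  add_mem' := by
    classical
    rintro _ _ ⟨T, z, hz, rfl⟩ ⟨T', z', hz', rfl⟩
    refine ⟨T ∪ T', fun n => z n + z' n, ?_, map_add (gm U) z z'⟩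
    filter_upwards [hz, hz'] with n h1 h2
    obtain ⟨a, ha, hav⟩ := h1.mono (Finset.subset_union_left (s₂ := T'))
    obtain ⟨b, hb, hbv⟩ := h2.mono (Finset.subset_union_right (s₁ := T))
    refine ⟨a + b, by rw [map_add, ha, hb], fun v hv => ?_⟩
    exact (FinitePlace.add_le v a b).trans (max_le (hav v hv) (hbv v hv))
  algebraMap_mem' := by
    intro a
    obtain ⟨T, hT⟩ := exists_tint a
    exact ⟨T, fun _ => algebraMap k (AlgebraicClosure k) a, Filter.Eventually.of_forall fun _ => hT, rfl⟩

/-- a unit of `RR` is a germ of units -/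
theorem exists_units (U : Ultrafilter ℕ) (y : Om k U) (h0 : y ≠ 0) (h1 : y ∈ RR k U) (h2 : y⁻¹ ∈ RR k U) :
    ∃ (T : Finset (FinitePlace k)) (z : ℕ → k),
      (∀ᶠ n in (U : Filter ℕ), z n ≠ 0 ∧ ∀ v : FinitePlace k, v ∉ T → v (z n) = 1) ∧
      gm U (fun n => algebraMap k (AlgebraicClosure k) (z n)) = y := by
  classical
  obtain ⟨T, z, hz, rfl⟩ := h1
  obtain ⟨T', z', hz', hzz⟩ := h2
  rw [gm_inv, gm_eq] at hzz
  rw [Ne, gm_zero, ← Ultrafilter.eventually_not] at h0
  let w : ℕ → k := fun n => if h : TInt T (z n) then h.choose else 0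
  have hw : ∀ᶠ n in (U : Filter ℕ), algebraMap k (AlgebraicClosure k) (w n) = z n := by
    filter_upwards [hz] with n hn
    simp only [w, dif_pos hn]
    exact hn.choose_spec.1
  refine ⟨T ∪ T', w, ?_, ?_⟩
  · filter_upwards [hz, hz', hzz, h0] with n h1 h2 h3 h4
    have hwn : w n = h1.choose := by simp only [w, dif_pos h1]
    have ha := h1.choose_spec
    rw [← hwn] at ha
    obtain ⟨b, hb, hbv⟩ := h2
    have hw0 : w n ≠ 0 := by
      intro h
      rw [h, map_zero] at ha
      exact h4 ha.1.symm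
    refine ⟨hw0, fun v hv => ?_⟩
    rw [Finset.mem_union, not_or] at hv
    have h5 : b = (w n)⁻¹ := by
      apply (algebraMap k (AlgebraicClosure k)).injective
      rw [hb, h3, map_inv₀, ha.1]
    have h6 := hbv v hv.2
    rw [h5, map_inv₀] at h6
    have h7 := ha.2 v hv.1
    have h8 : 0 < v (w n) := by
      rcases (apply_nonneg v (w n)).lt_or_eq with h | h
      · exact h
      · exact absurd (map_eq_zero v |>.1 h.symm) hw0
    refine le_antisymm h7 ?_
    rwa [inv_le_one₀ h8] at h6
  · rw [gm_eq]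
    exact hw

theorem germs (U : Ultrafilter ℕ) : ∃ D : Dat k (Om k U),
    (∀ (T : Finset (FinitePlace k)) (z : ℕ → AlgebraicClosure k),
      (∀ᶠ n in (U : Filter ℕ), TInt T (z n)) → gm U z ∈ D.R) ∧
    (∀ (T : Finset (FinitePlace k)) (z : ℕ → AlgebraicClosure k),
      (∀ᶠ n in (U : Filter ℕ), TUnit T (z n)) → D.U (gm U z)) := by
  classical
  have hinj := (algebraMap k (AlgebraicClosure k)).injective
  refine ⟨⟨RR k U, ?_, ?_⟩, ?_, ?_⟩
  · intro n y hy hne
    choose T z hz hzy using fun i => exists_units U (y i) (hy i).1 (hy i).2.1 (hy i).2.2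
    rw [Fintype.linearIndependent_iff]
    intro c hc
    have h1 := Pool.Agent.Helper26.DMC.sunit_indep U (Finset.univ.biUnion T) z (fun i => by
      unfold Pool.Agent.Helper26.DMC.SUnit
      filter_upwards [hz i] with j hj
      refine ⟨hj.1, fun v hv => hj.2 v fun h => hv ?_⟩
      exact Finset.mem_biUnion.2 ⟨i, Finset.mem_univ i, h⟩) (by
      rintro i i' hii ⟨a, ha⟩
      refine hne i i' hii a ?_
      rw [← hzy i, ← hzy i', gm_cst, ← map_mul, gm_eq]
      filter_upwards [ha] with j hj
      simp only [Pi.mul_apply]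
      rw [hj, map_mul]) c (by
      have h2 : gm U (fun j => algebraMap k (AlgebraicClosure k) (∑ i, c i * z i j)) = 0 := by
        rw [← hc]
        have h3 : (fun j => algebraMap k (AlgebraicClosure k) (∑ i, c i * z i j)) =
            ∑ i, (fun _ => algebraMap k (AlgebraicClosure k) (c i)) *
              fun j => algebraMap k (AlgebraicClosure k) (z i j) := by
          funext j
          rw [map_sum, Finset.sum_apply]
          exact Finset.sum_congr rfl fun i _ => map_mul _ _ _
        rw [h3, map_sum]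
        refine Finset.sum_congr rfl fun i _ => ?_
        rw [map_mul, ← gm_cst, hzy i, Algebra.smul_def]
      rw [gm_zero] at h2
      filter_upwards [h2] with j hj
      exact (map_eq_zero _).1 hj)
    intro i
    exact congrFun h1 i
  · rintro y ⟨T, z, hz, rfl⟩ n hn a hya
    have h1 : ∀ᶠ j in (U : Filter ℕ), z j ∈
        {w : AlgebraicClosure k | w ^ n = algebraMap k (AlgebraicClosure k) a} := by
      rw [gm_cst, ← map_pow, gm_eq] at hya
      filter_upwards [hya] with j hj
      exact hj
    have hfin : {w : AlgebraicClosure k | w ^ n = algebraMap k (AlgebraicClosure k) a}.Finite := by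
      have h2 := (Polynomial.nthRoots n (algebraMap k (AlgebraicClosure k) a)).toFinset.finite_toSet
      refine h2.subset fun w hw => ?_
      rw [Finset.mem_coe, Multiset.mem_toFinset, Polynomial.mem_nthRoots hn]
      exact hw
    obtain ⟨w, hw⟩ := Pool.Agent.Helper26.DMC.SU1.ult_finite U _ hfin z h1
    obtain ⟨j, hj1, hj2⟩ := (hw.and hz).exists
    obtain ⟨b, hb, -⟩ := hj2
    refine ⟨b, ?_⟩
    rw [gm_cst, gm_eq]
    filter_upwards [hw] with i hi
    rw [hi, hb, hj1]
  · intro T z hz
    exact ⟨T, z, hz, rfl⟩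
  · intro T z hz
    refine ⟨?_, ⟨T, z, ?_, rfl⟩, ⟨T, fun n => (z n)⁻¹, ?_, (gm_inv U z).symm⟩⟩
    · intro h
      rw [gm_zero] at h
      obtain ⟨n, h1, a, ha, h0, -⟩ := (h.and hz).exists
      rw [h1, map_eq_zero] at ha
      exact h0 ha
    · filter_upwards [hz] with n hn
      exact hn.tint
    · filter_upwards [hz] with n hn
      exact hn.tint_inv

end Pool.Agent.SL
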