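import Pool.Agent.Helper16.SL.Core
import Pool.Agent.Helper16.SL.Germs
import Pool.Agent.Helper16.UP.KForm

/-!
# SixLines: the theorem

PROOF. Otherwise take the exhausting sequence `Q_n` of nonzero polynomials (`UP.KF.exists_seq`), a point `y_n` with `aeval y_n Q_n ≠ 0`, a nonprincipal ultrafilter
(`Filter.hyperfilter ℕ`), the germs `x`, `x'` of `(1, y_n)`, `x'_n` (`units`), `germs`, `core`.
-/

set_option autoImplicit false

namespace Pool.Agent.SL

open NumberField IntermediateField Pool.Agent.Helper64.Vojta Pool.Agent.VZ Filter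

universe u

/-- polynomials and germs -/
theorem aeval_gm {k : Type u} [Field k] (U : Ultrafilter ℕ) {σ : Type*} (P : MvPolynomial σ k)
    (z : ℕ → σ → AlgebraicClosure k) :
    MvPolynomial.aeval (fun i => gm U fun n => z n i) P = gm U fun n => MvPolynomial.aeval (z n) P := by
  induction P using MvPolynomial.induction_on with
  | C a =>
    rw [MvPolynomial.aeval_C]
    have h : (fun n => (MvPolynomial.aeval (z n)) (MvPolynomial.C a)) =
        fun _ : ℕ => algebraMap k (AlgebraicClosure k) a := by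
      funext n
      exact MvPolynomial.aeval_C _ _
    rw [h]
    rfl
  | add p q hp hq =>
    rw [map_add, hp, hq, ← map_add]
    congr 1
    funext n
    rw [Pi.add_apply, map_add]
  | mul_X p i hp =>
    rw [map_mul, hp, MvPolynomial.aeval_X, ← map_mul]
    congr 1
    funext n
    rw [Pi.mul_apply, map_mul, MvPolynomial.aeval_X]

theorem main {k : Type u} [Field k] [NumberField k] (S : Finset (Pl k)) {q : ℕ} (hq : 6 ≤ q) (ℓ : Fin q → Fin 3 → k)
    (hℓ : SL.GenPos ℓ) (hinv : q = 6 → ¬ Inv ℓ) (C : ℝ) :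
    ∃ P : MvPolynomial (Fin 2) k, P ≠ 0 ∧ ∀ y : Fin 2 → AlgebraicClosure k, dg y ≤ 2 →
      (∀ i, ∑ j, algebraMap k (fld y) (ℓ i j) * crd y j ≠ 0) → q * hgt y - C ≤ lam ℓ S y →
      MvPolynomial.aeval y P = 0 := by
  classical
  by_contra hcon
  push Not at hcon
  obtain ⟨Q, hQ0, hQd⟩ := Pool.Agent.Helper16.UP.KF.exists_seq k 2
  choose y hy2 hyD hyN hyQ using fun n => hcon (Q n) (hQ0 n)
  obtain ⟨T, hT⟩ := units S (by omega : 0 < q) ℓ C
  choose x' hx1 hx2 using fun n => hT (y n) (hy2 n) (hyD n) (hyN n)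
  set U : Ultrafilter ℕ := Filter.hyperfilter ℕ with hU
  obtain ⟨D, hD1, hD2⟩ := germs (k := k) U
  let x : ℕ → Fin 3 → AlgebraicClosure k := fun n => ![1, y n 0, y n 1]
  have hlin : ∀ (m : Fin 3 → k) (z : ℕ → Fin 3 → AlgebraicClosure k),
      lin m (fun i => gm U fun n => z n i) = gm U fun n => lin m (z n) := by
    intro m z
    unfold lin
    have h : (fun n => ∑ j, algebraMap k (AlgebraicClosure k) (m j) * z n j) =
        ∑ j, (fun _ : ℕ => algebraMap k (AlgebraicClosure k) (m j)) * fun n => z n j := by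
      funext n
      rw [Finset.sum_apply]
      rfl
    rw [h, map_sum]
    exact Finset.sum_congr rfl fun j _ => by rw [map_mul]; rfl
  obtain ⟨P, hP0, hP⟩ := core D hq ℓ hℓ hinv (fun i => gm U fun n => x n i)
    (fun i => gm U fun n => x' n i) (by
      have h : (fun n => x n 0) = 1 := rfl
      rw [h, map_one])
    (fun i j => by
      rw [← map_mul, ← map_mul, ← map_add]
      exact hD1 T _ (Filter.Eventually.of_forall fun n => hx1 n i j))
    (fun i => by
      rw [hlin, hlin, ← map_mul]
      exact hD2 T _ (Filter.Eventually.of_forall fun n => hx2 n i))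
  have h1 : MvPolynomial.aeval (fun i => gm U fun n => y n i) P = 0 := by
    rw [← hP]
    congr 2
    funext i
    fin_cases i <;> rfl
  rw [aeval_gm, gm_zero] at h1
  obtain ⟨N, hN⟩ := hQd P hP0
  have h2 : ∀ᶠ n in (U : Filter ℕ), N ≤ n := by
    have h3 : ∀ᶠ n in Filter.cofinite, N ≤ n := by
      rw [Nat.cofinite_eq_atTop]
      exact Filter.eventually_ge_atTop N
    exact h3.filter_mono (Filter.hyperfilter_le_cofinite)
  obtain ⟨n, h3, h4⟩ := (h1.and h2).exists
  obtain ⟨R, hR⟩ := hN n h4
  apply hyQ n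
  rw [hR, map_mul, h3, zero_mul]

end Pool.Agent.SL
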