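import Pool.Agent.Helper16.SL.Span

/-!
# SixLines, block B2: valuations with given values on the units

`geo`: PROOF. Let `s` be the maximal valuation of a coordinate of `x`. `v (ℓ_i(x)) ≤ s` as the coefficients are in `k`, so of valuation
at most one. If three of the `ℓ_i(x)` had valuation `< s`, all coordinates would (invert the 3 × 3 matrix, which is over `k`).
`argmin`: PROOF. Let `m = min φ`, attained at `i0`. Let `A` be the set of the products `∏ u_i ^ n_i` with `∑ n_i = 0` and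
`∑ n_i φ_i ≥ 0`, `B` the same with `> 0`. The `k`-span of `A` is a subring `R0` of `Ω`, the span of `B` is an ideal of it. It
does not contain `1`: otherwise by `mem_span` some element of `B` is in `k`, contradiction to `hφ`. By
`Ideal.image_subset_nonunits_valuationSubring` there is a valuation ring `O` of `Ω` with `A ⊆ O` and `B ⊆` nonunits. So
`v(u_i / u_i0) = 1` if `φ_i = m` and `< 1` otherwise. By `geo` there are `s, s'` with `v (u_i) ≤ s s'` and equality for all `i`
outside a set of at most 4 elements; as `4 < q` the maximum of the `v(u_i)` is `s s'`, so these `i` are in the argmin.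
-/

set_option autoImplicit false

namespace Pool.Agent.SL

universe u v

variable {k : Type u} {Ω : Type v} [Field k] [Field Ω] [Algebra k Ω]

/-- at a normalised point at most two of the forms are small -/
theorem card_small {q : ℕ} (ℓ : Fin q → Fin 3 → k) (hℓ : GenPos ℓ) (O : ValuationSubring Ω)
    (hk : ∀ c : k, algebraMap k Ω c ∈ O) (y : Fin 3 → Ω) (hy1 : ∃ j, O.valuation (y j) = 1) :
    (Finset.univ.filter fun i => O.valuation (lin (ℓ i) y) < 1).card ≤ 2 := by
  classical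
  by_contra hcon
  push Not at hcon
  obtain ⟨s, hs, hcard⟩ := Finset.exists_subset_card_eq (Nat.succ_le_of_lt hcon)
  have e := (Finset.equivFinOfCardEq hcard).symm
  let f : Fin 3 → Fin q := fun i => (e i : Fin q)
  have hf : Function.Injective f := fun a b h => e.injective (Subtype.ext h)
  have hfs : ∀ i, O.valuation (lin (ℓ (f i)) y) < 1 := fun i => by
    have := hs (e i).2
    rw [Finset.mem_filter] at this
    exact this.2
  set M : Matrix (Fin 3) (Fin 3) k := Matrix.of fun i j => ℓ (f i) j with hM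
  have hMu : IsUnit M.det := isUnit_iff_ne_zero.mpr (hℓ f hf)
  obtain ⟨j, hj⟩ := hy1
  have h1 : y j = ∑ i, algebraMap k Ω (M⁻¹ j i) * lin (ℓ (f i)) y := by
    have h2 : ∀ i, lin (ℓ (f i)) y = ∑ j', algebraMap k Ω (M i j') * y j' := fun i => rfl
    simp only [h2, Finset.mul_sum]
    rw [Finset.sum_comm]
    have h3 : ∀ j', ∑ i, algebraMap k Ω (M⁻¹ j i) * (algebraMap k Ω (M i j') * y j') =
        algebraMap k Ω ((M⁻¹ * M) j j') * y j' := by
      intro j'
      rw [Matrix.mul_apply, map_sum, Finset.sum_mul]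
      exact Finset.sum_congr rfl fun i _ => by rw [map_mul]; ring
    simp only [h3]
    rw [Matrix.nonsing_inv_mul _ hMu, Finset.sum_eq_single j]
    · simp
    · intro j' _ hj'
      rw [Matrix.one_apply_ne hj'.symm, map_zero, zero_mul]
    · intro h
      exact absurd (Finset.mem_univ _) h
  have h2 : O.valuation (y j) < 1 := by
    rw [h1]
    apply Valuation.map_sum_lt _ one_ne_zero
    intro i _
    rw [map_mul]
    have h3 : O.valuation (algebraMap k Ω (M⁻¹ j i)) ≤ 1 := (O.valuation_le_one_iff _).mpr (hk _)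
    exact lt_of_le_of_lt (mul_le_of_le_one_left' h3) (hfs i)
  exact absurd hj h2.ne

theorem geo {q : ℕ} (ℓ : Fin q → Fin 3 → k) (hℓ : GenPos ℓ) (O : ValuationSubring Ω)
    (hO : ∀ a : k, algebraMap k Ω a ∈ O) (x : Fin 3 → Ω) (hx : x ≠ 0) :
    ∃ s : O.ValueGroup, s ≠ 0 ∧ (∀ j, O.valuation (x j) ≤ s) ∧
      (∀ i, O.valuation (lin (ℓ i) x) ≤ s) ∧
      ∃ I : Finset (Fin q), I.card ≤ 2 ∧ ∀ i ∉ I, O.valuation (lin (ℓ i) x) = s := by
  classical
  obtain ⟨j0, -, hj0⟩ := Finset.exists_max_image (Finset.univ : Finset (Fin 3))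
    (fun j => O.valuation (x j)) Finset.univ_nonempty
  have hx0 : x j0 ≠ 0 := by
    intro h
    apply hx
    funext j
    have h1 := hj0 j (Finset.mem_univ j)
    rw [h, map_zero] at h1
    exact (Valuation.zero_iff _).mp (le_zero_iff.mp h1)
  let y : Fin 3 → Ω := fun j => x j / x j0
  have hv0 : O.valuation (x j0) ≠ 0 := (Valuation.ne_zero_iff _).mpr hx0
  have hev : ∀ i, O.valuation (lin (ℓ i) x) = O.valuation (x j0) * O.valuation (lin (ℓ i) y) := by
    intro i
    rw [← map_mul]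
    congr 1
    unfold lin
    rw [Finset.mul_sum]
    apply Finset.sum_congr rfl
    intro j _
    simp only [y]
    field_simp
  have hy : ∀ j, O.valuation (y j) ≤ 1 := by
    intro j
    simp only [y]
    rw [map_div₀]
    exact div_le_one_of_le₀ (hj0 j (Finset.mem_univ j)) zero_le'
  have hLy : ∀ i, O.valuation (lin (ℓ i) y) ≤ 1 := by
    intro i
    unfold lin
    apply Valuation.map_sum_le
    intro j _
    rw [map_mul]
    exact mul_le_one' ((O.valuation_le_one_iff _).mpr (hO _)) (hy j)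
  have hcard := card_small ℓ hℓ O hO y ⟨j0, by
    simp only [y]
    rw [div_self hx0, map_one]⟩
  refine ⟨O.valuation (x j0), hv0, fun j => hj0 j (Finset.mem_univ j), ?_,
    Finset.univ.filter fun i => O.valuation (lin (ℓ i) y) < 1, hcard, ?_⟩
  · intro i
    rw [hev]
    exact mul_le_of_le_one_right' (hLy i)
  · intro i hi
    rw [Finset.mem_filter, not_and] at hi
    rw [hev, le_antisymm (hLy i) (not_lt.mp (hi (Finset.mem_univ i))), mul_one]

/-- the maximal value of the products `ℓ_i(x) ℓ_i(x')` -/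
theorem geo₂ {q : ℕ} (hq : 4 < q) (ℓ : Fin q → Fin 3 → k) (hℓ : GenPos ℓ) (O : ValuationSubring Ω)
    (hO : ∀ a : k, algebraMap k Ω a ∈ O) (x x' : Fin 3 → Ω) (hx : x ≠ 0) (hx' : x' ≠ 0) :
    ∃ s s' : O.ValueGroup, s ≠ 0 ∧ s' ≠ 0 ∧ (∀ j, O.valuation (x j) ≤ s) ∧
      (∀ i, O.valuation (lin (ℓ i) x) ≤ s) ∧ (∀ i, O.valuation (lin (ℓ i) x') ≤ s') ∧
      (∀ i, O.valuation (lin (ℓ i) x * lin (ℓ i) x') ≤ s * s') ∧
      ∃ B : Finset (Fin q), q ≤ B.card + 4 ∧ ∀ i ∈ B, O.valuation (lin (ℓ i) x * lin (ℓ i) x') = s * s' := by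
  classical
  obtain ⟨s, hs, h1, h2, I, hI, h3⟩ := geo ℓ hℓ O hO x hx
  obtain ⟨s', hs', h1', h2', I', hI', h3'⟩ := geo ℓ hℓ O hO x' hx'
  refine ⟨s, s', hs, hs', h1, h2, h2', fun i => ?_, (I ∪ I')ᶜ, ?_, fun i hi => ?_⟩
  · rw [map_mul]
    exact mul_le_mul' (h2 i) (h2' i)
  · have h4 := Finset.card_union_le I I'
    have h5 := Finset.card_compl (I ∪ I')
    rw [Fintype.card_fin] at h5
    omega
  · rw [Finset.mem_compl, Finset.mem_union, not_or] at hi
    rw [map_mul, h3 i hi.1, h3' i hi.2]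

/-- the monomials of degree `0` in the `u i` with value in `s` -/
def mons {q : ℕ} (u : Fin q → Ω) (φ : Fin q → ℚ) (s : Set ℚ) : Set Ω :=
  {z | ∃ n : Fin q → ℤ, ∑ i, n i = 0 ∧ ∑ i, (n i : ℚ) * φ i ∈ s ∧ z = ∏ i, u i ^ n i}

theorem mons_mul {q : ℕ} (u : Fin q → Ω) (hu : ∀ i, u i ≠ 0) (φ : Fin q → ℚ) (s t r : Set ℚ)
    (hst : ∀ a ∈ s, ∀ b ∈ t, a + b ∈ r) (x y : Ω) (hx : x ∈ Submodule.span k (mons u φ s))
    (hy : y ∈ Submodule.span k (mons u φ t)) : x * y ∈ Submodule.span k (mons u φ r) := by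
  have h1 : x * y ∈ Submodule.span k (mons u φ s) * Submodule.span k (mons u φ t) :=
    Submodule.mul_mem_mul hx hy
  rw [Submodule.span_mul_span] at h1
  refine Submodule.span_mono ?_ h1
  rintro _ ⟨_, ⟨n, hn, hns, rfl⟩, _, ⟨m, hm, hmt, rfl⟩, rfl⟩
  refine ⟨fun i => n i + m i, ?_, ?_, ?_⟩
  · rw [Finset.sum_add_distrib, hn, hm, add_zero]
  · have h2 : ∑ i, ((n i + m i : ℤ) : ℚ) * φ i = ∑ i, (n i : ℚ) * φ i + ∑ i, (m i : ℚ) * φ i := by
      rw [← Finset.sum_add_distrib]
      apply Finset.sum_congr rfl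
      intro i _
      push_cast
      ring
    rw [h2]
    exact hst _ hns _ hmt
  · simp only [← Finset.prod_mul_distrib]
    apply Finset.prod_congr rfl
    intro i _
    rw [zpow_add₀ (hu i)]

theorem exists_val (D : Dat k Ω) {q : ℕ} (u : Fin q → Ω) (hu : ∀ i, D.U (u i)) (φ : Fin q → ℚ)
    (hφ : ∀ n : Fin q → ℤ, ∑ i, n i = 0 → Cst k (∏ i, u i ^ n i) → ∑ i, (n i : ℚ) * φ i = 0) :
    ∃ O : ValuationSubring Ω, (∀ a : k, algebraMap k Ω a ∈ O) ∧
      ∀ n : Fin q → ℤ, ∑ i, n i = 0 → 0 < ∑ i, (n i : ℚ) * φ i → O.valuation (∏ i, u i ^ n i) < 1 := by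
  have hu0 : ∀ i, u i ≠ 0 := fun i => (hu i).1
  have hone : (1 : Ω) ∈ Submodule.span k (mons u φ (Set.Ici 0)) :=
    Submodule.subset_span ⟨0, by simp, by simp, by simp⟩
  let A : Subring Ω :=
    { carrier := Submodule.span k (mons u φ (Set.Ici 0))
      mul_mem' := fun {x y} hx hy => mons_mul u hu0 φ (Set.Ici 0) (Set.Ici 0) (Set.Ici 0)
        (fun a ha b hb => by
          simp only [Set.mem_Ici] at *
          linarith) x y hx hy
      one_mem' := hone
      add_mem' := fun {x y} hx hy => Submodule.add_mem _ hx hy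
      zero_mem' := Submodule.zero_mem _
      neg_mem' := fun {x} hx => Submodule.neg_mem _ hx }
  let I : Ideal A :=
    { carrier := {a | (a : Ω) ∈ Submodule.span k (mons u φ (Set.Ioi 0))}
      add_mem' := fun {x y} hx hy => by
        show ((x + y : A) : Ω) ∈ Submodule.span k (mons u φ (Set.Ioi 0))
        exact Submodule.add_mem _ hx hy
      zero_mem' := by
        show ((0 : A) : Ω) ∈ Submodule.span k (mons u φ (Set.Ioi 0))
        exact Submodule.zero_mem _
      smul_mem' := fun c x hx => mons_mul u hu0 φ (Set.Ici 0) (Set.Ioi 0) (Set.Ioi 0)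
        (fun a ha b hb => by
          simp only [Set.mem_Ici, Set.mem_Ioi] at *
          linarith) c x c.2 hx }
  have hI : I ≠ ⊤ := by
    rw [Ideal.ne_top_iff_one]
    intro h
    have h1 : (1 : Ω) ∈ Submodule.span k (mons u φ (Set.Ioi 0)) := h
    obtain ⟨t, ⟨n, hn, hnp, rfl⟩, a, ha⟩ := mem_span D (mons u φ (Set.Ioi 0)) (by
      rintro _ ⟨n, -, -, rfl⟩
      exact Dat.U.prod _ fun i _ => (hu i).zpow _) 1 (Dat.U.one D) h1
    have ha0 : algebraMap k Ω a ≠ 0 := by
      intro h0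
      rw [h0, zero_mul] at ha
      exact one_ne_zero ha
    have h2 := hφ n hn ⟨a⁻¹, by
      rw [map_inv₀, eq_inv_of_mul_eq_one_right ha.symm]⟩
    rw [h2] at hnp
    exact absurd hnp (by simp)
  obtain ⟨O, hAO, hIO⟩ := Ideal.image_subset_nonunits_valuationSubring I hI
  refine ⟨O, ?_, ?_⟩
  · intro c
    apply hAO
    show algebraMap k Ω c ∈ Submodule.span k (mons u φ (Set.Ici 0))
    have := Submodule.smul_mem (Submodule.span k (mons u φ (Set.Ici 0))) c hone
    rwa [Algebra.smul_def, mul_one] at this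
  · intro n hn hnp
    rw [← ValuationSubring.mem_nonunits_iff]
    apply hIO
    exact ⟨⟨∏ i, u i ^ n i, Submodule.subset_span ⟨n, hn, hnp.le, rfl⟩⟩,
      Submodule.subset_span ⟨n, hn, hnp, rfl⟩, rfl⟩

theorem argmin (D : Dat k Ω) {q : ℕ} (hq : 4 < q) (ℓ : Fin q → Fin 3 → k) (hℓ : GenPos ℓ)
    (x x' : Fin 3 → Ω) (hu : ∀ i, D.U (lin (ℓ i) x * lin (ℓ i) x')) (φ : Fin q → ℚ)
    (hφ : ∀ n : Fin q → ℤ, ∑ i, n i = 0 → Cst k (∏ i, (lin (ℓ i) x * lin (ℓ i) x') ^ n i) →
      ∑ i, (n i : ℚ) * φ i = 0) :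
    ∃ I : Finset (Fin q), q ≤ I.card + 4 ∧ ∀ i ∈ I, ∀ j, φ i ≤ φ j := by
  classical
  obtain ⟨O, hO, hval⟩ := exists_val D (fun i => lin (ℓ i) x * lin (ℓ i) x') hu φ hφ
  have hx : x ≠ 0 := by
    rintro rfl
    apply (hu ⟨0, by omega⟩).1
    simp [lin]
  have hx' : x' ≠ 0 := by
    rintro rfl
    apply (hu ⟨0, by omega⟩).1
    simp [lin]
  obtain ⟨s, s', hs, hs', -, -, -, hle, B, hB, hBe⟩ := geo₂ hq ℓ hℓ O hO x x' hx hx'
  refine ⟨B, hB, fun i hi j => ?_⟩
  by_contra hcon
  push Not at hcon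
  have hij : i ≠ j := by
    rintro rfl
    exact lt_irrefl _ hcon
  -- the monomial `u_i / u_j`
  have h1 := hval (Pi.single i 1 - Pi.single j 1) (by simp) (by
    simp only [Pi.sub_apply, Int.cast_sub, sub_mul, Finset.sum_sub_distrib]
    rw [Finset.sum_eq_single i, Finset.sum_eq_single j]
    · simp
      exact hcon
    · intro b _ hb
      simp [Pi.single_apply, hb]
    · intro h
      exact absurd (Finset.mem_univ _) h
    · intro b _ hb
      simp [Pi.single_apply, hb]
    · intro h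
      exact absurd (Finset.mem_univ _) h)
  have h2 : ∏ l, (lin (ℓ l) x * lin (ℓ l) x') ^ ((Pi.single i 1 - Pi.single j 1 : Fin q → ℤ) l) =
      (lin (ℓ i) x * lin (ℓ i) x') / (lin (ℓ j) x * lin (ℓ j) x') := by
    rw [Finset.prod_eq_mul i j hij]
    · simp [Pi.single_apply, hij, Ne.symm hij, div_eq_mul_inv]
    · intro c _ hc
      simp [Pi.single_apply, hc.1, hc.2]
    · intro h
      exact absurd (Finset.mem_univ _) h
    · intro h
      exact absurd (Finset.mem_univ _) h
  rw [h2, map_div₀, hBe i hi] at h1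
  have h4 : O.valuation (lin (ℓ j) x * lin (ℓ j) x') ≠ 0 := (Valuation.ne_zero_iff _).mpr (hu j).1
  rw [div_lt_one₀ (zero_lt_iff.mpr h4)] at h1
  exact absurd (hle j) (not_le.mpr h1)

end Pool.Agent.SL
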