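import Mathlib

/-!
# SixLines, block B4: combinatorics

PROOF of `comb`. Call `i ~ j` if `φ i = φ j` for all `φ ∈ W`. (0) There is `s ∈ W` with `s i = s j` only if `i ~ j` (a vector space over `ℚ`
is not a finite union of proper subspaces: `Subspace.biUnion_ne_univ_of_top_notMem`, or `Module.exists_dual_forall_apply_ne_zero`-like
lemmas). (1) The argmin of `s` is a class `v1`, the argmin of `-s` a class `v2`; `v1 ≠ v2` as `W` has a nonconstant element. (2) There is
`ψ ∈ W` with `ψ(v1) = ψ(v2)`, not constant (`W` has three independent elements, one of them the constant 1; subtract multiples of `s` and 1),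
and after a change of sign `ψ i < ψ(v1)` for some `i`. For a large natural `N` the argmin of `N ψ + s` is a class `v3` in which
`ψ` is minimal; so `v3 ≠ v1, v2`. (3) each of the three classes has at least `q - 4` elements, so `3 (q - 4) ≤ q`: `q = 6` and they are
three pairs which exhaust `Fin q`. So `W` is contained in the 3-dimensional space of the functions constant on the pairs, and it has
three independent elements, so it is equal to it.
-/

set_option autoImplicit false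

namespace Pool.Agent.SL

/-- The set where `φ` is minimal. -/
private noncomputable def am_97 {q : ℕ} (φ : Fin q → ℚ) : Finset (Fin q) :=
  open Classical in Finset.univ.filter fun i => ∀ j, φ i ≤ φ j

private theorem mem_am_97 {q : ℕ} (φ : Fin q → ℚ) (i : Fin q) : i ∈ am_97 φ ↔ ∀ j, φ i ≤ φ j := by
  classical
  unfold am_97
  rw [Finset.mem_filter]
  exact ⟨fun h => h.2, fun h => ⟨Finset.mem_univ _, h⟩⟩

private theorem perturb_97 {q : ℕ} (χ ψ : Fin q → ℚ) : ∃ N : ℚ, ∀ i, i ∈ am_97 (N • χ + ψ) →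
    i ∈ am_97 χ ∧ ∀ j ∈ am_97 χ, ψ i ≤ ψ j := by
  let N : ℚ := 1 + ∑ i, ∑ j, |(ψ j - ψ i) / (χ i - χ j)|
  have hN : ∀ i j, χ j < χ i → ψ j - ψ i < N * (χ i - χ j) := by
    intro i j hij
    have h1 : (ψ j - ψ i) / (χ i - χ j) ≤ ∑ i, ∑ j, |(ψ j - ψ i) / (χ i - χ j)| := by
      refine (le_abs_self _).trans ?_
      refine le_trans ?_ (Finset.single_le_sum (f := fun i => ∑ j, |(ψ j - ψ i) / (χ i - χ j)|)
        (fun i _ => Finset.sum_nonneg fun j _ => abs_nonneg _) (Finset.mem_univ i))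
      exact Finset.single_le_sum (f := fun j => |(ψ j - ψ i) / (χ i - χ j)|)
        (fun j _ => abs_nonneg _) (Finset.mem_univ j)
    have h2 : (ψ j - ψ i) / (χ i - χ j) < N := by
      show _ < 1 + _
      linarith
    rwa [div_lt_iff₀ (by linarith)] at h2
  refine ⟨N, fun i hi => ?_⟩
  rw [mem_am_97] at hi
  have h0 : ∀ j, N * χ i + ψ i ≤ N * χ j + ψ j := fun j => by simpa using hi j
  have h1 : ∀ j, χ i ≤ χ j := by
    intro j
    by_contra h
    push Not at h
    have h2 := hN i j h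
    have h3 := h0 j
    linarith
  refine ⟨(mem_am_97 _ _).2 h1, fun j hj => ?_⟩
  have h2 : χ j = χ i := le_antisymm ((mem_am_97 _ _).1 hj i) (h1 j)
  have h3 := h0 j
  rw [h2] at h3
  linarith

private theorem cls_97 {q : ℕ} (W : Submodule ℚ (Fin q → ℚ))
    (hmin : ∀ φ ∈ W, ∃ I : Finset (Fin q), q ≤ I.card + 4 ∧ ∀ i ∈ I, ∀ j, φ i ≤ φ j)
    (φ : Fin q → ℚ) (hφ : φ ∈ W) :
    ∃ C : Finset (Fin q), (∀ i ∈ C, ∀ j, φ i ≤ φ j) ∧ q ≤ C.card + 4 ∧
      ∀ ψ ∈ W, ∀ i ∈ C, ∀ j ∈ C, ψ i = ψ j := by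
  classical
  have hcard : ∀ χ ∈ W, q ≤ (am_97 χ).card + 4 := by
    intro χ hχ
    obtain ⟨I, hI, hI'⟩ := hmin χ hχ
    have h1 : I ⊆ am_97 χ := fun i hi => (mem_am_97 _ _).2 (hI' i hi)
    have h2 := Finset.card_le_card h1
    omega
  let T : Set (Fin q → ℚ) := {χ | χ ∈ W ∧ am_97 χ ⊆ am_97 φ}
  obtain ⟨χ, hχ, hmin'⟩ := (measure fun χ : Fin q → ℚ => (am_97 χ).card).wf.has_min T
    ⟨φ, hφ, Finset.Subset.refl _⟩
  have key : ∀ ψ ∈ W, ∀ i ∈ am_97 χ, ∀ j ∈ am_97 χ, ψ i ≤ ψ j := by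
    intro ψ hψ i hi j hj
    by_contra hcon
    push Not at hcon
    obtain ⟨N, hN⟩ := perturb_97 χ ψ
    have h1 : N • χ + ψ ∈ W := W.add_mem (W.smul_mem _ hχ.1) hψ
    have h2 : am_97 (N • χ + ψ) ⊆ am_97 χ := fun a ha => (hN a ha).1
    have h3 : i ∉ am_97 (N • χ + ψ) := fun h => absurd ((hN i h).2 j hj) (not_le.2 hcon)
    have h4 : (am_97 (N • χ + ψ)).card < (am_97 χ).card :=
      Finset.card_lt_card ⟨h2, fun h => h3 (h hi)⟩
    exact hmin' _ ⟨h1, h2.trans hχ.2⟩ h4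
  refine ⟨am_97 χ, fun i hi => (mem_am_97 _ _).1 (hχ.2 hi), hcard χ hχ.1, fun ψ hψ i hi j hj => ?_⟩
  exact le_antisymm (key ψ hψ i hi j hj) (key ψ hψ j hj i hi)

private theorem nonconst_97 {q : ℕ} (W : Submodule ℚ (Fin q → ℚ))
    (h3 : 3 ≤ Module.finrank ℚ W) (a b : Fin q) :
    ∃ ψ ∈ W, ψ a = ψ b ∧ ∃ i, ψ i ≠ ψ a := by
  by_contra hcon
  push Not at hcon
  let f : W →ₗ[ℚ] (Fin 2 → ℚ) :=
    { toFun := fun ψ => ![(ψ : Fin q → ℚ) a, (ψ : Fin q → ℚ) b]
      map_add' := fun x y => by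
        ext i
        fin_cases i <;> simp
      map_smul' := fun c x => by
        ext i
        fin_cases i <;> simp }
  have hf : Function.Injective f := by
    rw [injective_iff_map_eq_zero]
    intro ψ hψ
    have ha : (ψ : Fin q → ℚ) a = 0 := congrFun hψ 0
    have hb : (ψ : Fin q → ℚ) b = 0 := congrFun hψ 1
    have h := hcon ψ ψ.2 (ha.trans hb.symm)
    ext i
    rw [h i, ha]
    rfl
  have h := LinearMap.finrank_le_finrank_of_injective hf
  rw [Module.finrank_fin_fun] at h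
  omega

theorem comb {q : ℕ} (hq : 6 ≤ q) (W : Submodule ℚ (Fin q → ℚ)) (h1 : (fun _ => 1) ∈ W)
    (hmin : ∀ φ ∈ W, ∃ I : Finset (Fin q), q ≤ I.card + 4 ∧ ∀ i ∈ I, ∀ j, φ i ≤ φ j)
    (h3 : 3 ≤ Module.finrank ℚ W) :
    ∃ e : Fin 6 ≃ Fin q, ∀ φ : Fin q → ℚ, φ ∈ W ↔
      φ (e 0) = φ (e 1) ∧ φ (e 2) = φ (e 3) ∧ φ (e 4) = φ (e 5) := by
  classical
  have hq0 : 0 < q := by omega
  obtain ⟨φ, hφ, -, i0, hi0⟩ := nonconst_97 W h3 ⟨0, hq0⟩ ⟨0, hq0⟩
  obtain ⟨v1, hv1, hc1, hw1⟩ := cls_97 W hmin φ hφ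
  obtain ⟨v2, hv2, hc2, hw2⟩ := cls_97 W hmin (-φ) (W.neg_mem hφ)
  have hd12 : ∀ i ∈ v1, i ∉ v2 := by
    intro i hi hi'
    have h4 : ∀ j, φ j = φ i := fun j => le_antisymm (by simpa using hv2 i hi' j) (hv1 i hi j)
    exact hi0 ((h4 i0).trans (h4 _).symm)
  obtain ⟨a, ha⟩ := Finset.card_pos.1 (show 0 < v1.card by omega)
  obtain ⟨b, hb⟩ := Finset.card_pos.1 (show 0 < v2.card by omega)
  obtain ⟨ψ, hψ, hab, i1, hi1⟩ := nonconst_97 W h3 a b
  have hv3 : ∃ C : Finset (Fin q), q ≤ C.card + 4 ∧ (∀ ψ ∈ W, ∀ i ∈ C, ∀ j ∈ C, ψ i = ψ j) ∧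
      ∀ i ∈ C, i ∉ v1 ∧ i ∉ v2 := by
    by_cases hlt : ∃ i, ψ i < ψ a
    · obtain ⟨i2, hi2⟩ := hlt
      obtain ⟨C, hC, hCc, hCw⟩ := cls_97 W hmin ψ hψ
      refine ⟨C, hCc, hCw, fun i hi => ⟨fun h => ?_, fun h => ?_⟩⟩
      · have h5 := hw1 ψ hψ i h a ha
        have h6 := hC i hi i2
        linarith
      · have h5 := hw2 ψ hψ i h b hb
        have h6 := hC i hi i2
        linarith
    · push Not at hlt
      have hi2 : ψ a < ψ i1 := lt_of_le_of_ne (hlt i1) (Ne.symm hi1)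
      obtain ⟨C, hC, hCc, hCw⟩ := cls_97 W hmin (-ψ) (W.neg_mem hψ)
      refine ⟨C, hCc, hCw, fun i hi => ⟨fun h => ?_, fun h => ?_⟩⟩
      · have h5 := hw1 ψ hψ i h a ha
        have h6 := hC i hi i1
        simp only [Pi.neg_apply, neg_le_neg_iff] at h6
        linarith
      · have h5 := hw2 ψ hψ i h b hb
        have h6 := hC i hi i1
        simp only [Pi.neg_apply, neg_le_neg_iff] at h6
        linarith
  obtain ⟨v3, hc3, hw3, hd3⟩ := hv3
  have hdis12 : Disjoint v1 v2 := Finset.disjoint_left.2 hd12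
  have hdis3 : Disjoint (v1 ∪ v2) v3 := by
    rw [Finset.disjoint_left]
    intro i hi hi'
    rcases Finset.mem_union.1 hi with h | h
    · exact (hd3 i hi').1 h
    · exact (hd3 i hi').2 h
  have htot : v1.card + v2.card + v3.card ≤ q := by
    have h4 := Finset.card_le_univ ((v1 ∪ v2) ∪ v3)
    rw [Finset.card_union_of_disjoint hdis3, Finset.card_union_of_disjoint hdis12, Fintype.card_fin] at h4
    exact h4
  have hq6 : q = 6 := by omega
  subst hq6
  obtain ⟨a1, a2, hane, rfl⟩ := Finset.card_eq_two.1 (show v1.card = 2 by omega)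
  obtain ⟨b1, b2, hbne, rfl⟩ := Finset.card_eq_two.1 (show v2.card = 2 by omega)
  obtain ⟨c1, c2, hcne, rfl⟩ := Finset.card_eq_two.1 (show v3.card = 2 by omega)
  have ma1 : a1 ∈ ({a1, a2} : Finset (Fin 6)) := by simp
  have ma2 : a2 ∈ ({a1, a2} : Finset (Fin 6)) := by simp
  have mb1 : b1 ∈ ({b1, b2} : Finset (Fin 6)) := by simp
  have mb2 : b2 ∈ ({b1, b2} : Finset (Fin 6)) := by simp
  have mc1 : c1 ∈ ({c1, c2} : Finset (Fin 6)) := by simp
  have mc2 : c2 ∈ ({c1, c2} : Finset (Fin 6)) := by simp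
  have d12 : ∀ i ∈ ({a1, a2} : Finset (Fin 6)), ∀ j ∈ ({b1, b2} : Finset (Fin 6)), i ≠ j := by
    rintro i hi j hj rfl
    exact hd12 i hi hj
  have d13 : ∀ i ∈ ({a1, a2} : Finset (Fin 6)), ∀ j ∈ ({c1, c2} : Finset (Fin 6)), i ≠ j := by
    rintro i hi j hj rfl
    exact (hd3 i hj).1 hi
  have d23 : ∀ i ∈ ({b1, b2} : Finset (Fin 6)), ∀ j ∈ ({c1, c2} : Finset (Fin 6)), i ≠ j := by
    rintro i hi j hj rfl
    exact (hd3 i hj).2 hi
  let f : Fin 6 → Fin 6 := ![a1, a2, b1, b2, c1, c2]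
  have hf : Function.Injective f := by
    have e1 := d12 a1 ma1 b1 mb1
    have e2 := d12 a1 ma1 b2 mb2
    have e3 := d12 a2 ma2 b1 mb1
    have e4 := d12 a2 ma2 b2 mb2
    have e5 := d13 a1 ma1 c1 mc1
    have e6 := d13 a1 ma1 c2 mc2
    have e7 := d13 a2 ma2 c1 mc1
    have e8 := d13 a2 ma2 c2 mc2
    have e9 := d23 b1 mb1 c1 mc1
    have e10 := d23 b1 mb1 c2 mc2
    have e11 := d23 b2 mb2 c1 mc1
    have e12 := d23 b2 mb2 c2 mc2
    intro i j h
    fin_cases i <;> fin_cases j <;> first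
      | rfl
      | exact absurd h hane
      | exact absurd h hane.symm
      | exact absurd h hbne
      | exact absurd h hbne.symm
      | exact absurd h hcne
      | exact absurd h hcne.symm
      | exact absurd h e1
      | exact absurd h e1.symm
      | exact absurd h e2
      | exact absurd h e2.symm
      | exact absurd h e3
      | exact absurd h e3.symm
      | exact absurd h e4
      | exact absurd h e4.symm
      | exact absurd h e5
      | exact absurd h e5.symm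
      | exact absurd h e6
      | exact absurd h e6.symm
      | exact absurd h e7
      | exact absurd h e7.symm
      | exact absurd h e8
      | exact absurd h e8.symm
      | exact absurd h e9
      | exact absurd h e9.symm
      | exact absurd h e10
      | exact absurd h e10.symm
      | exact absurd h e11
      | exact absurd h e11.symm
      | exact absurd h e12
      | exact absurd h e12.symm
  let e : Fin 6 ≃ Fin 6 := Equiv.ofBijective f (Finite.injective_iff_bijective.1 hf)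
  have he : ∀ i, e i = f i := fun _ => rfl
  let W0 : Submodule ℚ (Fin 6 → ℚ) :=
    { carrier := {φ | φ a1 = φ a2 ∧ φ b1 = φ b2 ∧ φ c1 = φ c2}
      add_mem' := by
        rintro x y ⟨x1, x2, x3⟩ ⟨y1, y2, y3⟩
        refine ⟨?_, ?_, ?_⟩
        · simp only [Pi.add_apply, x1, y1]
        · simp only [Pi.add_apply, x2, y2]
        · simp only [Pi.add_apply, x3, y3]
      zero_mem' := ⟨rfl, rfl, rfl⟩
      smul_mem' := by
        rintro c x ⟨x1, x2, x3⟩
        refine ⟨?_, ?_, ?_⟩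
        · simp only [Pi.smul_apply, x1]
        · simp only [Pi.smul_apply, x2]
        · simp only [Pi.smul_apply, x3] }
  have hWle : W ≤ W0 := fun χ hχ =>
    ⟨hw1 χ hχ a1 ma1 a2 ma2, hw2 χ hχ b1 mb1 b2 mb2, hw3 χ hχ c1 mc1 c2 mc2⟩
  have hfin : Module.finrank ℚ W0 ≤ 3 := by
    let g : W0 →ₗ[ℚ] (Fin 3 → ℚ) :=
      { toFun := fun χ => ![(χ : Fin 6 → ℚ) a1, (χ : Fin 6 → ℚ) b1, (χ : Fin 6 → ℚ) c1]
        map_add' := fun x y => by
          ext i
          fin_cases i <;> simp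
        map_smul' := fun c x => by
          ext i
          fin_cases i <;> simp }
    have hg : Function.Injective g := by
      rw [injective_iff_map_eq_zero]
      intro χ hχ
      have z1 : (χ : Fin 6 → ℚ) a1 = 0 := congrFun hχ 0
      have z2 : (χ : Fin 6 → ℚ) b1 = 0 := congrFun hχ 1
      have z3 : (χ : Fin 6 → ℚ) c1 = 0 := congrFun hχ 2
      obtain ⟨w1, w2, w3⟩ := χ.2
      ext i
      obtain ⟨j, rfl⟩ := e.surjective i
      show (χ : Fin 6 → ℚ) (f j) = 0
      fin_cases j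
      · exact z1
      · exact w1.symm.trans z1
      · exact z2
      · exact w2.symm.trans z2
      · exact z3
      · exact w3.symm.trans z3
    have h := LinearMap.finrank_le_finrank_of_injective hg
    rwa [Module.finrank_fin_fun] at h
  have hWeq : W = W0 := Submodule.eq_of_le_of_finrank_le hWle (hfin.trans h3)
  refine ⟨e, fun χ => ?_⟩
  rw [hWeq]
  exact Iff.rfl

end Pool.Agent.SL
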