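import Pool.Agent.Helper16.SL.Quad

/-!
# SixLines: a quadratic form with five zeros and a vanishing polar value is zero
-/

set_option autoImplicit false

namespace Pool.Agent.SL

/-- The identities of Cramer's rule for the quadratic form in the basis `a, b, c`. -/
theorem qf_br {F : Type*} [Field F] (g : Fin 6 → F) (a b c m : Fin 3 → F) :
    br a b c ^ 2 * qf g m = br m b c ^ 2 * qf g a + br a m c ^ 2 * qf g b + br a b m ^ 2 * qf g c +
      br m b c * br a m c * bf g a b + br a m c * br a b m * bf g b c + br m b c * br a b m * bf g a c := by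
  have h : (fun i => br m b c * a i + br a m c * b i + br a b m * c i) = fun i => br a b c * m i := by
    funext i
    exact (br_smul a b c m i).symm
  have h1 := qf_comb g a b c (br m b c) (br a m c) (br a b m)
  rw [h] at h1
  rw [← h1]
  simp only [qf]
  ring

theorem K0 {F : Type*} [Field F] [CharZero F] (a b c d e : Fin 3 → F) (habc : br a b c ≠ 0) (habd : br a b d ≠ 0)
    (habe : br a b e ≠ 0) (hacd : br a d c ≠ 0) (hcde : br c d e ≠ 0)
    (h : Fin 6 → F) (ha : qf h a = 0) (hb : qf h b = 0) (hc : qf h c = 0) (hd : qf h d = 0) (he : qf h e = 0)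
    (hab : bf h a b = 0) : h = 0 := by
  have e1 := qf_br h a b c d
  have e2 := qf_br h a b c e
  rw [ha, hb, hc, hd, hab] at e1
  rw [ha, hb, hc, he, hab] at e2
  have f1 : br a d c * bf h b c + br d b c * bf h a c = 0 := by
    have : br a b d * (br a d c * bf h b c + br d b c * bf h a c) = 0 := by linear_combination -e1
    exact (mul_eq_zero.mp this).resolve_left habd
  have f2 : br a e c * bf h b c + br e b c * bf h a c = 0 := by
    have : br a b e * (br a e c * bf h b c + br e b c * bf h a c) = 0 := by linear_combination -e2
    exact (mul_eq_zero.mp this).resolve_left habe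
  have hdet : br a d c * br e b c - br a e c * br d b c = -(br a b c * br c d e) := by
    simp only [br]
    ring
  have hac : bf h a c = 0 := by
    have : (br a b c * br c d e) * bf h a c = 0 := by
      linear_combination br a e c * f1 - br a d c * f2 + bf h a c * hdet
    exact (mul_eq_zero.mp this).resolve_left (mul_ne_zero habc hcde)
  have hbc : bf h b c = 0 := by
    rw [hac, mul_zero, add_zero] at f1
    exact (mul_eq_zero.mp f1).resolve_left hacd
  have hall : ∀ m, qf h m = 0 := by
    intro m
    have e3 := qf_br h a b c m
    rw [ha, hb, hc, hab, hac, hbc] at e3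
    have : br a b c ^ 2 * qf h m = 0 := by rw [e3]; ring
    exact (mul_eq_zero.mp this).resolve_left (pow_ne_zero 2 habc)
  have g0 := hall ![1, 0, 0]
  have g1 := hall ![0, 1, 0]
  have g2 := hall ![0, 0, 1]
  have g3 := hall ![0, 1, 1]
  have g4 := hall ![1, 0, 1]
  have g5 := hall ![1, 1, 0]
  simp only [qf, Matrix.cons_val] at g0 g1 g2 g3 g4 g5
  funext i
  fin_cases i
  · show h 0 = 0; linear_combination g0
  · show h 1 = 0; linear_combination g1
  · show h 2 = 0; linear_combination g2
  · show h 3 = 0; linear_combination g3 - g1 - g2
  · show h 4 = 0; linear_combination g4 - g0 - g2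
  · show h 5 = 0; linear_combination g5 - g0 - g1

end Pool.Agent.SL
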