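import Pool.Agent.Helper16.SL.Defs

/-!
# SixLines, block B1: consequences of the independence of units

PROOF. `mem_span`: write `u = ∑_{t ∈ T0} c_t t` with `T0 ⊆ T` finite of minimal cardinality. Then all `c_t ≠ 0`, no two elements of
`T0` are proportional over `k` (merge them), and if `u` is proportional to no element of `T0` then `u` and the elements of `T0` are
independent by `D.indep`, contradiction. `poly`: otherwise the monomial `c_μ t^μ` is in the span of the `t^ν`, `ν ≠ μ` in the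
support; apply `mem_span`.
-/

set_option autoImplicit false

namespace Pool.Agent.SL

universe u v

variable {k : Type u} {Ω : Type v} [Field k] [Field Ω] [Algebra k Ω]

theorem Dat.U.mul {D : Dat k Ω} {a b : Ω} (ha : D.U a) (hb : D.U b) : D.U (a * b) := by
  refine ⟨mul_ne_zero ha.1 hb.1, D.R.mul_mem ha.2.1 hb.2.1, ?_⟩
  rw [mul_inv]
  exact D.R.mul_mem ha.2.2 hb.2.2

theorem Dat.U.inv {D : Dat k Ω} {a : Ω} (ha : D.U a) : D.U a⁻¹ :=
  ⟨inv_ne_zero ha.1, ha.2.2, by rw [inv_inv]; exact ha.2.1⟩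

theorem Dat.U.cst (D : Dat k Ω) {a : k} (ha : a ≠ 0) : D.U (algebraMap k Ω a) := by
  refine ⟨?_, D.R.algebraMap_mem a, ?_⟩
  · rw [Ne, map_eq_zero]; exact ha
  · rw [← map_inv₀]; exact D.R.algebraMap_mem _

theorem Dat.U.one (D : Dat k Ω) : D.U (1 : Ω) :=
  ⟨one_ne_zero, D.R.one_mem, by rw [inv_one]; exact D.R.one_mem⟩

theorem Dat.U.pow {D : Dat k Ω} {a : Ω} (ha : D.U a) (n : ℕ) : D.U (a ^ n) := by
  refine ⟨pow_ne_zero _ ha.1, D.R.pow_mem ha.2.1 n, ?_⟩
  rw [← inv_pow]
  exact D.R.pow_mem ha.2.2 n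

theorem Dat.U.zpow {D : Dat k Ω} {a : Ω} (ha : D.U a) (n : ℤ) : D.U (a ^ n) := by
  cases n with
  | ofNat n => rw [Int.ofNat_eq_natCast, zpow_natCast]; exact ha.pow n
  | negSucc n => rw [zpow_negSucc]; exact (ha.pow (n + 1)).inv

theorem Dat.U.div {D : Dat k Ω} {a b : Ω} (ha : D.U a) (hb : D.U b) : D.U (a / b) := by
  rw [div_eq_mul_inv]
  exact ha.mul hb.inv

theorem Dat.U.prod {D : Dat k Ω} {ι : Type*} (s : Finset ι) {a : ι → Ω} (ha : ∀ i ∈ s, D.U (a i)) :
    D.U (∏ i ∈ s, a i) := by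
  classical
  induction s using Finset.induction_on with
  | empty => rw [Finset.prod_empty]; exact Dat.U.one D
  | insert i s hi ih =>
    rw [Finset.prod_insert hi]
    exact (ha i (Finset.mem_insert_self i s)).mul
      (ih fun j hj => ha j (Finset.mem_insert_of_mem hj))

theorem mem_span (D : Dat k Ω) (T : Set Ω) (hT : ∀ t ∈ T, D.U t) (u : Ω) (hu : D.U u)
    (h : u ∈ Submodule.span k T) : ∃ t ∈ T, ∃ a : k, u = algebraMap k Ω a * t := by
  classical
  by_contra hcon
  push Not at hcon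
  -- a minimal representation
  have hex : ∃ N : ℕ, ∃ (s : Finset Ω) (c : Ω → k), (s : Set Ω) ⊆ T ∧ s.card = N ∧
      u = ∑ t ∈ s, algebraMap k Ω (c t) * t := by
    rw [Submodule.mem_span_iff_exists_finset_subset] at h
    obtain ⟨f, s, hs, -, hf⟩ := h
    refine ⟨s.card, s, f, hs, rfl, ?_⟩
    rw [← hf]
    exact Finset.sum_congr rfl fun t _ => Algebra.smul_def _ _
  obtain ⟨s, c, hs, hcard, hsum⟩ := Nat.find_spec hex
  have hmin : ∀ (s' : Finset Ω) (c' : Ω → k), (s' : Set Ω) ⊆ T → 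
      u = ∑ t ∈ s', algebraMap k Ω (c' t) * t → s.card ≤ s'.card := by
    intro s' c' h1 h2
    rw [hcard]
    exact Nat.find_min' hex ⟨s', c', h1, rfl, h2⟩
  have hprop : ∀ t ∈ s, ∀ t' ∈ s, t ≠ t' → ∀ a : k, t ≠ algebraMap k Ω a * t' := by
    intro t ht t' ht' hne a hta
    have h1 := hmin (s.erase t) (fun w => if w = t' then c t' + c t * a else c w)
      (fun w hw => hs (Finset.mem_of_mem_erase hw)) (by
        rw [hsum, ← Finset.add_sum_erase s _ ht]
        have ht'' : t' ∈ s.erase t := Finset.mem_erase.2 ⟨hne.symm, ht'⟩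
        rw [← Finset.add_sum_erase _ _ ht'', ← Finset.add_sum_erase _ _ ht'', if_pos rfl]
        have h2 : ∑ w ∈ (s.erase t).erase t', algebraMap k Ω (if w = t' then c t' + c t * a else c w) * w =
            ∑ w ∈ (s.erase t).erase t', algebraMap k Ω (c w) * w := by
          refine Finset.sum_congr rfl fun w hw => ?_
          rw [if_neg (Finset.ne_of_mem_erase hw)]
        rw [h2, map_add, map_mul]
        nth_rewrite 2 [hta]
        ring)
    have h3 := Finset.card_erase_lt_of_mem ht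
    omega
  -- the family: `u` and the elements of `s`
  let e := s.equivFin
  let y : Fin (s.card + 1) → Ω := Fin.cons u fun i => (e.symm i : Ω)
  have hyU : ∀ i, D.U (y i) := by
    intro i
    refine Fin.cases ?_ (fun j => ?_) i
    · exact hu
    · exact hT _ (hs (e.symm j).2)
  have hli := D.indep (s.card + 1) y hyU (by
    intro i j hij a
    revert hij
    refine Fin.cases ?_ (fun i' => ?_) i <;> refine Fin.cases ?_ (fun j' => ?_) j
    · intro h; exact absurd rfl h
    · intro _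
      exact hcon _ (hs (e.symm j').2) a
    · intro _ h1
      -- `t = a u`
      have ha : a ≠ 0 := by
        rintro rfl
        rw [map_zero, zero_mul] at h1
        exact (hyU i'.succ).1 h1
      refine hcon (y i'.succ) (hs (e.symm i').2) a⁻¹ ?_
      rw [h1, ← mul_assoc, ← map_mul, inv_mul_cancel₀ ha, map_one, one_mul]
      rfl
    · intro h1
      refine hprop _ (e.symm i').2 _ (e.symm j').2 ?_ a
      intro h2
      exact h1 (congrArg Fin.succ (e.symm.injective (Subtype.ext h2))))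
  rw [Fintype.linearIndependent_iff] at hli
  have h1 := hli (Fin.cons (-1) fun i => c (e.symm i)) (by
    rw [Fin.sum_univ_succ]
    simp only [Fin.cons_zero, Fin.cons_succ, y]
    have h2 : ∑ i : Fin s.card, c (e.symm i) • (e.symm i : Ω) = u := by
      rw [hsum, ← Finset.sum_coe_sort s, ← Equiv.sum_comp e.symm]
      exact Finset.sum_congr rfl fun i _ => Algebra.smul_def _ _
    rw [h2, neg_smul, one_smul, neg_add_cancel]) 0
  rw [Fin.cons_zero] at h1
  exact one_ne_zero (neg_eq_zero.1 h1)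

theorem poly (D : Dat k Ω) {σ : Type*} [Fintype σ] (t : σ → Ω) (ht : ∀ i, D.U (t i))
    (p : MvPolynomial σ k) (hp : MvPolynomial.aeval t p = 0) (μ : σ →₀ ℕ) (hμ : p.coeff μ ≠ 0) :
    ∃ ν, ν ≠ μ ∧ p.coeff ν ≠ 0 ∧ ∃ a : k, ∏ i, t i ^ μ i = algebraMap k Ω a * ∏ i, t i ^ ν i := by
  classical
  let T : Set Ω := {z | ∃ ν, ν ≠ μ ∧ p.coeff ν ≠ 0 ∧ z = ∏ i, t i ^ ν i}
  have hU : ∀ ν : σ →₀ ℕ, D.U (∏ i, t i ^ ν i) := fun ν => Dat.U.prod _ fun i _ => (ht i).pow _
  have hmem : ∏ i, t i ^ μ i ∈ Submodule.span k T := by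
    have h1 : MvPolynomial.aeval t p = ∑ ν ∈ p.support, algebraMap k Ω (p.coeff ν) * ∏ i, t i ^ ν i := by
      rw [MvPolynomial.aeval_def, MvPolynomial.eval₂_eq']
    rw [hp, ← Finset.add_sum_erase _ _ (MvPolynomial.mem_support_iff.2 hμ)] at h1
    have h2 : ∏ i, t i ^ μ i = ∑ ν ∈ p.support.erase μ, (-(p.coeff μ)⁻¹ * p.coeff ν) • ∏ i, t i ^ ν i := by
      have h3 : algebraMap k Ω (p.coeff μ) ≠ 0 := by rw [Ne, map_eq_zero]; exact hμ
      have h4 : ∑ ν ∈ p.support.erase μ, (-(p.coeff μ)⁻¹ * p.coeff ν) • ∏ i, t i ^ ν i =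
          -(algebraMap k Ω (p.coeff μ))⁻¹ *
            ∑ ν ∈ p.support.erase μ, algebraMap k Ω (p.coeff ν) * ∏ i, t i ^ ν i := by
        rw [Finset.mul_sum]
        refine Finset.sum_congr rfl fun ν _ => ?_
        rw [Algebra.smul_def, map_mul, map_neg, map_inv₀, mul_assoc]
      rw [h4]
      have h5 : ∑ ν ∈ p.support.erase μ, algebraMap k Ω (p.coeff ν) * ∏ i, t i ^ ν i =
          -(algebraMap k Ω (p.coeff μ) * ∏ i, t i ^ μ i) := by linear_combination -h1
      rw [h5]
      field_simp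
    rw [h2]
    refine Submodule.sum_mem _ fun ν hν => Submodule.smul_mem _ _ (Submodule.subset_span ?_)
    exact ⟨ν, Finset.ne_of_mem_erase hν, MvPolynomial.mem_support_iff.1 (Finset.mem_of_mem_erase hν), rfl⟩
  obtain ⟨z, ⟨ν, h1, h2, rfl⟩, a, ha⟩ := mem_span D T (by
    rintro _ ⟨ν, -, -, rfl⟩
    exact hU ν) _ (hU μ) hmem
  exact ⟨ν, h1, h2, a, ha⟩

end Pool.Agent.SL
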