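import Pool.Agent.Helper16.SL.Quad
import Pool.Agent.Helper16.SL.Span
import Pool.Agent.Helper16.SL.K0

/-!
# SixLines, block B7: the six lines are tangent to a conic

`hdep`: the three points `P_A = cr (ℓ 0) (ℓ 1)`, `P_B = cr (ℓ 2) (ℓ 3)`, `P_C = cr (ℓ 4) (ℓ 5)` are not collinear.

PROOF. `F = pr x x'`, `u_i = qf F (ℓ i)`. (K0) a quadratic form `h` over a field with `qf h (ℓ i) = 0` for 5 of the `i` and `bf h (ℓ i) (ℓ j) = 0` for two of them is `0`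
(coordinates in the basis `a = ℓ i, b = ℓ j, c`: `h_ab = 0`, `d2 h_bc + d1 h_ac = 0`, `e2 h_bc + e1 h_ac = 0`, `d2 e1 - d1 e2 = ± Δ br c d e ≠ 0`). So `bf g (ℓ i) (ℓ j) ≠ 0` for `i ≠ j`.
(K1) there is `λ : Fin 6 → k` with `∑ λ_i qf h (ℓ i) = 0` for all `h` and all `λ_i ≠ 0`: the matrix of the monomials of the `ℓ i` is singular (`hg`), take `λ ≠ 0` in the left
kernel; if `λ_i = 0` and `λ_j ≠ 0`, apply it to `h = pr (cr a b) (cr c d)`, `a, b, c, d` the other four `ℓ`, which vanishes at them and not at `ℓ j`.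
(K2) `τ_A = u_0 / (br ℓ2 ℓ3 ℓ0 * br ℓ4 ℓ5 ℓ0)` etc., `F' = F - τ_A pr P_B P_C - τ_B pr P_A P_C - τ_C pr P_A P_B` vanishes at `ℓ 0, ℓ 2, ℓ 4`, its value at `ℓ 1` is `c'_1 u_0`, `c'_1 ∈ k` etc.
By K1 `λ_1 c'_1 u_0 + λ_3 c'_3 u_2 + λ_5 c'_5 u_4 = 0`, so by `D.indep` (`u_0, u_2, u_4` are pairwise not proportional by `hI`) `c'_1 = c'_3 = c'_5 = 0`. By K0 `F' = z g` with `z = bf F' (ℓ 0) (ℓ 1) / bf g (ℓ 0) (ℓ 1)`, and
`z ∈ D.R` by `hR`.
(K3) `dt F = 0` (`dt_pr`) reads `δ² τ_A τ_B τ_C - z (q_A τ_A² + q_B τ_B² + q_C τ_C² + m1 τ_A τ_B + m2 τ_B τ_C + m3 τ_A τ_C) + z² (l1 τ_A + l2 τ_B + l3 τ_C) + z³ dt g = 0` with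
`δ = br P_A P_B P_C ≠ 0`, `q_A = qf g (cr P_B P_C)`, `q_B = qf g (cr P_A P_C)`, and `m_i, l_i ∈ k`. `cr P_B P_C = br(ℓ2 ℓ3 ℓ5) ℓ4 - br(ℓ2 ℓ3 ℓ4) ℓ5`, so `q_A = - br br bf g (ℓ 4) (ℓ 5) ≠ 0`; `q_B` the same.
So `z ≠ 0` and `z` is a unit of `D.R` (`z w = - δ² τ_A τ_B τ_C`, `w ∈ D.R`).
(K4) `mem_span`: `z τ_A²` is proportional to one of the other 10 monomials, so (`hI`: not to `z τ_i τ_j`) `z = c τ_A^{a1} τ_B^{a2} τ_C^{a3}` with `c ∈ k` and `(a1,a2,a3)` in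
`(1,0,0), (2,-1,0), (2,0,-1), (-1,1,1)`; the same for `z τ_B²`: `(0,1,0), (-1,2,0), (0,2,-1), (1,-1,1)`. All differences contradict `hI`.
-/

set_option autoImplicit false
set_option linter.unusedSimpArgs false

namespace Pool.Agent.SL

universe u v

namespace Cn

section ring

variable {F : Type*} [CommRing F]

/-- monomials -/
def mon (m : Fin 3 → F) : Fin 6 → F := ![m 0 ^ 2, m 1 ^ 2, m 2 ^ 2, m 1 * m 2, m 0 * m 2, m 0 * m 1]

theorem qf_mon (g : Fin 6 → F) (m : Fin 3 → F) : qf g m = ∑ r, g r * mon m r := by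
  simp only [qf, mon, Fin.sum_univ_six, Matrix.cons_val]

theorem qf_pr_cr (a b c d m : Fin 3 → F) : qf (pr (cr a b) (cr c d)) m = br a b m * br c d m := by
  rw [qf_pr]
  simp only [cr, br, Matrix.cons_val]
  ring

theorem br_self13 (a b : Fin 3 → F) : br a b a = 0 := by
  simp only [br]; ring

theorem br_self23 (a b : Fin 3 → F) : br a b b = 0 := by
  simp only [br]; ring

theorem cr_cr (a b c d : Fin 3 → F) : cr (cr a b) (cr c d) = fun i => br a b d * c i + (-br a b c) * d i + 0 * 0 := by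
  funext i
  fin_cases i <;> simp [cr, br] <;> ring

/-- the coefficient of `r² s` in `dt (r a + s b)` -/
def d1 (a b : Fin 6 → F) : F :=
  4 * (a 0 * a 1 * b 2 + a 0 * b 1 * a 2 + b 0 * a 1 * a 2) + (a 3 * a 4 * b 5 + a 3 * b 4 * a 5 + b 3 * a 4 * a 5) -
    (2 * a 0 * a 3 * b 3 + b 0 * a 3 ^ 2) - (2 * a 1 * a 4 * b 4 + b 1 * a 4 ^ 2) - (2 * a 2 * a 5 * b 5 + b 2 * a 5 ^ 2)

/-- the coefficient of `r s t` in `dt (r a + s b + t c)` -/
def d3 (a b c : Fin 6 → F) : F :=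
  4 * (a 0 * b 1 * c 2 + a 0 * c 1 * b 2 + b 0 * a 1 * c 2 + b 0 * c 1 * a 2 + c 0 * a 1 * b 2 + c 0 * b 1 * a 2) +
    (a 3 * b 4 * c 5 + a 3 * c 4 * b 5 + b 3 * a 4 * c 5 + b 3 * c 4 * a 5 + c 3 * a 4 * b 5 + c 3 * b 4 * a 5) -
    2 * (a 0 * b 3 * c 3 + b 0 * a 3 * c 3 + c 0 * a 3 * b 3) - 2 * (a 1 * b 4 * c 4 + b 1 * a 4 * c 4 + c 1 * a 4 * b 4) -
    2 * (a 2 * b 5 * c 5 + b 2 * a 5 * c 5 + c 2 * a 5 * b 5)

theorem dt_comb (a b c d : Fin 6 → F) (r s t w : F) :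
    dt (fun i => r * a i + s * b i + t * c i + w * d i) =
      r ^ 3 * dt a + s ^ 3 * dt b + t ^ 3 * dt c + w ^ 3 * dt d +
      (r ^ 2 * s * d1 a b + r ^ 2 * t * d1 a c + r ^ 2 * w * d1 a d) +
      (s ^ 2 * r * d1 b a + s ^ 2 * t * d1 b c + s ^ 2 * w * d1 b d) +
      (t ^ 2 * r * d1 c a + t ^ 2 * s * d1 c b + t ^ 2 * w * d1 c d) +
      (w ^ 2 * r * d1 d a + w ^ 2 * s * d1 d b + w ^ 2 * t * d1 d c) +
      (r * s * t * d3 a b c + r * s * w * d3 a b d + r * t * w * d3 a c d + s * t * w * d3 b c d) := by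
  simp only [dt, d1, d3]
  ring

theorem d1_pr1 (A B C : Fin 3 → F) : d1 (pr B C) (pr A C) = 0 := by
  simp only [d1, pr, Matrix.cons_val]
  ring

theorem d1_pr2 (A B C : Fin 3 → F) : d1 (pr B C) (pr A B) = 0 := by
  simp only [d1, pr, Matrix.cons_val]
  ring

theorem d1_pr3 (A B C : Fin 3 → F) : d1 (pr A C) (pr B C) = 0 := by
  simp only [d1, pr, Matrix.cons_val]
  ring

theorem d1_pr4 (A B C : Fin 3 → F) : d1 (pr A C) (pr A B) = 0 := by
  simp only [d1, pr, Matrix.cons_val]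
  ring

theorem d1_pr5 (A B C : Fin 3 → F) : d1 (pr A B) (pr B C) = 0 := by
  simp only [d1, pr, Matrix.cons_val]
  ring

theorem d1_pr6 (A B C : Fin 3 → F) : d1 (pr A B) (pr A C) = 0 := by
  simp only [d1, pr, Matrix.cons_val]
  ring

theorem d1_prg (A B : Fin 3 → F) (g : Fin 6 → F) : d1 (pr A B) g = -qf g (cr A B) := by
  simp only [d1, pr, qf, cr, Matrix.cons_val]
  ring

theorem d3_pr (A B C : Fin 3 → F) : d3 (pr B C) (pr A C) (pr A B) = br A B C ^ 2 := by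
  simp only [d3, pr, br, Matrix.cons_val]
  ring

/-- (K3) -/
theorem dt_exp (A B C : Fin 3 → F) (g : Fin 6 → F) (r s t w : F) :
    dt (fun i => r * pr B C i + s * pr A C i + t * pr A B i + w * g i) =
      br A B C ^ 2 * (r * s * t) + (-qf g (cr B C)) * (w * r ^ 2) + (-qf g (cr A C)) * (w * s ^ 2) +
      (-qf g (cr A B)) * (w * t ^ 2) + d3 (pr B C) (pr A C) g * (w * r * s) + d3 (pr A C) (pr A B) g * (w * s * t) +
      d3 (pr B C) (pr A B) g * (w * r * t) + d1 g (pr B C) * (w ^ 2 * r) + d1 g (pr A C) * (w ^ 2 * s) +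
      d1 g (pr A B) * (w ^ 2 * t) + dt g * w ^ 3 := by
  rw [dt_comb, dt_pr, dt_pr, dt_pr, d1_pr1, d1_pr2, d1_pr3, d1_pr4, d1_pr5, d1_pr6, d1_prg, d1_prg, d1_prg, d3_pr]
  ring

end ring

section pos

variable {k : Type u} [Field k]

theorem br_ne {q : ℕ} {ℓ : Fin q → Fin 3 → k} (hℓ : GenPos ℓ) {i j l : Fin q} (hij : i ≠ j) (hil : i ≠ l)
    (hjl : j ≠ l) : br (ℓ i) (ℓ j) (ℓ l) ≠ 0 := by
  have h := hℓ ![i, j, l] (by
    intro a b hab
    fin_cases a <;> fin_cases b <;> simp_all)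
  rw [Matrix.det_fin_three] at h
  simp only [Matrix.of_apply, Matrix.cons_val] at h
  intro h0
  apply h
  rw [← h0]
  simp only [br]
  ring

theorem exists_perm {i j : Fin 6} (h : i ≠ j) : ∃ π : Equiv.Perm (Fin 6), π 0 = i ∧ π 1 = j := by
  have h1 : Equiv.swap 0 i j ≠ 0 := by
    intro h0
    apply h
    have := congrArg (Equiv.swap (0 : Fin 6) i) h0
    rw [Equiv.swap_apply_self, Equiv.swap_apply_left] at this
    exact this.symm
  refine ⟨(Equiv.swap 1 (Equiv.swap 0 i j)).trans (Equiv.swap 0 i), ?_, ?_⟩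
  · rw [Equiv.trans_apply, Equiv.swap_apply_of_ne_of_ne (by decide) h1.symm, Equiv.swap_apply_left]
  · rw [Equiv.trans_apply, Equiv.swap_apply_left, Equiv.swap_apply_self]

/-- (K1) -/
theorem rel {ℓ : Fin 6 → Fin 3 → k} (hℓ : GenPos ℓ) {g : Fin 6 → k} (hg0 : g ≠ 0) (hg : ∀ i, qf g (ℓ i) = 0) :
    ∃ lam : Fin 6 → k, (∀ i, lam i ≠ 0) ∧ ∀ r, ∑ i, lam i * mon (ℓ i) r = 0 := by
  set E : Matrix (Fin 6) (Fin 6) k := Matrix.of fun i r => mon (ℓ i) r with hE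
  have h1 : E.det = 0 := by
    rw [← Matrix.exists_mulVec_eq_zero_iff]
    refine ⟨g, hg0, ?_⟩
    funext i
    have := hg i
    rw [qf_mon] at this
    rw [Pi.zero_apply, ← this]
    show ∑ r, mon (ℓ i) r * g r = ∑ r, g r * mon (ℓ i) r
    exact Finset.sum_congr rfl fun r _ => mul_comm _ _
  rw [← Matrix.exists_vecMul_eq_zero_iff] at h1
  obtain ⟨lam, hlam0, hlam⟩ := h1
  have hrel : ∀ r, ∑ i, lam i * mon (ℓ i) r = 0 := fun r => congrFun hlam r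
  refine ⟨lam, fun i hi => ?_, hrel⟩
  obtain ⟨j, hj⟩ := Function.ne_iff.mp hlam0
  have hij : i ≠ j := by
    rintro rfl
    exact hj hi
  obtain ⟨π, h0, h1⟩ := exists_perm hij
  set h := pr (cr (ℓ (π 2)) (ℓ (π 3))) (cr (ℓ (π 4)) (ℓ (π 5))) with hh
  have hs : ∑ s, lam (π s) * qf h (ℓ (π s)) = 0 := by
    rw [Equiv.sum_comp π (fun s => lam s * qf h (ℓ s))]
    simp only [qf_mon, Finset.mul_sum]
    rw [Finset.sum_comm]
    refine Finset.sum_eq_zero fun r _ => ?_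
    have := hrel r
    calc ∑ s, lam s * (h r * mon (ℓ s) r) = h r * ∑ s, lam s * mon (ℓ s) r := by
          rw [Finset.mul_sum]
          exact Finset.sum_congr rfl fun s _ => by ring
      _ = 0 := by rw [this, mul_zero]
  rw [Fin.sum_univ_six, h0, h1, hi] at hs
  simp only [hh, qf_pr_cr, br_self13, br_self23] at hs
  have hinj : ∀ a b : Fin 6, a ≠ b → π a ≠ π b := fun a b hab h => hab (π.injective h)
  have n1 : br (ℓ (π 2)) (ℓ (π 3)) (ℓ j) ≠ 0 := by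
    rw [← h1]
    exact br_ne hℓ (hinj _ _ (by decide)) (hinj _ _ (by decide)) (hinj _ _ (by decide))
  have n2 : br (ℓ (π 4)) (ℓ (π 5)) (ℓ j) ≠ 0 := by
    rw [← h1]
    exact br_ne hℓ (hinj _ _ (by decide)) (hinj _ _ (by decide)) (hinj _ _ (by decide))
  have n3 : lam j ≠ 0 := hj
  apply mul_ne_zero n3 (mul_ne_zero n1 n2)
  linear_combination hs

end pos

section span

variable {k : Type u} {Ω : Type v} [Field k] [Field Ω] [Algebra k Ω]

/-- in a vanishing sum of units every term is proportional to another term -/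
theorem prop_of_sum (D : Dat k Ω) {n : ℕ} (M : Fin n → Ω) (hM : ∀ i, D.U (M i)) (κ : Fin n → k)
    (h : ∑ i, algebraMap k Ω (κ i) * M i = 0) (i : Fin n) (hi : κ i ≠ 0) :
    ∃ j, j ≠ i ∧ ∃ a : k, M i = algebraMap k Ω a * M j := by
  classical
  have h1 : M i ∈ Submodule.span k {z | ∃ j, j ≠ i ∧ z = M j} := by
    have h2 : M i = ∑ j ∈ Finset.univ.erase i, (-(κ i)⁻¹ * κ j) • M j := by
      rw [← Finset.add_sum_erase _ _ (Finset.mem_univ i)] at h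
      have h3 : algebraMap k Ω (κ i) ≠ 0 := by rw [Ne, map_eq_zero]; exact hi
      have h4 : ∑ j ∈ Finset.univ.erase i, (-(κ i)⁻¹ * κ j) • M j =
          -(algebraMap k Ω (κ i))⁻¹ * ∑ j ∈ Finset.univ.erase i, algebraMap k Ω (κ j) * M j := by
        rw [Finset.mul_sum]
        refine Finset.sum_congr rfl fun j _ => ?_
        rw [Algebra.smul_def, map_mul, map_neg, map_inv₀, mul_assoc]
      rw [h4]
      have h5 : ∑ j ∈ Finset.univ.erase i, algebraMap k Ω (κ j) * M j = -(algebraMap k Ω (κ i) * M i) := by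
        linear_combination h
      rw [h5]
      field_simp
    rw [h2]
    exact Submodule.sum_mem _ fun j hj => Submodule.smul_mem _ _ (Submodule.subset_span ⟨j, Finset.ne_of_mem_erase hj, rfl⟩)
  obtain ⟨z, ⟨j, hj, rfl⟩, a, ha⟩ := mem_span D _ (by
    rintro _ ⟨j, -, rfl⟩
    exact hM j) _ (hM i) h1
  exact ⟨j, hj, a, ha⟩

end span

section ext

variable {k : Type u} {Ω : Type v} [Field k] [Field Ω] [Algebra k Ω]

/-- extension of scalars for vectors -/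
def ec {n : ℕ} (Ω : Type v) [Field Ω] [Algebra k Ω] (a : Fin n → k) : Fin n → Ω := fun i => algebraMap k Ω (a i)

theorem ec_qf (g : Fin 6 → k) (m : Fin 3 → k) : qf (ec Ω g) (ec Ω m) = algebraMap k Ω (qf g m) := by
  simp only [qf, ec, map_add, map_mul, map_pow]

theorem ec_bf (g : Fin 6 → k) (m m' : Fin 3 → k) : bf (ec Ω g) (ec Ω m) (ec Ω m') = algebraMap k Ω (bf g m m') := by
  simp only [bf, ec, map_add, map_mul, map_ofNat]

theorem ec_dt (g : Fin 6 → k) : dt (ec Ω g) = algebraMap k Ω (dt g) := by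
  simp only [dt, ec, map_add, map_mul, map_sub, map_pow, map_ofNat]

theorem ec_br (a b c : Fin 3 → k) : br (ec Ω a) (ec Ω b) (ec Ω c) = algebraMap k Ω (br a b c) := by
  simp only [br, ec, map_add, map_mul, map_sub]

theorem ec_cr (a b : Fin 3 → k) : cr (ec Ω a) (ec Ω b) = ec Ω (cr a b) := by
  funext i
  fin_cases i <;> simp [cr, ec]

theorem ec_pr (a b : Fin 3 → k) : pr (ec Ω a) (ec Ω b) = ec Ω (pr a b) := by
  funext i
  fin_cases i <;> simp [pr, ec]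

theorem ec_mon (m : Fin 3 → k) : mon (ec Ω m) = ec Ω (mon m) := by
  funext i
  fin_cases i <;> simp [mon, ec]

theorem ec_d1 (a b : Fin 6 → k) : d1 (ec Ω a) (ec Ω b) = algebraMap k Ω (d1 a b) := by
  simp only [d1, ec, map_add, map_mul, map_sub, map_pow, map_ofNat]

theorem ec_d3 (a b c : Fin 6 → k) : d3 (ec Ω a) (ec Ω b) (ec Ω c) = algebraMap k Ω (d3 a b c) := by
  simp only [d3, ec, map_add, map_mul, map_sub, map_ofNat]

theorem qf_F (x x' : Fin 3 → Ω) (l : Fin 3 → k) : qf (pr x x') (ec Ω l) = lin l x * lin l x' := by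
  rw [qf_pr]
  simp only [lin, ec, Fin.sum_univ_three]
  ring

/-- the exponents of the eleven monomials in `τ_A, τ_B, τ_C, z` -/
def E : Fin 11 → Fin 4 → ℤ :=
  ![![1, 1, 1, 0], ![2, 0, 0, 1], ![0, 2, 0, 1], ![0, 0, 2, 1], ![1, 1, 0, 1], ![0, 1, 1, 1], ![1, 0, 1, 1],
    ![1, 0, 0, 2], ![0, 1, 0, 2], ![0, 0, 1, 2], ![0, 0, 0, 3]]

theorem E_sum : ∀ i : Fin 11, E i 0 + E i 1 + E i 2 + E i 3 = 3 := by decide

theorem E_main : ∀ i j : Fin 11, i ≠ 1 → j ≠ 2 →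
    (E 1 3 - E i 3 = 0 → E 1 0 - E i 0 = 0 ∧ E 1 1 - E i 1 = 0) →
    (E 2 3 - E j 3 = 0 → E 2 0 - E j 0 = 0 ∧ E 2 1 - E j 1 = 0) →
    (E 2 3 - E j 3) * (E 1 0 - E i 0) - (E 1 3 - E i 3) * (E 2 0 - E j 0) = 0 →
    (E 2 3 - E j 3) * (E 1 1 - E i 1) - (E 1 3 - E i 3) * (E 2 1 - E j 1) = 0 → False := by decide

/-- monomials with integral exponents -/
noncomputable def mo (t : Fin 4 → Ω) (v : Fin 4 → ℤ) : Ω := t 0 ^ v 0 * t 1 ^ v 1 * t 2 ^ v 2 * t 3 ^ v 3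

theorem mo_comb {t : Fin 4 → Ω} (ht : ∀ i, t i ≠ 0) (v w : Fin 4 → ℤ) (m n : ℤ) :
    mo t (fun i => m * v i + n * w i) = mo t v ^ m * mo t w ^ n := by
  unfold mo
  simp only [zpow_add₀ (ht _), mul_zpow, zpow_mul, mul_comm m, mul_comm n]
  ring

theorem cst_mul {y y' : Ω} (h : Cst k y) (h' : Cst k y') : Cst k (y * y') := by
  obtain ⟨a, rfl⟩ := h
  obtain ⟨b, rfl⟩ := h'
  exact ⟨a * b, (map_mul _ _ _).symm⟩

theorem cst_zpow {y : Ω} (h : Cst k y) (n : ℤ) : Cst k (y ^ n) := by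
  obtain ⟨a, rfl⟩ := h
  exact ⟨a ^ n, (map_zpow₀ _ _ _).symm⟩

theorem mo_sub {t : Fin 4 → Ω} (ht : ∀ i, t i ≠ 0) {v w : Fin 4 → ℤ} (h : ∃ a : k, mo t v = algebraMap k Ω a * mo t w) :
    Cst k (mo t fun i => v i - w i) := by
  obtain ⟨a, ha⟩ := h
  have h1 := mo_comb ht v w 1 (-1)
  have h2 : (fun i => (1 : ℤ) * v i + -1 * w i) = fun i => v i - w i := by
    funext i; ring
  rw [h2, zpow_one, zpow_neg_one, ha] at h1
  have h3 : mo t w ≠ 0 := by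
    unfold mo
    exact mul_ne_zero (mul_ne_zero (mul_ne_zero (zpow_ne_zero _ (ht _)) (zpow_ne_zero _ (ht _)))
      (zpow_ne_zero _ (ht _))) (zpow_ne_zero _ (ht _))
  exact ⟨a, by rw [h1]; field_simp⟩

theorem mo_E (a b c z : Ω) (i : Fin 11) : mo ![a, b, c, z] (E i) =
    (![a * b * c, z * a ^ 2, z * b ^ 2, z * c ^ 2, z * a * b, z * b * c, z * a * c, z ^ 2 * a, z ^ 2 * b, z ^ 2 * c,
      z ^ 3] : Fin 11 → Ω) i := by
  have h2 : ∀ y : Ω, y ^ (2 : ℤ) = y ^ 2 := fun y => zpow_ofNat y 2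
  have h3 : ∀ y : Ω, y ^ (3 : ℤ) = y ^ 3 := fun y => zpow_ofNat y 3
  fin_cases i
  · show a ^ (1 : ℤ) * b ^ (1 : ℤ) * c ^ (1 : ℤ) * z ^ (0 : ℤ) = a * b * c
    simp only [zpow_zero, zpow_one, h2, h3, mul_one, one_mul]
  · show a ^ (2 : ℤ) * b ^ (0 : ℤ) * c ^ (0 : ℤ) * z ^ (1 : ℤ) = z * a ^ 2
    simp only [zpow_zero, zpow_one, h2, h3, mul_one, one_mul]; ring
  · show a ^ (0 : ℤ) * b ^ (2 : ℤ) * c ^ (0 : ℤ) * z ^ (1 : ℤ) = z * b ^ 2
    simp only [zpow_zero, zpow_one, h2, h3, mul_one, one_mul]; ring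
  · show a ^ (0 : ℤ) * b ^ (0 : ℤ) * c ^ (2 : ℤ) * z ^ (1 : ℤ) = z * c ^ 2
    simp only [zpow_zero, zpow_one, h2, h3, mul_one, one_mul]; ring
  · show a ^ (1 : ℤ) * b ^ (1 : ℤ) * c ^ (0 : ℤ) * z ^ (1 : ℤ) = z * a * b
    simp only [zpow_zero, zpow_one, h2, h3, mul_one, one_mul]; ring
  · show a ^ (0 : ℤ) * b ^ (1 : ℤ) * c ^ (1 : ℤ) * z ^ (1 : ℤ) = z * b * c
    simp only [zpow_zero, zpow_one, h2, h3, mul_one, one_mul]; ring
  · show a ^ (1 : ℤ) * b ^ (0 : ℤ) * c ^ (1 : ℤ) * z ^ (1 : ℤ) = z * a * c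
    simp only [zpow_zero, zpow_one, h2, h3, mul_one, one_mul]; ring
  · show a ^ (1 : ℤ) * b ^ (0 : ℤ) * c ^ (0 : ℤ) * z ^ (2 : ℤ) = z ^ 2 * a
    simp only [zpow_zero, zpow_one, h2, h3, mul_one, one_mul]; ring
  · show a ^ (0 : ℤ) * b ^ (1 : ℤ) * c ^ (0 : ℤ) * z ^ (2 : ℤ) = z ^ 2 * b
    simp only [zpow_zero, zpow_one, h2, h3, mul_one, one_mul]; ring
  · show a ^ (0 : ℤ) * b ^ (0 : ℤ) * c ^ (1 : ℤ) * z ^ (2 : ℤ) = z ^ 2 * c
    simp only [zpow_zero, zpow_one, h2, h3, mul_one, one_mul]; ring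
  · show a ^ (0 : ℤ) * b ^ (0 : ℤ) * c ^ (0 : ℤ) * z ^ (3 : ℤ) = z ^ 3
    simp only [zpow_zero, zpow_one, h2, h3, mul_one, one_mul]

theorem M_succ (a b c z : Ω) (i : Fin 10) :
    (![a * b * c, z * a ^ 2, z * b ^ 2, z * c ^ 2, z * a * b, z * b * c, z * a * c, z ^ 2 * a, z ^ 2 * b, z ^ 2 * c,
      z ^ 3] : Fin 11 → Ω) i.succ =
    z * (![a ^ 2, b ^ 2, c ^ 2, a * b, b * c, a * c, z * a, z * b, z * c, z ^ 2] : Fin 10 → Ω) i := by
  fin_cases i
  · rfl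
  · rfl
  · rfl
  · exact mul_assoc _ _ _
  · exact mul_assoc _ _ _
  · exact mul_assoc _ _ _
  · show z ^ 2 * a = z * (z * a); ring
  · show z ^ 2 * b = z * (z * b); ring
  · show z ^ 2 * c = z * (z * c); ring
  · show z ^ 3 = z * z ^ 2; ring

theorem mo_U {D : Dat k Ω} {t : Fin 4 → Ω} (ht : ∀ i, D.U (t i)) (v : Fin 4 → ℤ) : D.U (mo t v) :=
  ((((ht 0).zpow _).mul ((ht 1).zpow _)).mul ((ht 2).zpow _)).mul ((ht 3).zpow _)

/-- (K4) -/
theorem last (D : Dat k Ω) (t : Fin 4 → Ω) (ht : ∀ i, D.U (t i)) (κ : Fin 11 → k) (h1 : κ 1 ≠ 0) (h2 : κ 2 ≠ 0)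
    (hdet : ∑ i, algebraMap k Ω (κ i) * mo t (E i) = 0)
    (hI : ∀ m n : ℤ, Cst k ((t 0 / t 2) ^ m * (t 1 / t 2) ^ n) → m = 0 ∧ n = 0) : False := by
  have ht0 : ∀ i, t i ≠ 0 := fun i => (ht i).1
  obtain ⟨i, hi, ha⟩ := prop_of_sum D (fun i => mo t (E i)) (fun i => mo_U ht _) κ hdet 1 h1
  obtain ⟨j, hj, hb⟩ := prop_of_sum D (fun i => mo t (E i)) (fun i => mo_U ht _) κ hdet 2 h2
  have c1 := mo_sub ht0 ha
  have c2 := mo_sub ht0 hb
  have hΛ : ∀ v : Fin 4 → ℤ, v 0 + v 1 + v 2 + v 3 = 0 → v 3 = 0 → Cst k (mo t v) → v 0 = 0 ∧ v 1 = 0 := by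
    intro v hs h3 hc
    apply hI
    have h4 : (t 0 / t 2) ^ v 0 * (t 1 / t 2) ^ v 1 = mo t v := by
      unfold mo
      have n2 := ht0 2
      rw [h3, zpow_zero, mul_one, show v 2 = - v 0 + - v 1 by linarith, div_zpow, div_zpow, zpow_add₀ n2, zpow_neg, zpow_neg]
      field_simp
    rw [h4]
    exact hc
  have s1 := E_sum 1
  have s2 := E_sum 2
  have si := E_sum i
  have sj := E_sum j
  have c3 := cst_mul (cst_zpow c1 (E 2 3 - E j 3)) (cst_zpow c2 (-(E 1 3 - E i 3)))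
  rw [← mo_comb ht0] at c3
  have h3 := hΛ _ (by linear_combination (E 2 3 - E j 3) * (s1 - si) - (E 1 3 - E i 3) * (s2 - sj)) (by ring) c3
  refine E_main i j hi hj (fun h => hΛ _ (by linear_combination s1 - si) h c1)
    (fun h => hΛ _ (by linear_combination s2 - sj) h c2) ?_ ?_
  · linear_combination h3.1
  · linear_combination h3.2

end ext

end Cn

open Cn

variable {k : Type u} {Ω : Type v} [Field k] [Field Ω] [Algebra k Ω]

theorem conic [CharZero k] (D : Dat k Ω) (ℓ : Fin 6 → Fin 3 → k) (hℓ : GenPos ℓ)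
    (g : Fin 6 → k) (hg0 : g ≠ 0) (hg : ∀ i, qf g (ℓ i) = 0)
    (hdep : br (cr (ℓ 0) (ℓ 1)) (cr (ℓ 2) (ℓ 3)) (cr (ℓ 4) (ℓ 5)) ≠ 0) (x x' : Fin 3 → Ω)
    (hR : ∀ i j, x i * x' j + x j * x' i ∈ D.R)
    (hu : ∀ i, D.U (lin (ℓ i) x * lin (ℓ i) x')) (c : Fin 6 → k) (hc0 : ∀ i, c i ≠ 0)
    (hc : ∀ i, lin (ℓ i) x * lin (ℓ i) x' = algebraMap k Ω (c i) *
        (lin (ℓ (![0, 0, 2, 2, 4, 4] i)) x * lin (ℓ (![0, 0, 2, 2, 4, 4] i)) x'))
    (hI : ∀ m n : ℤ, Cst k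
      (((lin (ℓ 0) x * lin (ℓ 0) x') / (lin (ℓ 4) x * lin (ℓ 4) x')) ^ m *
        ((lin (ℓ 2) x * lin (ℓ 2) x') / (lin (ℓ 4) x * lin (ℓ 4) x')) ^ n) → m = 0 ∧ n = 0) :
    False := by
  classical
  have hcz : CharZero Ω := charZero_of_injective_algebraMap (algebraMap k Ω).injective
  set u : Fin 6 → Ω := fun i => lin (ℓ i) x * lin (ℓ i) x' with hud
  have hu' : ∀ i, D.U (u i) := hu
  have hI' : ∀ m n : ℤ, Cst k ((u 0 / u 4) ^ m * (u 2 / u 4) ^ n) → m = 0 ∧ n = 0 := hI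
  have hu0 : ∀ i, u i ≠ 0 := fun i => (hu' i).1
  have hc1 : u 1 = algebraMap k Ω (c 1) * u 0 := hc 1
  have hc3 : u 3 = algebraMap k Ω (c 3) * u 2 := hc 3
  have hc5 : u 5 = algebraMap k Ω (c 5) * u 4 := hc 5
  -- brackets
  have nb : ∀ i j l : Fin 6, i ≠ j → i ≠ l → j ≠ l → br (ℓ i) (ℓ j) (ℓ l) ≠ 0 := fun i j l h1 h2 h3 => br_ne hℓ h1 h2 h3
  set A := cr (ℓ 0) (ℓ 1) with hA
  set B := cr (ℓ 2) (ℓ 3) with hB
  set C := cr (ℓ 4) (ℓ 5) with hC
  set αA : k := (br (ℓ 2) (ℓ 3) (ℓ 0) * br (ℓ 4) (ℓ 5) (ℓ 0))⁻¹ with hαA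
  set αB : k := (br (ℓ 0) (ℓ 1) (ℓ 2) * br (ℓ 4) (ℓ 5) (ℓ 2))⁻¹ with hαB
  set αC : k := (br (ℓ 0) (ℓ 1) (ℓ 4) * br (ℓ 2) (ℓ 3) (ℓ 4))⁻¹ with hαC
  have nA : αA ≠ 0 := inv_ne_zero (mul_ne_zero (nb 2 3 0 (by decide) (by decide) (by decide)) (nb 4 5 0 (by decide) (by decide) (by decide)))
  have nB : αB ≠ 0 := inv_ne_zero (mul_ne_zero (nb 0 1 2 (by decide) (by decide) (by decide)) (nb 4 5 2 (by decide) (by decide) (by decide)))
  have nC : αC ≠ 0 := inv_ne_zero (mul_ne_zero (nb 0 1 4 (by decide) (by decide) (by decide)) (nb 2 3 4 (by decide) (by decide) (by decide)))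
  set τA : Ω := algebraMap k Ω αA * u 0 with hτA
  set τB : Ω := algebraMap k Ω αB * u 2 with hτB
  set τC : Ω := algebraMap k Ω αC * u 4 with hτC
  have UA : D.U τA := (Dat.U.cst D nA).mul (hu' 0)
  have UB : D.U τB := (Dat.U.cst D nB).mul (hu' 2)
  have UC : D.U τC := (Dat.U.cst D nC).mul (hu' 4)
  set G : Fin 6 → Ω := fun r => pr x x' r - τA * ec Ω (pr B C) r - τB * ec Ω (pr A C) r - τC * ec Ω (pr A B) r with hG
  have hGm : ∀ i, qf G (ec Ω (ℓ i)) = u i - τA * algebraMap k Ω (br (ℓ 2) (ℓ 3) (ℓ i) * br (ℓ 4) (ℓ 5) (ℓ i)) -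
      τB * algebraMap k Ω (br (ℓ 0) (ℓ 1) (ℓ i) * br (ℓ 4) (ℓ 5) (ℓ i)) -
      τC * algebraMap k Ω (br (ℓ 0) (ℓ 1) (ℓ i) * br (ℓ 2) (ℓ 3) (ℓ i)) := by
    intro i
    have h1 : qf G (ec Ω (ℓ i)) = qf (pr x x') (ec Ω (ℓ i)) - τA * qf (ec Ω (pr B C)) (ec Ω (ℓ i)) -
        τB * qf (ec Ω (pr A C)) (ec Ω (ℓ i)) - τC * qf (ec Ω (pr A B)) (ec Ω (ℓ i)) := by
      simp only [qf, hG]
      ring
    rw [h1, qf_F, ec_qf, ec_qf, ec_qf, hA, hB, hC, qf_pr_cr, qf_pr_cr, qf_pr_cr]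
  have z0 : ∀ i j : Fin 6, br (ℓ i) (ℓ j) (ℓ i) = 0 := fun i j => br_self13 _ _
  have z1 : ∀ i j : Fin 6, br (ℓ i) (ℓ j) (ℓ j) = 0 := fun i j => br_self23 _ _
  have hG0 : qf G (ec Ω (ℓ 0)) = 0 := by
    rw [hGm, z0]
    simp only [zero_mul, mul_zero, map_zero, sub_zero]
    rw [hτA, hαA, map_inv₀]
    have := (map_ne_zero (algebraMap k Ω)).mpr (inv_ne_zero nA)
    rw [hαA, inv_inv] at this
    field_simp
    ring
  have hG2 : qf G (ec Ω (ℓ 2)) = 0 := by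
    rw [hGm, z0]
    simp only [zero_mul, mul_zero, map_zero, sub_zero]
    rw [hτB, hαB, map_inv₀]
    have := (map_ne_zero (algebraMap k Ω)).mpr (inv_ne_zero nB)
    rw [hαB, inv_inv] at this
    field_simp
    ring
  have hG4 : qf G (ec Ω (ℓ 4)) = 0 := by
    rw [hGm, z0]
    simp only [zero_mul, mul_zero, map_zero, sub_zero]
    rw [hτC, hαC, map_inv₀]
    have := (map_ne_zero (algebraMap k Ω)).mpr (inv_ne_zero nC)
    rw [hαC, inv_inv] at this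
    field_simp
    ring
  set d1' : k := c 1 - αA * (br (ℓ 2) (ℓ 3) (ℓ 1) * br (ℓ 4) (ℓ 5) (ℓ 1)) with hd1'
  set d3' : k := c 3 - αB * (br (ℓ 0) (ℓ 1) (ℓ 3) * br (ℓ 4) (ℓ 5) (ℓ 3)) with hd3'
  set d5' : k := c 5 - αC * (br (ℓ 0) (ℓ 1) (ℓ 5) * br (ℓ 2) (ℓ 3) (ℓ 5)) with hd5'
  have hG1 : qf G (ec Ω (ℓ 1)) = algebraMap k Ω d1' * u 0 := by
    rw [hGm, z1, hc1, hτA, hd1']
    simp only [zero_mul, mul_zero, map_zero, sub_zero, map_sub, map_mul]
    ring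
  have hG3 : qf G (ec Ω (ℓ 3)) = algebraMap k Ω d3' * u 2 := by
    rw [hGm, z1, hc3, hτB, hd3']
    simp only [zero_mul, mul_zero, map_zero, sub_zero, map_sub, map_mul]
    ring
  have hG5 : qf G (ec Ω (ℓ 5)) = algebraMap k Ω d5' * u 4 := by
    rw [hGm, z1, hc5, hτC, hd5']
    simp only [zero_mul, mul_zero, map_zero, sub_zero, map_sub, map_mul]
    ring
  -- the relation
  obtain ⟨lam, hlam, hrel⟩ := rel hℓ hg0 hg
  have hsum : ∑ i, algebraMap k Ω (lam i) * qf G (ec Ω (ℓ i)) = 0 := by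
    simp only [qf_mon, Finset.mul_sum]
    rw [Finset.sum_comm]
    refine Finset.sum_eq_zero fun r _ => ?_
    have h1 := congrArg (algebraMap k Ω) (hrel r)
    rw [map_zero, map_sum] at h1
    calc ∑ s, algebraMap k Ω (lam s) * (G r * mon (ec Ω (ℓ s)) r) = G r * ∑ s, algebraMap k Ω (lam s * mon (ℓ s) r) := by
          rw [Finset.mul_sum]
          refine Finset.sum_congr rfl fun s _ => ?_
          rw [ec_mon, map_mul]
          show _ * (G r * algebraMap k Ω (mon (ℓ s) r)) = _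
          ring
      _ = 0 := by rw [h1, mul_zero]
  rw [Fin.sum_univ_six, hG0, hG1, hG2, hG3, hG4, hG5] at hsum
  have hli := D.indep 3 ![u 0, u 2, u 4] (by
    intro i
    fin_cases i
    · exact hu' 0
    · exact hu' 2
    · exact hu' 4) (by
    have key : ∀ (p q : ℤ) (a : k), (p ≠ 0 ∨ q ≠ 0) → (u 0 / u 4) ^ p * (u 2 / u 4) ^ q ≠ algebraMap k Ω a := by
      intro p q a hpq h
      obtain ⟨h1, h2⟩ := hI' p q ⟨a, h⟩
      rcases hpq with h3 | h3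
      · exact h3 h1
      · exact h3 h2
    have n0 := hu0 0
    have n2 := hu0 2
    have n4 := hu0 4
    intro i j hij a h
    fin_cases i <;> fin_cases j
    · exact hij rfl
    · exact key 1 (-1) a (Or.inl one_ne_zero) (by
        have h' : u 0 = algebraMap k Ω a * u 2 := h
        rw [h', zpow_one, zpow_neg_one]; field_simp)
    · exact key 1 0 a (Or.inl one_ne_zero) (by
        have h' : u 0 = algebraMap k Ω a * u 4 := h
        rw [h', zpow_one, zpow_zero]; field_simp)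
    · exact key (-1) 1 a (Or.inr one_ne_zero) (by
        have h' : u 2 = algebraMap k Ω a * u 0 := h
        rw [h', zpow_one, zpow_neg_one]; field_simp)
    · exact hij rfl
    · exact key 0 1 a (Or.inr one_ne_zero) (by
        have h' : u 2 = algebraMap k Ω a * u 4 := h
        rw [h', zpow_one, zpow_zero]; field_simp)
    · exact key (-1) 0 a (Or.inl (by norm_num)) (by
        have h' : u 4 = algebraMap k Ω a * u 0 := h
        rw [h', zpow_neg_one, zpow_zero]; field_simp)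
    · exact key 0 (-1) a (Or.inr (by norm_num)) (by
        have h' : u 4 = algebraMap k Ω a * u 2 := h
        rw [h', zpow_neg_one, zpow_zero]; field_simp)
    · exact hij rfl)
  rw [Fintype.linearIndependent_iff] at hli
  have hli' := hli ![lam 1 * d1', lam 3 * d3', lam 5 * d5'] (by
    rw [Fin.sum_univ_three]
    simp only [Matrix.cons_val_zero, Matrix.cons_val_one, Matrix.cons_val, Algebra.smul_def, map_mul]
    linear_combination hsum)
  have e1 : d1' = 0 := (mul_eq_zero.mp (hli' 0)).resolve_left (hlam 1)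
  have e3 : d3' = 0 := (mul_eq_zero.mp (hli' 1)).resolve_left (hlam 3)
  have e5 : d5' = 0 := (mul_eq_zero.mp (hli' 2)).resolve_left (hlam 5)
  rw [e1, map_zero, zero_mul] at hG1
  rw [e3, map_zero, zero_mul] at hG3
  -- `G = z g`
  have nb' : ∀ i j l : Fin 6, i ≠ j → i ≠ l → j ≠ l → br (ec Ω (ℓ i)) (ec Ω (ℓ j)) (ec Ω (ℓ l)) ≠ 0 := by
    intro i j l h1 h2 h3
    rw [ec_br]
    exact (map_ne_zero _).mpr (nb i j l h1 h2 h3)
  have g01 : bf g (ℓ 0) (ℓ 1) ≠ 0 := fun h => hg0 (K0 (ℓ 0) (ℓ 1) (ℓ 2) (ℓ 3) (ℓ 4)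
    (nb 0 1 2 (by decide) (by decide) (by decide)) (nb 0 1 3 (by decide) (by decide) (by decide))
    (nb 0 1 4 (by decide) (by decide) (by decide)) (nb 0 3 2 (by decide) (by decide) (by decide))
    (nb 2 3 4 (by decide) (by decide) (by decide)) g (hg 0) (hg 1) (hg 2) (hg 3) (hg 4) h)
  have g45 : bf g (ℓ 4) (ℓ 5) ≠ 0 := fun h => hg0 (K0 (ℓ 4) (ℓ 5) (ℓ 0) (ℓ 1) (ℓ 2)
    (nb 4 5 0 (by decide) (by decide) (by decide)) (nb 4 5 1 (by decide) (by decide) (by decide))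
    (nb 4 5 2 (by decide) (by decide) (by decide)) (nb 4 1 0 (by decide) (by decide) (by decide))
    (nb 0 1 2 (by decide) (by decide) (by decide)) g (hg 4) (hg 5) (hg 0) (hg 1) (hg 2) h)
  have g01' : algebraMap k Ω (bf g (ℓ 0) (ℓ 1)) ≠ 0 := (map_ne_zero _).mpr g01
  set z : Ω := bf G (ec Ω (ℓ 0)) (ec Ω (ℓ 1)) * algebraMap k Ω (bf g (ℓ 0) (ℓ 1))⁻¹ with hz
  have hGz : (fun r => G r - z * ec Ω g r) = 0 := by
    have hq : ∀ i, qf (fun r => G r - z * ec Ω g r) (ec Ω (ℓ i)) = qf G (ec Ω (ℓ i)) := by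
      intro i
      have h1 : qf (fun r => G r - z * ec Ω g r) (ec Ω (ℓ i)) = qf G (ec Ω (ℓ i)) - z * qf (ec Ω g) (ec Ω (ℓ i)) := by
        simp only [qf]
        ring
      rw [h1, ec_qf, hg, map_zero, mul_zero, sub_zero]
    apply K0 (ec Ω (ℓ 0)) (ec Ω (ℓ 1)) (ec Ω (ℓ 2)) (ec Ω (ℓ 3)) (ec Ω (ℓ 4))
      (nb' 0 1 2 (by decide) (by decide) (by decide)) (nb' 0 1 3 (by decide) (by decide) (by decide))
      (nb' 0 1 4 (by decide) (by decide) (by decide)) (nb' 0 3 2 (by decide) (by decide) (by decide))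
      (nb' 2 3 4 (by decide) (by decide) (by decide)) _ ((hq 0).trans hG0) ((hq 1).trans hG1) ((hq 2).trans hG2)
      ((hq 3).trans hG3) ((hq 4).trans hG4)
    have h1 : bf (fun r => G r - z * ec Ω g r) (ec Ω (ℓ 0)) (ec Ω (ℓ 1)) =
        bf G (ec Ω (ℓ 0)) (ec Ω (ℓ 1)) - z * bf (ec Ω g) (ec Ω (ℓ 0)) (ec Ω (ℓ 1)) := by
      simp only [bf]
      ring
    rw [h1, ec_bf, hz, map_inv₀, mul_assoc, inv_mul_cancel₀ g01', mul_one, sub_self]
  have hF : pr x x' = fun i => τA * ec Ω (pr B C) i + τB * ec Ω (pr A C) i + τC * ec Ω (pr A B) i + z * ec Ω g i := by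
    funext r
    have h1 := congrFun hGz r
    simp only [Pi.zero_apply, hG] at h1
    linear_combination h1
  -- `z` is integral
  have hzR : z ∈ D.R := by
    have hx2 : ∀ i, x i * x' i ∈ D.R := by
      intro i
      have h1 := D.R.mul_mem (D.R.algebraMap_mem (1 / 2 : k)) (hR i i)
      have h2 : algebraMap k Ω (1 / 2) * (x i * x' i + x i * x' i) = x i * x' i := by
        have h3 : algebraMap k Ω (1 / 2) * 2 = 1 := by
          rw [← map_ofNat (algebraMap k Ω) 2, ← map_mul]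
          simp
        linear_combination (x i * x' i) * h3
      rw [← h2]
      exact h1
    have hpr : ∀ r, pr x x' r ∈ D.R := by
      intro r
      fin_cases r
      · exact hx2 0
      · exact hx2 1
      · exact hx2 2
      · exact hR 1 2
      · exact hR 0 2
      · exact hR 0 1
    have hGR : ∀ r, G r ∈ D.R := by
      intro r
      exact D.R.sub_mem (D.R.sub_mem (D.R.sub_mem (hpr r) (D.R.mul_mem UA.2.1 (D.R.algebraMap_mem _)))
        (D.R.mul_mem UB.2.1 (D.R.algebraMap_mem _))) (D.R.mul_mem UC.2.1 (D.R.algebraMap_mem _))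
    have he : ∀ (a : Fin 3 → k) i, ec Ω a i ∈ D.R := fun a i => D.R.algebraMap_mem _
    refine D.R.mul_mem ?_ (D.R.algebraMap_mem _)
    have h2 : (2 : Ω) ∈ D.R := by
      have := D.R.algebraMap_mem (2 : k)
      rwa [map_ofNat] at this
    unfold bf
    refine D.R.add_mem (D.R.add_mem (D.R.add_mem (D.R.add_mem (D.R.add_mem ?_ ?_) ?_) ?_) ?_) ?_
    · exact D.R.mul_mem (D.R.mul_mem h2 (hGR _)) (D.R.mul_mem (he _ _) (he _ _))
    · exact D.R.mul_mem (D.R.mul_mem h2 (hGR _)) (D.R.mul_mem (he _ _) (he _ _))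
    · exact D.R.mul_mem (D.R.mul_mem h2 (hGR _)) (D.R.mul_mem (he _ _) (he _ _))
    · exact D.R.mul_mem (hGR _) (D.R.add_mem (D.R.mul_mem (he _ _) (he _ _)) (D.R.mul_mem (he _ _) (he _ _)))
    · exact D.R.mul_mem (hGR _) (D.R.add_mem (D.R.mul_mem (he _ _) (he _ _)) (D.R.mul_mem (he _ _) (he _ _)))
    · exact D.R.mul_mem (hGR _) (D.R.add_mem (D.R.mul_mem (he _ _) (he _ _)) (D.R.mul_mem (he _ _) (he _ _)))
  -- the determinant
  set κ : Fin 11 → k := ![br A B C ^ 2, -qf g (cr B C), -qf g (cr A C), -qf g (cr A B), d3 (pr B C) (pr A C) g,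
    d3 (pr A C) (pr A B) g, d3 (pr B C) (pr A B) g, d1 g (pr B C), d1 g (pr A C), d1 g (pr A B), dt g] with hκ
  set M : Fin 11 → Ω := ![τA * τB * τC, z * τA ^ 2, z * τB ^ 2, z * τC ^ 2, z * τA * τB, z * τB * τC, z * τA * τC,
    z ^ 2 * τA, z ^ 2 * τB, z ^ 2 * τC, z ^ 3] with hM
  have hdet : ∑ i, algebraMap k Ω (κ i) * M i = 0 := by
    have h1 := dt_pr x x'
    rw [hF] at h1
    have h2 := dt_exp (ec Ω A) (ec Ω B) (ec Ω C) (ec Ω g) τA τB τC z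
    simp only [ec_pr, ec_cr, ec_br, ec_qf, ec_d3, ec_d1, ec_dt] at h2
    rw [h1] at h2
    rw [h2]
    simp only [Fin.sum_univ_succ, Fin.sum_univ_zero, hκ, hM]
    simp only [Matrix.cons_val_zero, Matrix.cons_val_succ, map_neg, map_pow]
    ring
  -- `z` is a unit
  have hdep' : br A B C ^ 2 ≠ 0 := pow_ne_zero 2 hdep
  have hsum2 : algebraMap k Ω (br A B C ^ 2) * (τA * τB * τC) = -(∑ i : Fin 10, algebraMap k Ω (κ i.succ) * M i.succ) := by
    rw [Fin.sum_univ_succ] at hdet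
    exact eq_neg_of_add_eq_zero_left hdet
  set w : Ω := ∑ i : Fin 10, algebraMap k Ω (κ i.succ) * (![τA ^ 2, τB ^ 2, τC ^ 2, τA * τB, τB * τC, τA * τC,
    z * τA, z * τB, z * τC, z ^ 2] : Fin 10 → Ω) i with hw
  have hzw : algebraMap k Ω (br A B C ^ 2) * (τA * τB * τC) = -(z * w) := by
    rw [hsum2, hw, Finset.mul_sum]
    congr 1
    refine Finset.sum_congr rfl fun i _ => ?_
    rw [hM, M_succ]
    ring
  have hwR : w ∈ D.R := by
    refine D.R.sum_mem fun i _ => D.R.mul_mem (D.R.algebraMap_mem _) ?_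
    have a1 := UA.2.1
    have b1 := UB.2.1
    have c1 := UC.2.1
    fin_cases i
    · exact D.R.pow_mem a1 2
    · exact D.R.pow_mem b1 2
    · exact D.R.pow_mem c1 2
    · exact D.R.mul_mem a1 b1
    · exact D.R.mul_mem b1 c1
    · exact D.R.mul_mem a1 c1
    · exact D.R.mul_mem hzR a1
    · exact D.R.mul_mem hzR b1
    · exact D.R.mul_mem hzR c1
    · exact D.R.pow_mem hzR 2
  have UP : D.U (algebraMap k Ω (br A B C ^ 2) * (τA * τB * τC)) := (Dat.U.cst D hdep').mul ((UA.mul UB).mul UC)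
  have hz0 : z ≠ 0 := by
    intro h
    apply UP.1
    rw [hzw, h, zero_mul, neg_zero]
  have Uz : D.U z := by
    refine ⟨hz0, hzR, ?_⟩
    have h1 : z⁻¹ = -w * (algebraMap k Ω (br A B C ^ 2) * (τA * τB * τC))⁻¹ := by
      have h2 := UP.1
      rw [eq_mul_inv_iff_mul_eq₀ h2, hzw]
      field_simp
    rw [h1]
    exact D.R.mul_mem (D.R.neg_mem hwR) UP.2.2
  -- the two coefficients
  have qcr : ∀ a b : Fin 3 → k, qf g (fun i => br a b (ℓ 5) * ℓ 4 i + (-br a b (ℓ 4)) * ℓ 5 i + 0 * 0) =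
      -(br a b (ℓ 5) * br a b (ℓ 4) * bf g (ℓ 4) (ℓ 5)) := by
    intro a b
    have h1 := qf_comb g (ℓ 4) (ℓ 5) 0 (br a b (ℓ 5)) (-br a b (ℓ 4)) 0
    simp only [Pi.zero_apply] at h1
    rw [h1, hg, hg]
    ring
  have κ1 : κ 1 ≠ 0 := by
    show -qf g (cr B C) ≠ 0
    rw [hB, hC, cr_cr, qcr, neg_neg]
    exact mul_ne_zero (mul_ne_zero (nb 2 3 5 (by decide) (by decide) (by decide)) (nb 2 3 4 (by decide) (by decide) (by decide))) g45
  have κ2 : κ 2 ≠ 0 := by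
    show -qf g (cr A C) ≠ 0
    rw [hA, hC, cr_cr, qcr, neg_neg]
    exact mul_ne_zero (mul_ne_zero (nb 0 1 5 (by decide) (by decide) (by decide)) (nb 0 1 4 (by decide) (by decide) (by decide))) g45
  -- conclusion
  refine last D ![τA, τB, τC, z] (by
    intro i
    fin_cases i
    · exact UA
    · exact UB
    · exact UC
    · exact Uz) κ κ1 κ2 ?_ ?_
  · rw [← hdet]
    refine Finset.sum_congr rfl fun i _ => ?_
    rw [mo_E]
  · intro m n hmn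
    apply hI'
    have h1 : (u 0 / u 4) ^ m * (u 2 / u 4) ^ n =
        algebraMap k Ω ((αC / αA) ^ m * (αC / αB) ^ n) * ((τA / τC) ^ m * (τB / τC) ^ n) := by
      have h2 : u 0 / u 4 = algebraMap k Ω (αC / αA) * (τA / τC) := by
        have n0 : algebraMap k Ω αA ≠ 0 := (map_ne_zero _).mpr nA
        have n1 : algebraMap k Ω αC ≠ 0 := (map_ne_zero _).mpr nC
        have n4 := hu0 4
        rw [hτA, hτC, map_div₀]
        field_simp
      have h3 : u 2 / u 4 = algebraMap k Ω (αC / αB) * (τB / τC) := by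
        have n0 : algebraMap k Ω αB ≠ 0 := (map_ne_zero _).mpr nB
        have n1 : algebraMap k Ω αC ≠ 0 := (map_ne_zero _).mpr nC
        have n4 := hu0 4
        rw [hτB, hτC, map_div₀]
        field_simp
      rw [h2, h3, mul_zpow, mul_zpow, map_mul, map_zpow₀, map_zpow₀]
      ring
    rw [h1]
    exact cst_mul ⟨_, rfl⟩ hmn

end Pool.Agent.SL

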