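import Pool.Agent.Helper16.SL.Split
import Pool.Agent.Helper16.SL.Span

/-!
# SixLines, block B6: the six lines are not tangent to a conic

`hn` says that the only quadratic form over `k` which vanishes at the six `ℓ i` is `0`.

PROOF. `E : Matrix (Fin 6) (Fin 6) k` with rows the monomials of `ℓ i` is invertible (`hn`). So `F = pr x x'` (with `qf F (ℓ i) = u_i`, `qf_pr`) is
`F = ∑_{j < 3} t_j f_j` with `t = (u_0, u_2, u_4)`, `f_j : Fin 6 → k`, `qf f_0 (ℓ 0) = 1`, `qf f_0 (ℓ 1) = c 1`, `qf f_0 (ℓ i) = 0` for `i = 2, 3, 4, 5` etc. `P = dt (∑ X_j f_j)` in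
`MvPolynomial (Fin 3) k` is homogeneous of degree 3 and vanishes at `t` (`dt_pr`); by `poly` and `hI` (different monomials of the same degree in
the `t_j` are not proportional over `k`) it is `0`. So `dt f_j = 0` and `dt (F ± f_j) = 0`, so `qf f_j n = 0` for `n = cr x x'` (`dt_add_sub`).
`split4`: so `n` is on a line joining two of the `ℓ i`, `i = 2, 3, 4, 5` (`j = 0`), two with `i = 0, 1, 4, 5` (`j = 1`), two with `i = 0, 1, 2, 3` (`j = 2`). Two of these three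
lines are different, so if `n ≠ 0` then `n` is proportional to their point of intersection `n0 = cr (cr a b) (cr c d)`, which is over `k`, and
`lin n0 x = 0`. If `n = 0`: `bf F (ℓ 0) (ℓ 4) ^ 2 = 4 u_0 u_4` and `bf F (ℓ 0) (ℓ 4)` is a combination `α t_0 + β t_1 + γ t_2` with coefficients in `k`; by `poly`
`α² = γ² = 0` and `2 α γ = 4`, contradiction.
-/

set_option autoImplicit false

namespace Pool.Agent.SL

universe u v

variable {k : Type u} {Ω : Type v} [Field k] [Field Ω] [Algebra k Ω]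

/-- extension of scalars for vectors -/
def ex {ι : Type*} (Ω : Type v) [Field Ω] [Algebra k Ω] (a : ι → k) : ι → Ω := fun i => algebraMap k Ω (a i)

theorem br_ex (a b c : Fin 3 → k) : br (ex Ω a) (ex Ω b) (ex Ω c) = algebraMap k Ω (br a b c) := by
  simp [br, ex]

theorem qf_ex (g : Fin 6 → k) (m : Fin 3 → k) : qf (ex Ω g) (ex Ω m) = algebraMap k Ω (qf g m) := by
  simp [qf, ex]

theorem bf_ex (g : Fin 6 → k) (m m' : Fin 3 → k) :
    bf (ex Ω g) (ex Ω m) (ex Ω m') = algebraMap k Ω (bf g m m') := by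
  simp only [bf, ex, map_add, map_mul, map_ofNat]

theorem dt_ex (g : Fin 6 → k) : dt (ex Ω g) = algebraMap k Ω (dt g) := by
  simp only [dt, ex, map_add, map_mul, map_ofNat, map_sub, map_pow]

theorem lin_eq (m : Fin 3 → k) (x : Fin 3 → Ω) : lin m x = ex Ω m 0 * x 0 + ex Ω m 1 * x 1 + ex Ω m 2 * x 2 := by
  simp [lin, ex, Fin.sum_univ_three]

theorem qf_pr_ex (x x' : Fin 3 → Ω) (m : Fin 3 → k) : qf (pr x x') (ex Ω m) = lin m x * lin m x' := by
  rw [qf_pr, lin_eq, lin_eq]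
  ring

theorem br_of_genPos {q : ℕ} {ℓ : Fin q → Fin 3 → k} (hℓ : GenPos ℓ) {a b c : Fin q} (hab : a ≠ b)
    (hac : a ≠ c) (hbc : b ≠ c) : br (ℓ a) (ℓ b) (ℓ c) ≠ 0 := by
  have h := hℓ ![a, b, c] (by
    intro i j hij
    fin_cases i <;> fin_cases j <;> simp_all [eq_comm])
  intro h0
  apply h
  rw [Matrix.det_fin_three]
  simp only [Matrix.of_apply, Matrix.cons_val]
  unfold br at h0
  linear_combination h0

/-- homogeneous polynomials do not vanish at independent units -/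
theorem homog_zero (D : Dat k Ω) (t : Fin 3 → Ω) (ht : ∀ i, D.U (t i))
    (hI : ∀ m n : ℤ, Cst k ((t 0 / t 2) ^ m * (t 1 / t 2) ^ n) → m = 0 ∧ n = 0)
    (P : MvPolynomial (Fin 3) k) (d : ℕ) (hP : P.IsHomogeneous d) (h0 : MvPolynomial.aeval t P = 0) :
    P = 0 := by
  by_contra hne
  obtain ⟨μ, hμ⟩ := MvPolynomial.ne_zero_iff.1 hne
  obtain ⟨ν, hνμ, hν, a, ha⟩ := poly D t ht P h0 μ hμ
  have h1 := hP hμ
  have h2 := hP hν
  rw [Finsupp.weight_apply, Finsupp.sum_fintype _ _ (by simp), Fin.sum_univ_three] at h1 h2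
  simp only [Pi.one_apply, smul_eq_mul, mul_one] at h1 h2
  rw [Fin.prod_univ_three, Fin.prod_univ_three] at ha
  have e0 := (ht 0).1
  have e1 := (ht 1).1
  have e2 := (ht 2).1
  have h3 := hI ((μ 0 : ℤ) - ν 0) ((μ 1 : ℤ) - ν 1) ⟨a, by
    rw [div_zpow, div_zpow, zpow_sub₀ e0, zpow_sub₀ e1, zpow_sub₀ e2, zpow_sub₀ e2]
    simp only [zpow_natCast]
    have h4 : t 2 ^ (d - μ 0 - μ 1) = t 2 ^ μ 2 := by congr 1; omega
    have h5 : t 2 ^ (d - ν 0 - ν 1) = t 2 ^ ν 2 := by congr 1; omega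
    have h6 : t 2 ^ μ 0 * t 2 ^ μ 1 * t 2 ^ μ 2 = t 2 ^ ν 0 * t 2 ^ ν 1 * t 2 ^ ν 2 := by
      rw [← pow_add, ← pow_add, ← pow_add, ← pow_add, h1, h2]
    have h7 : t 0 ^ μ 0 * t 1 ^ μ 1 * (t 2 ^ ν 0 * t 2 ^ ν 1) * t 2 ^ μ 2 =
        algebraMap k Ω a * (t 0 ^ ν 0 * t 1 ^ ν 1) * (t 2 ^ μ 0 * t 2 ^ μ 1) * t 2 ^ μ 2 := by
      calc t 0 ^ μ 0 * t 1 ^ μ 1 * (t 2 ^ ν 0 * t 2 ^ ν 1) * t 2 ^ μ 2
          = (t 0 ^ μ 0 * t 1 ^ μ 1 * t 2 ^ μ 2) * (t 2 ^ ν 0 * t 2 ^ ν 1) := by ring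
        _ = algebraMap k Ω a * (t 0 ^ ν 0 * t 1 ^ ν 1) * (t 2 ^ ν 0 * t 2 ^ ν 1 * t 2 ^ ν 2) := by
            rw [ha]; ring
        _ = _ := by rw [← h6]; ring
    have h8 := mul_right_cancel₀ (pow_ne_zero _ e2) h7
    field_simp
    linear_combination h8⟩
  apply hνμ
  ext i
  fin_cases i
  · simp only [Fin.zero_eta]; omega
  · simp only [Fin.mk_one]; omega
  · simp only [Fin.reduceFinMk]; omega

/-- a vector on two different lines -/
theorem two_lines (a b c d e : Fin 3 → k) (habd : br a b d ≠ 0) (hcde : br c d e ≠ 0)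
    (n : Fin 3 → Ω) (hn : n ≠ 0) (h1 : br (ex Ω a) (ex Ω b) n = 0) (h2 : br (ex Ω c) (ex Ω d) n = 0) :
    ∃ (m : Fin 3 → k) (l : Ω), m ≠ 0 ∧ l ≠ 0 ∧ n = fun i => l * algebraMap k Ω (m i) := by
  set m : Fin 3 → k := cr (cr a b) (cr c d) with hm
  have hm0 : m ≠ 0 := by
    intro h
    have h3 : br m d e = br a b d * br c d e := by
      rw [hm]
      simp only [br, cr, Matrix.cons_val]
      ring
    rw [h] at h3
    have h4 : br (0 : Fin 3 → k) d e = 0 := by simp [br]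
    rw [h4] at h3
    exact mul_ne_zero habd hcde h3.symm
  have hcr : ∀ i j, algebraMap k Ω (m i) * n j = algebraMap k Ω (m j) * n i := by
    have e1 : ∀ i, algebraMap k Ω (m i) = cr (cr (ex Ω a) (ex Ω b)) (cr (ex Ω c) (ex Ω d)) i := by
      intro i
      rw [hm]
      fin_cases i <;> simp [cr, ex]
    intro i j
    rw [e1, e1]
    unfold br at h1 h2
    fin_cases i <;> fin_cases j <;> simp only [cr, Matrix.cons_val, Fin.zero_eta, Fin.mk_one,
      Fin.reduceFinMk]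
    · linear_combination (ex Ω c 0 * ex Ω d 1 - ex Ω c 1 * ex Ω d 0) * h1 -
        (ex Ω a 0 * ex Ω b 1 - ex Ω a 1 * ex Ω b 0) * h2
    · linear_combination (ex Ω a 2 * ex Ω b 0 - ex Ω a 0 * ex Ω b 2) * h2 -
        (ex Ω c 2 * ex Ω d 0 - ex Ω c 0 * ex Ω d 2) * h1
    · linear_combination (ex Ω a 0 * ex Ω b 1 - ex Ω a 1 * ex Ω b 0) * h2 -
        (ex Ω c 0 * ex Ω d 1 - ex Ω c 1 * ex Ω d 0) * h1
    · linear_combination (ex Ω c 1 * ex Ω d 2 - ex Ω c 2 * ex Ω d 1) * h1 -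
        (ex Ω a 1 * ex Ω b 2 - ex Ω a 2 * ex Ω b 1) * h2
    · linear_combination (ex Ω c 2 * ex Ω d 0 - ex Ω c 0 * ex Ω d 2) * h1 -
        (ex Ω a 2 * ex Ω b 0 - ex Ω a 0 * ex Ω b 2) * h2
    · linear_combination (ex Ω a 1 * ex Ω b 2 - ex Ω a 2 * ex Ω b 1) * h2 -
        (ex Ω c 1 * ex Ω d 2 - ex Ω c 2 * ex Ω d 1) * h1
  obtain ⟨i, hi⟩ := Function.ne_iff.1 hm0
  have hi' : algebraMap k Ω (m i) ≠ 0 := by rw [Ne, map_eq_zero]; exact hi
  refine ⟨m, n i / algebraMap k Ω (m i), hm0, ?_, ?_⟩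
  · intro h
    apply hn
    rw [div_eq_zero_iff, or_iff_left hi'] at h
    funext j
    have := hcr i j
    rw [h, mul_zero] at this
    exact (mul_eq_zero.1 this).resolve_left hi'
  · funext j
    rw [div_mul_eq_mul_div, eq_div_iff hi', mul_comm (n i)]
    rw [mul_comm, hcr i j]

/-- the matrix of the evaluation at the `ℓ i` -/
def evm (ℓ : Fin 6 → Fin 3 → k) : Matrix (Fin 6) (Fin 6) k :=
  Matrix.of fun i => ![ℓ i 0 ^ 2, ℓ i 1 ^ 2, ℓ i 2 ^ 2, ℓ i 1 * ℓ i 2, ℓ i 0 * ℓ i 2, ℓ i 0 * ℓ i 1]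

theorem evm_mulVec (ℓ : Fin 6 → Fin 3 → k) (g : Fin 6 → k) (i : Fin 6) :
    (evm ℓ).mulVec g i = qf g (ℓ i) := by
  simp only [evm, Matrix.mulVec, dotProduct, Fin.sum_univ_succ, Matrix.of_apply,
    Matrix.cons_val_succ, Matrix.cons_val_zero, Fin.succ_zero_eq_one, Fin.succ_one_eq_two, qf]
  simp
  ring

theorem evm_map_mulVec (ℓ : Fin 6 → Fin 3 → k) (g : Fin 6 → Ω) (i : Fin 6) :
    ((evm ℓ).map (algebraMap k Ω)).mulVec g i = qf g (ex Ω (ℓ i)) := by
  simp only [evm, Matrix.mulVec, dotProduct, Fin.sum_univ_succ, Matrix.of_apply,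
    Matrix.cons_val_succ, Matrix.cons_val_zero, Fin.succ_zero_eq_one, Fin.succ_one_eq_two, qf, ex,
    Matrix.map_apply]
  simp
  ring

theorem isHomogeneous_dt (f : Fin 6 → MvPolynomial (Fin 3) k) (hf : ∀ i, (f i).IsHomogeneous 1) :
    (dt f).IsHomogeneous 3 := by
  have h3 : ∀ i j l, (f i * f j * f l).IsHomogeneous 3 := fun i j l => ((hf i).mul (hf j)).mul (hf l)
  unfold dt
  refine MvPolynomial.IsHomogeneous.sub (MvPolynomial.IsHomogeneous.sub (MvPolynomial.IsHomogeneous.sub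
    (MvPolynomial.IsHomogeneous.add ?_ (h3 3 4 5)) ?_) ?_) ?_
  · have h := (MvPolynomial.isHomogeneous_C (Fin 3) (4 : k)).mul (h3 0 1 2)
    rw [zero_add] at h
    have e : 4 * f 0 * f 1 * f 2 = MvPolynomial.C (4 : k) * (f 0 * f 1 * f 2) := by
      rw [map_ofNat MvPolynomial.C 4]
      ring
    rw [e]
    exact h
  · have e : f 0 * f 3 ^ 2 = f 0 * f 3 * f 3 := by ring
    rw [e]
    exact h3 0 3 3
  · have e : f 1 * f 4 ^ 2 = f 1 * f 4 * f 4 := by ring
    rw [e]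
    exact h3 1 4 4
  · have e : f 2 * f 5 ^ 2 = f 2 * f 5 * f 5 := by ring
    rw [e]
    exact h3 2 5 5

theorem line [CharZero k] (D : Dat k Ω) (ℓ : Fin 6 → Fin 3 → k) (hℓ : GenPos ℓ)
    (hn : ∀ g : Fin 6 → k, (∀ i, qf g (ℓ i) = 0) → g = 0) (x x' : Fin 3 → Ω)
    (hu : ∀ i, D.U (lin (ℓ i) x * lin (ℓ i) x')) (c : Fin 6 → k) (hc0 : ∀ i, c i ≠ 0)
    (hc : ∀ i, lin (ℓ i) x * lin (ℓ i) x' = algebraMap k Ω (c i) *
        (lin (ℓ (![0, 0, 2, 2, 4, 4] i)) x * lin (ℓ (![0, 0, 2, 2, 4, 4] i)) x'))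
    (hI : ∀ m n : ℤ, Cst k
      (((lin (ℓ 0) x * lin (ℓ 0) x') / (lin (ℓ 4) x * lin (ℓ 4) x')) ^ m *
        ((lin (ℓ 2) x * lin (ℓ 2) x') / (lin (ℓ 4) x * lin (ℓ 4) x')) ^ n) → m = 0 ∧ n = 0) :
    ∃ n : Fin 3 → k, n ≠ 0 ∧ lin n x = 0 := by
  classical
  have hΩ : CharZero Ω := charZero_of_injective_algebraMap (algebraMap k Ω).injective
  set F : Fin 6 → Ω := pr x x' with hF
  let u : Fin 6 → Ω := fun i => lin (ℓ i) x * lin (ℓ i) x'
  let p : Fin 6 → Fin 3 := ![0, 0, 1, 1, 2, 2]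
  let t : Fin 3 → Ω := ![u 0, u 2, u 4]
  have htU : ∀ j, D.U (t j) := by
    intro j
    fin_cases j
    · exact hu 0
    · exact hu 2
    · exact hu 4
  have hut : ∀ i, u i = algebraMap k Ω (c i) * t (p i) := by
    intro i
    have h := hc i
    fin_cases i <;> exact h
  have hFu : ∀ i, qf F (ex Ω (ℓ i)) = u i := fun i => qf_pr_ex x x' (ℓ i)
  -- the evaluation matrix
  set A := evm ℓ with hA
  have hdet : A.det ≠ 0 := by
    intro h0
    obtain ⟨g, hg0, hg⟩ := Matrix.exists_mulVec_eq_zero_iff.2 h0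
    exact hg0 (hn g fun i => by rw [← evm_mulVec, ← hA, hg]; rfl)
  have hunit : IsUnit A.det := isUnit_iff_ne_zero.2 hdet
  -- the forms `f j`
  let w : Fin 3 → Fin 6 → k := fun j i => if p i = j then c i else 0
  let f : Fin 3 → Fin 6 → k := fun j => A⁻¹.mulVec (w j)
  have hf : ∀ j i, qf (f j) (ℓ i) = w j i := by
    intro j i
    rw [← evm_mulVec, ← hA]
    simp only [f]
    rw [Matrix.mulVec_mulVec, Matrix.mul_nonsing_inv A hunit, Matrix.one_mulVec]
  have hFf : ∀ i, F i = ∑ j, algebraMap k Ω (f j i) * t j := by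
    have h1 : (A.map (algebraMap k Ω)).mulVec F = (A.map (algebraMap k Ω)).mulVec
        fun i => ∑ j, algebraMap k Ω (f j i) * t j := by
      have h2 : (fun i => ∑ j, algebraMap k Ω (f j i) * t j) = ∑ j, t j • ex Ω (f j) := by
        funext i
        rw [Finset.sum_apply]
        refine Finset.sum_congr rfl fun j _ => ?_
        rw [Pi.smul_apply, smul_eq_mul, mul_comm]
        rfl
      rw [h2, Matrix.mulVec_sum]
      funext i
      rw [hA, evm_map_mulVec, Finset.sum_apply]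
      simp_rw [Matrix.mulVec_smul, Pi.smul_apply, evm_map_mulVec, qf_ex, hf]
      rw [hFu, hut]
      simp only [w]
      rw [Finset.sum_eq_single (p i)]
      · rw [if_pos rfl, smul_eq_mul, mul_comm]
      · intro b _ hb
        rw [if_neg (Ne.symm hb), map_zero, smul_zero]
      · intro h
        exact absurd (Finset.mem_univ _) h
    have h3 : (A.map (algebraMap k Ω)).det ≠ 0 := by
      have : (A.map (algebraMap k Ω)).det = algebraMap k Ω A.det := by
        rw [RingHom.map_det]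
        rfl
      rw [this, Ne, map_eq_zero]
      exact hdet
    have h4 := Matrix.mulVec_injective_iff_isUnit.2
      ((Matrix.isUnit_iff_isUnit_det _).2 (isUnit_iff_ne_zero.2 h3)) h1
    exact fun i => congrFun h4 i
  -- the vanishing of the discriminant
  let G : Fin 6 → MvPolynomial (Fin 3) k := fun i => ∑ j, MvPolynomial.C (f j i) * MvPolynomial.X j
  have hGhom : ∀ i, (G i).IsHomogeneous 1 := fun i =>
    MvPolynomial.IsHomogeneous.sum _ _ _ fun j _ => MvPolynomial.isHomogeneous_C_mul_X _ _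
  have hGs : ∀ s : Fin 3 → Ω, MvPolynomial.aeval s (dt G) =
      dt fun i => ∑ j, algebraMap k Ω (f j i) * s j := by
    intro s
    have h1 : ∀ i, MvPolynomial.aeval s (G i) = ∑ j, algebraMap k Ω (f j i) * s j := by
      intro i
      simp only [G]
      rw [map_sum]
      refine Finset.sum_congr rfl fun j _ => ?_
      rw [map_mul, MvPolynomial.aeval_C, MvPolynomial.aeval_X]
    unfold dt
    simp only [map_sub, map_add, map_mul, map_pow, map_ofNat, h1]
  have hG0 : dt G = 0 := by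
    refine homog_zero D t htU hI (dt G) 3 (isHomogeneous_dt G hGhom) ?_
    rw [hGs]
    have h1 : (fun i => ∑ j, algebraMap k Ω (f j i) * t j) = F := funext fun i => (hFf i).symm
    rw [h1, hF, dt_pr]
  have hGs0 : ∀ s : Fin 3 → Ω, dt (fun i => ∑ j, algebraMap k Ω (f j i) * s j) = 0 := by
    intro s
    rw [← hGs, hG0, map_zero]
  have hdtf : ∀ j, dt (ex Ω (f j)) = 0 := by
    intro j
    have h1 := hGs0 (Pi.single j 1)
    have h2 : (fun i => ∑ j', algebraMap k Ω (f j' i) * (Pi.single j 1 : Fin 3 → Ω) j') = ex Ω (f j) := by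
      funext i
      rw [Finset.sum_eq_single j]
      · rw [Pi.single_eq_same, mul_one]; rfl
      · intro b _ hb
        rw [Pi.single_eq_of_ne hb, mul_zero]
      · intro h
        exact absurd (Finset.mem_univ _) h
    rwa [h2] at h1
  have hpm : ∀ (j : Fin 3) (z : Ω), dt (F + z • ex Ω (f j)) = 0 := by
    intro j z
    have h1 := hGs0 (t + z • Pi.single j 1)
    have h2 : (fun i => ∑ j', algebraMap k Ω (f j' i) * (t + z • Pi.single j 1 : Fin 3 → Ω) j') =
        F + z • ex Ω (f j) := by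
      funext i
      rw [Pi.add_apply, hFf, Pi.smul_apply, smul_eq_mul]
      simp_rw [Pi.add_apply, Pi.smul_apply, smul_eq_mul, mul_add]
      rw [Finset.sum_add_distrib]
      congr 1
      rw [Finset.sum_eq_single j]
      · rw [Pi.single_eq_same, mul_one, mul_comm]; rfl
      · intro b _ hb
        rw [Pi.single_eq_of_ne hb, mul_zero, mul_zero]
      · intro h
        exact absurd (Finset.mem_univ _) h
    rwa [h2] at h1
  set n : Fin 3 → Ω := cr x x' with hndef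
  have hqn : ∀ j, qf (ex Ω (f j)) n = 0 := by
    intro j
    have h1 := dt_add_sub x x' (ex Ω (f j))
    have h2 := hpm j 1
    have h3 := hpm j (-1)
    rw [one_smul] at h2
    rw [neg_smul, one_smul, ← sub_eq_add_neg] at h3
    rw [← hF, h2, h3, hdtf] at h1
    have h4 : (2 : Ω) * qf (ex Ω (f j)) n = 0 := by linear_combination h1
    exact (mul_eq_zero.1 h4).resolve_left two_ne_zero
  -- the line through two of the points
  have hbr : ∀ {a b c : Fin 6}, a ≠ b → a ≠ c → b ≠ c →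
      br (ex Ω (ℓ a)) (ex Ω (ℓ b)) (ex Ω (ℓ c)) ≠ 0 := by
    intro a b c h1 h2 h3
    rw [br_ex, Ne, map_eq_zero]
    exact br_of_genPos hℓ h1 h2 h3
  have hon4 : ∀ (j : Fin 3) (a b c' d : Fin 6), a ≠ b → a ≠ c' → a ≠ d → b ≠ c' → b ≠ d → c' ≠ d →
      p a ≠ j → p b ≠ j → p c' ≠ j → p d ≠ j →
      ∃ i i' : Fin 6, p i ≠ j ∧ p i' ≠ j ∧ i ≠ i' ∧ br (ex Ω (ℓ i)) (ex Ω (ℓ i')) n = 0 := by
    intro j a b c' d hab hac had hbc hbd hcd pa pb pc pd
    have hz : ∀ i, p i ≠ j → qf (ex Ω (f j)) (ex Ω (ℓ i)) = 0 := by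
      intro i hi
      rw [qf_ex, hf]
      simp only [w]
      rw [if_neg hi, map_zero]
    have hne : ∃ m, qf (ex Ω (f j)) m ≠ 0 := by
      have h1 : ∃ i, p i = j := by
        fin_cases j
        · exact ⟨0, rfl⟩
        · exact ⟨2, rfl⟩
        · exact ⟨4, rfl⟩
      obtain ⟨i, hi⟩ := h1
      refine ⟨ex Ω (ℓ i), ?_⟩
      rw [qf_ex, hf]
      simp only [w]
      rw [if_pos hi, Ne, map_eq_zero]
      exact hc0 i
    rcases split_field (ex Ω (f j)) (ex Ω (ℓ a)) (ex Ω (ℓ b)) (ex Ω (ℓ c')) (ex Ω (ℓ d))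
      (hbr hab hac hbc) (hbr hbd.symm hcd.symm hbc) (hbr had hac hcd.symm) (hbr hab had hbd)
      (hz a pa) (hz b pb) (hz c' pc) (hz d pd) (hdtf j) hne n (hqn j) with h | h | h | h | h | h
    · exact ⟨a, b, pa, pb, hab, h⟩
    · exact ⟨c', d, pc, pd, hcd, h⟩
    · exact ⟨a, c', pa, pc, hac, h⟩
    · exact ⟨b, d, pb, pd, hbd, h⟩
    · exact ⟨a, d, pa, pd, had, h⟩
    · exact ⟨b, c', pb, pc, hbc, h⟩
  by_cases hn0 : n = 0
  · -- rank one
    exfalso
    have h1 : bf F (ex Ω (ℓ 0)) (ex Ω (ℓ 4)) ^ 2 = 4 * (u 0 * u 4) := by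
      have h2 : bf F (ex Ω (ℓ 0)) (ex Ω (ℓ 4)) ^ 2 = 4 * (qf F (ex Ω (ℓ 0)) * qf F (ex Ω (ℓ 4))) +
          (cr (ex Ω (ℓ 0)) (ex Ω (ℓ 4)) 0 * n 0 + cr (ex Ω (ℓ 0)) (ex Ω (ℓ 4)) 1 * n 1 +
            cr (ex Ω (ℓ 0)) (ex Ω (ℓ 4)) 2 * n 2) ^ 2 := by
        rw [hF, hndef]
        simp only [bf, qf, pr, cr, Matrix.cons_val]
        ring
      rw [h2, hn0, hFu, hFu]
      simp
    let α : Fin 3 → k := fun j => bf (f j) (ℓ 0) (ℓ 4)
    have h3 : bf F (ex Ω (ℓ 0)) (ex Ω (ℓ 4)) = ∑ j, algebraMap k Ω (α j) * t j := by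
      simp only [α]
      simp_rw [← bf_ex]
      unfold bf
      simp only [hFf, Fin.sum_univ_three, ex]
      ring
    let Q : MvPolynomial (Fin 3) k := (∑ j, MvPolynomial.C (α j) * MvPolynomial.X j) ^ 2 -
      MvPolynomial.C 4 * (MvPolynomial.X 0 * MvPolynomial.X 2)
    have hQ : Q = 0 := by
      refine homog_zero D t htU hI Q 2 ?_ ?_
      · refine MvPolynomial.IsHomogeneous.sub ?_ ?_
        · have := (MvPolynomial.IsHomogeneous.sum Finset.univ (fun j : Fin 3 =>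
            MvPolynomial.C (α j) * MvPolynomial.X j) 1 fun j _ =>
              MvPolynomial.isHomogeneous_C_mul_X _ _).pow 2
          simpa using this
        · have := (MvPolynomial.isHomogeneous_C (Fin 3) (4 : k)).mul
            ((MvPolynomial.isHomogeneous_X k (0 : Fin 3)).mul (MvPolynomial.isHomogeneous_X k (2 : Fin 3)))
          simpa using this
      · simp only [Q, map_sub, map_pow, map_sum, map_mul, MvPolynomial.aeval_C, MvPolynomial.aeval_X]
        rw [← h3, h1, map_ofNat]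
        simp only [t, Matrix.cons_val]
        ring
    have e1 := congrArg (MvPolynomial.eval (![1, 0, 0] : Fin 3 → k)) hQ
    have e2 := congrArg (MvPolynomial.eval (![0, 0, 1] : Fin 3 → k)) hQ
    have e3 := congrArg (MvPolynomial.eval (![1, 0, 1] : Fin 3 → k)) hQ
    simp [Q, Fin.sum_univ_three] at e1 e2 e3
    rw [e1, e2] at e3
    norm_num at e3
  · obtain ⟨a0, b0, pa0, pb0, hab0, h0⟩ := hon4 0 2 3 4 5 (by decide) (by decide) (by decide) (by decide)
      (by decide) (by decide) (by decide) (by decide) (by decide) (by decide)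
    obtain ⟨a1, b1, pa1, pb1, hab1, h1⟩ := hon4 1 0 1 4 5 (by decide) (by decide) (by decide) (by decide)
      (by decide) (by decide) (by decide) (by decide) (by decide) (by decide)
    obtain ⟨a2, b2, pa2, pb2, hab2, h2⟩ := hon4 2 0 1 2 3 (by decide) (by decide) (by decide) (by decide)
      (by decide) (by decide) (by decide) (by decide) (by decide) (by decide)
    have hfin : ∀ a b c' d : Fin 6, a ≠ b → c' ≠ d → a ≠ d → b ≠ d →
        br (ex Ω (ℓ a)) (ex Ω (ℓ b)) n = 0 → br (ex Ω (ℓ c')) (ex Ω (ℓ d)) n = 0 →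
        ∃ m : Fin 3 → k, m ≠ 0 ∧ lin m x = 0 := by
      intro a b c' d hab hcd had hbd h1 h2
      obtain ⟨e, he1, he2⟩ : ∃ e : Fin 6, c' ≠ e ∧ d ≠ e := by
        by_cases h : c' = a
        · exact ⟨b, by rw [h]; exact hab, hbd.symm⟩
        · exact ⟨a, h, had.symm⟩
      obtain ⟨m, l, hm, hl, hnm⟩ := two_lines (ℓ a) (ℓ b) (ℓ c') (ℓ d) (ℓ e)
        (br_of_genPos hℓ hab had hbd) (br_of_genPos hℓ hcd he1 he2) n hn0 h1 h2
      refine ⟨m, hm, ?_⟩
      have h3 : n 0 * x 0 + n 1 * x 1 + n 2 * x 2 = 0 := by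
        rw [hndef]
        simp only [cr, Matrix.cons_val]
        ring
      rw [hnm] at h3
      have h4 : l * lin m x = 0 := by
        unfold lin
        rw [Fin.sum_univ_three]
        linear_combination h3
      exact (mul_eq_zero.1 h4).resolve_left hl
    by_cases hb : a0 ≠ b1 ∧ b0 ≠ b1
    · exact hfin a0 b0 a1 b1 hab0 hab1 hb.1 hb.2 h0 h1
    by_cases ha : a0 ≠ a1 ∧ b0 ≠ a1
    · refine hfin a0 b0 b1 a1 hab0 hab1.symm ha.1 ha.2 h0 ?_
      rw [show br (ex Ω (ℓ b1)) (ex Ω (ℓ a1)) n = -br (ex Ω (ℓ a1)) (ex Ω (ℓ b1)) n from br_swap _ _ _,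
        h1, neg_zero]
    -- the first two lines are equal
    have hpa : p a0 ≠ 1 ∧ p b0 ≠ 1 := by
      rw [not_and_or, not_not, not_not] at ha hb
      rcases ha with ha | ha <;> rcases hb with hb | hb
      · exact absurd (ha.symm.trans hb) hab1
      · rw [ha, hb]; exact ⟨pa1, pb1⟩
      · rw [ha, hb]; exact ⟨pb1, pa1⟩
      · exact absurd (ha.symm.trans hb) hab1
    have hp2 : ∀ i : Fin 3, i ≠ 0 → i ≠ 1 → i = 2 := by decide
    have pa2' := hp2 _ pa0 hpa.1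
    have pb2' := hp2 _ pb0 hpa.2
    exact hfin a0 b0 a2 b2 hab0 hab2 (fun h => pb2 (by rw [← h]; exact pa2'))
      (fun h => pb2 (by rw [← h]; exact pb2')) h0 h2

end Pool.Agent.SL
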