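import Pool.Agent.Helper16.SL.K0
import Pool.Agent.Helper16.SL.Line

/-!
# SixLines, block B8: the involution

PROOF. There is `n ≠ 0` over `k` with `br (ℓ 0) (ℓ 1) n = br (ℓ 2) (ℓ 3) n = br (ℓ 4) (ℓ 5) n = 0` (the three linear forms are dependent). So `n = α ℓ0 + β ℓ1`, `α, β ≠ 0` (if `β = 0`,
`br (ℓ 2) (ℓ 3) (ℓ 0) = 0`). `qf g n = α β bf g (ℓ 0) (ℓ 1) ≠ 0`: (K0 of block B7) a form which vanishes at 5 of the `ℓ` and has `bf g (ℓ 0) (ℓ 1) = 0` is zero.
`M m = m - (bf g m n / qf g n) n`: `M * M = 1`, `M ℓ0 = - (β / α) ℓ1`, `M ℓ1 = - (α / β) ℓ0`, and the same for the other two pairs. `π = (01)(23)(45)`.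
-/

set_option autoImplicit false

namespace Pool.Agent.SL

universe u v

section

variable {k : Type u} [Field k]

/-- the linear form `bf g · n` -/
def wv (g : Fin 6 → k) (n : Fin 3 → k) : Fin 3 → k :=
  ![2 * g 0 * n 0 + g 4 * n 2 + g 5 * n 1, 2 * g 1 * n 1 + g 3 * n 2 + g 5 * n 0,
    2 * g 2 * n 2 + g 3 * n 1 + g 4 * n 0]

theorem wv_eq (g : Fin 6 → k) (m n : Fin 3 → k) :
    wv g n 0 * m 0 + wv g n 1 * m 1 + wv g n 2 * m 2 = bf g m n := by
  simp only [wv, bf, Matrix.cons_val]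
  ring

theorem bf_self (g : Fin 6 → k) (n : Fin 3 → k) : bf g n n = 2 * qf g n := by
  simp only [qf, bf]
  ring

/-- the reflection -/
noncomputable def rf (g : Fin 6 → k) (n : Fin 3 → k) : Matrix (Fin 3) (Fin 3) k :=
  1 - (qf g n)⁻¹ • Matrix.vecMulVec n (wv g n)

theorem rf_mulVec (g : Fin 6 → k) (n m : Fin 3 → k) :
    (rf g n).mulVec m = m - ((qf g n)⁻¹ * bf g m n) • n := by
  unfold rf
  rw [Matrix.sub_mulVec, Matrix.one_mulVec, Matrix.smul_mulVec, ← wv_eq]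
  congr 1
  funext i
  simp only [Matrix.mulVec, dotProduct, Matrix.vecMulVec_apply, Fin.sum_univ_three, Pi.smul_apply,
    smul_eq_mul]
  ring

theorem rf_mul (g : Fin 6 → k) (n : Fin 3 → k) (hq : qf g n ≠ 0) : rf g n * rf g n = 1 := by
  have h1 : ∀ m, (rf g n * rf g n).mulVec m = m := by
    intro m
    rw [← Matrix.mulVec_mulVec, rf_mulVec, rf_mulVec]
    have h2 : bf g (m - ((qf g n)⁻¹ * bf g m n) • n) n = -bf g m n := by
      have h3 : bf g (m - ((qf g n)⁻¹ * bf g m n) • n) n =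
          bf g m n - (qf g n)⁻¹ * bf g m n * bf g n n := by
        simp only [bf, Pi.sub_apply, Pi.smul_apply, smul_eq_mul]
        ring
      rw [h3, bf_self]
      field_simp
      ring
    rw [h2]
    funext i
    simp only [Pi.sub_apply, Pi.smul_apply, smul_eq_mul]
    ring
  ext i j
  have h2 := congrFun (h1 (Pi.single j 1)) i
  rw [Matrix.mulVec_single_one] at h2
  rw [Matrix.one_apply]
  simp only [Matrix.col_apply, Pi.single_apply] at h2
  exact h2

theorem rf_pair (g : Fin 6 → k) (a b e n : Fin 3 → k) (ha : qf g a = 0) (hb : qf g b = 0)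
    (he : br a b e ≠ 0) (hn : br a b n = 0) (hq : qf g n ≠ 0) :
    ∃ c : k, (rf g n).mulVec a = c • b := by
  have h1 := qf_br g a b e n
  rw [ha, hb, hn] at h1
  have h2 : br n b e ≠ 0 := by
    intro h
    rw [h] at h1
    have h3 : br a b e ^ 2 * qf g n = 0 := by rw [h1]; ring
    exact mul_ne_zero (pow_ne_zero 2 he) hq h3
  have h4 : ∀ i, br a b e * n i = br n b e * a i + br a n e * b i := by
    intro i
    rw [br_smul, hn, zero_mul, add_zero]
  have h5 : br a b e * bf g a n = br a n e * bf g a b := by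
    have h6 : br a b e * bf g a n = bf g a fun i => br a b e * n i := by
      simp only [bf]
      ring
    have h7 : (fun i => br a b e * n i) = fun i => br n b e * a i + br a n e * b i := funext h4
    rw [h6, h7]
    have h8 : bf g a (fun i => br n b e * a i + br a n e * b i) =
        br n b e * (2 * qf g a) + br a n e * bf g a b := by
      simp only [bf, qf]
      ring
    rw [h8, ha]
    ring
  refine ⟨-(br a n e / br n b e), ?_⟩
  rw [rf_mulVec]
  funext i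
  simp only [Pi.sub_apply, Pi.smul_apply, smul_eq_mul]
  have h9 : br a b e ^ 2 * qf g n = br n b e * (br a n e * bf g a b) := by rw [h1]; ring
  rw [← h5] at h9
  have h10 : br a b e * qf g n = br n b e * bf g a n := by
    have : br a b e * (br a b e * qf g n) = br a b e * (br n b e * bf g a n) := by
      linear_combination h9
    exact mul_left_cancel₀ he this
  have h11 : (qf g n)⁻¹ * bf g a n = br a b e / br n b e := by
    rw [inv_mul_eq_div, div_eq_div_iff hq h2]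
    linear_combination -h10
  rw [h11, div_mul_eq_mul_div, h4, neg_mul, div_mul_eq_mul_div, sub_eq_iff_eq_add, ← neg_div, ← add_div,
    eq_div_iff h2]
  ring

end

theorem refl {k : Type u} [Field k] [CharZero k] (ℓ : Fin 6 → Fin 3 → k) (hℓ : GenPos ℓ)
    (g : Fin 6 → k) (hg0 : g ≠ 0) (hg : ∀ i, qf g (ℓ i) = 0)
    (hdep : br (cr (ℓ 0) (ℓ 1)) (cr (ℓ 2) (ℓ 3)) (cr (ℓ 4) (ℓ 5)) = 0) : Inv ℓ := by
  have hb : ∀ {a b c : Fin 6}, a ≠ b → a ≠ c → b ≠ c → br (ℓ a) (ℓ b) (ℓ c) ≠ 0 :=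
    fun h1 h2 h3 => br_of_genPos hℓ h1 h2 h3
  have h01 : bf g (ℓ 0) (ℓ 1) ≠ 0 := by
    intro h
    exact hg0 (K0 (ℓ 0) (ℓ 1) (ℓ 2) (ℓ 3) (ℓ 4) (hb (by decide) (by decide) (by decide))
      (hb (by decide) (by decide) (by decide)) (hb (by decide) (by decide) (by decide))
      (hb (by decide) (by decide) (by decide)) (hb (by decide) (by decide) (by decide)) g (hg 0) (hg 1)
      (hg 2) (hg 3) (hg 4) h)
  set n : Fin 3 → k := cr (cr (ℓ 0) (ℓ 1)) (cr (ℓ 2) (ℓ 3)) with hn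
  have hn1 : n = fun i => br (ℓ 0) (ℓ 2) (ℓ 3) * ℓ 1 i + -br (ℓ 1) (ℓ 2) (ℓ 3) * ℓ 0 i := by
    rw [hn]
    funext i
    fin_cases i <;> simp [cr, br] <;> ring
  have hq : qf g n ≠ 0 := by
    have h1 : qf g n = br (ℓ 0) (ℓ 2) (ℓ 3) ^ 2 * qf g (ℓ 1) + br (ℓ 1) (ℓ 2) (ℓ 3) ^ 2 * qf g (ℓ 0) -
        br (ℓ 0) (ℓ 2) (ℓ 3) * br (ℓ 1) (ℓ 2) (ℓ 3) * bf g (ℓ 0) (ℓ 1) := by
      rw [hn1]
      generalize br (ℓ 0) (ℓ 2) (ℓ 3) = α
      generalize br (ℓ 1) (ℓ 2) (ℓ 3) = β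
      simp only [qf, bf]
      ring
    rw [h1, hg, hg, mul_zero, mul_zero, add_zero, zero_sub, neg_ne_zero]
    exact mul_ne_zero (mul_ne_zero (hb (by decide) (by decide) (by decide))
      (hb (by decide) (by decide) (by decide))) h01
  have b01 : br (ℓ 0) (ℓ 1) n = 0 := by
    rw [hn]; simp only [br, cr, Matrix.cons_val]; ring
  have b23 : br (ℓ 2) (ℓ 3) n = 0 := by
    rw [hn]; simp only [br, cr, Matrix.cons_val]; ring
  have b45 : br (ℓ 4) (ℓ 5) n = 0 := by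
    rw [← hdep, hn]; simp only [br, cr, Matrix.cons_val]; ring
  have hsw : ∀ a b : Fin 3 → k, br a b n = 0 → br b a n = 0 := by
    intro a b h
    rw [br_swap, h, neg_zero]
  refine ⟨rf g n, ![1, 0, 3, 2, 5, 4], rf_mul g n hq, ?_⟩
  intro i
  refine ⟨?_, ?_, ?_⟩
  · fin_cases i <;> decide
  · fin_cases i <;> rfl
  · fin_cases i
    · exact rf_pair g (ℓ 0) (ℓ 1) (ℓ 2) n (hg 0) (hg 1) (hb (by decide) (by decide) (by decide)) b01 hq
    · exact rf_pair g (ℓ 1) (ℓ 0) (ℓ 2) n (hg 1) (hg 0) (hb (by decide) (by decide) (by decide))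
        (hsw _ _ b01) hq
    · exact rf_pair g (ℓ 2) (ℓ 3) (ℓ 0) n (hg 2) (hg 3) (hb (by decide) (by decide) (by decide)) b23 hq
    · exact rf_pair g (ℓ 3) (ℓ 2) (ℓ 0) n (hg 3) (hg 2) (hb (by decide) (by decide) (by decide))
        (hsw _ _ b23) hq
    · exact rf_pair g (ℓ 4) (ℓ 5) (ℓ 0) n (hg 4) (hg 5) (hb (by decide) (by decide) (by decide)) b45 hq
    · exact rf_pair g (ℓ 5) (ℓ 4) (ℓ 0) n (hg 5) (hg 4) (hb (by decide) (by decide) (by decide))
        (hsw _ _ b45) hq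

end Pool.Agent.SL
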