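import Pool.Agent.Helper16.SL.Pairs
import Pool.Agent.Helper16.SL.Line
import Pool.Agent.Helper16.SL.Conic
import Pool.Agent.Helper16.SL.Refl

/-!
# SixLines: the algebraic core
-/

set_option autoImplicit false

namespace Pool.Agent.SL

universe u v

variable {k : Type u} {Ω : Type v} [Field k] [Field Ω] [Algebra k Ω]

theorem core [CharZero k] (D : Dat k Ω) {q : ℕ} (hq : 6 ≤ q) (ℓ : Fin q → Fin 3 → k) (hℓ : GenPos ℓ)
    (hinv : q = 6 → ¬ Inv ℓ) (x x' : Fin 3 → Ω) (hx0 : x 0 = 1)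
    (hR : ∀ i j, x i * x' j + x j * x' i ∈ D.R) (hu : ∀ i, D.U (lin (ℓ i) x * lin (ℓ i) x')) :
    ∃ P : MvPolynomial (Fin 2) k, P ≠ 0 ∧ MvPolynomial.aeval ![x 1, x 2] P = 0 := by
  by_contra hcon
  push Not at hcon
  obtain ⟨e, ⟨c, hc0, hc⟩, hI⟩ := pairs D hq ℓ hℓ x x' hx0 hu hcon
  have hq6 : q = 6 := by
    have := Fintype.card_congr e
    rw [Fintype.card_fin, Fintype.card_fin] at this
    exact this.symm
  have hℓe : GenPos fun i => ℓ (e i) := fun f hf => hℓ (fun i => e (f i)) (e.injective.comp hf)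
  by_cases hn : ∀ g : Fin 6 → k, (∀ i, qf g (ℓ (e i)) = 0) → g = 0
  · obtain ⟨n, hn0, hnx⟩ := line D (fun i => ℓ (e i)) hℓe hn x x' (fun i => hu (e i)) c hc0 hc hI
    refine hcon (MvPolynomial.C (n 0) + MvPolynomial.C (n 1) * MvPolynomial.X 0 +
      MvPolynomial.C (n 2) * MvPolynomial.X 1) ?_ ?_
    · intro h
      apply hn0
      have h0 := congrArg (MvPolynomial.aeval (![0, 0] : Fin 2 → k)) h
      have h1 := congrArg (MvPolynomial.aeval (![1, 0] : Fin 2 → k)) h
      have h2 := congrArg (MvPolynomial.aeval (![0, 1] : Fin 2 → k)) h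
      simp at h0 h1 h2
      funext i
      fin_cases i
      · exact h0
      · simpa [h0] using h1
      · simpa [h0] using h2
    · rw [← hnx]
      unfold lin
      rw [Fin.sum_univ_three, hx0]
      simp
  · push Not at hn
    obtain ⟨g, hg, hg0⟩ := hn
    by_cases hdep : br (cr (ℓ (e 0)) (ℓ (e 1))) (cr (ℓ (e 2)) (ℓ (e 3))) (cr (ℓ (e 4)) (ℓ (e 5))) = 0
    · apply hinv hq6
      obtain ⟨M, π, hM, hπ⟩ := refl (fun i => ℓ (e i)) hℓe g hg0 hg hdep
      refine ⟨M, fun i => e (π (e.symm i)), hM, fun i => ?_⟩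
      obtain ⟨h1, h2, c', h3⟩ := hπ (e.symm i)
      refine ⟨?_, ?_, c', ?_⟩
      · intro h
        apply h1
        apply e.injective
        rw [Equiv.apply_symm_apply]
        exact h
      · simp only [Equiv.symm_apply_apply, h2, Equiv.apply_symm_apply]
      · simpa only [Equiv.apply_symm_apply] using h3
    · exact conic D (fun i => ℓ (e i)) hℓe g hg0 hg hdep x x' hR (fun i => hu (e i)) c hc0 hc hI

end Pool.Agent.SL
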