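import Pool.Agent.Helper16.SL.Rank
import Pool.Agent.Helper16.SL.Comb

/-!
# SixLines, block B5: three pairs

PROOF. Let `N` be the group of the `n : Fin q → ℤ` with `∑ n = 0` and `∏ u_i ^ n_i` in `k`, `W` the space of the `φ : Fin q → ℚ` orthogonal to it.
`argmin` is the hypothesis `hmin` of `comb`. `dim W ≥ 3`: let `i, j, l` be as in `rank`; the map `W → ℚ³`, `φ ↦ (φ i, φ j, φ l)` is
surjective: otherwise some `(a, b, c) ≠ 0` in `ℤ³` has `a φ i + b φ j + c φ l = 0` on `W`, `a + b + c = 0` as `1 ∈ W`, so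
`a e_i + b e_j + c e_l` is in the double orthogonal of `N`, which is the `ℚ`-span of `N` (dot product on `Fin q → ℚ`); a multiple `M ≥ 1` of it is in
`N`: `(u_i/u_l)^(M a) (u_j/u_l)^(M b)` is in `k`, contradiction. So `comb` gives `e`. Then `e_{e0} - e_{e1}` is in the double orthogonal
of `N`, so `(u_{e0}/u_{e1})^M` is in `k`, so `u_{e0}/u_{e1}` is (`D.root`). If `(u_{e0}/u_{e4})^m (u_{e2}/u_{e4})^n` is in `k` then the vector
`m e_{e0} + n e_{e2} - (m + n) e_{e4}` is in `N`, orthogonal to all `φ` constant on the pairs, so `m = n = 0`.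
-/

set_option autoImplicit false

namespace Pool.Agent.SL

universe u v

variable {k : Type u} {Ω : Type v} [Field k] [Field Ω] [Algebra k Ω]

theorem Cst.pairsMul {x y : Ω} (hx : Cst k x) (hy : Cst k y) : Cst k (x * y) := by
  obtain ⟨a, rfl⟩ := hx
  obtain ⟨b, rfl⟩ := hy
  exact ⟨a * b, (map_mul _ _ _).symm⟩

theorem Cst.pairsInv {x : Ω} (hx : Cst k x) : Cst k x⁻¹ := by
  obtain ⟨a, rfl⟩ := hx
  exact ⟨a⁻¹, (map_inv₀ _ _).symm⟩

theorem Cst.pairsOne : Cst k (1 : Ω) := ⟨1, (map_one _).symm⟩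

/-- The relations of degree zero between the `u i`, modulo constants. -/
def pairsRel (k : Type u) {Ω : Type v} [Field k] [Field Ω] [Algebra k Ω] {q : ℕ} (w : Fin q → Ω) (hw : ∀ i, w i ≠ 0) :
    AddSubgroup (Fin q → ℤ) where
  carrier := {n | ∑ i, n i = 0 ∧ Cst k (∏ i, w i ^ n i)}
  zero_mem' := ⟨by simp, by simpa using Cst.pairsOne⟩
  add_mem' := by
    rintro a b ⟨ha, ha'⟩ ⟨hb, hb'⟩
    refine ⟨?_, ?_⟩
    · simp only [Pi.add_apply, Finset.sum_add_distrib, ha, hb, add_zero]
    · have : ∏ i, w i ^ (a + b) i = (∏ i, w i ^ a i) * ∏ i, w i ^ b i := by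
        rw [← Finset.prod_mul_distrib]
        exact Finset.prod_congr rfl fun i _ => zpow_add₀ (hw i) _ _
      rw [this]
      exact ha'.pairsMul hb'
  neg_mem' := by
    rintro a ⟨ha, ha'⟩
    refine ⟨?_, ?_⟩
    · simp only [Pi.neg_apply, Finset.sum_neg_distrib, ha, neg_zero]
    · have : ∏ i, w i ^ (-a) i = (∏ i, w i ^ a i)⁻¹ := by
        rw [← Finset.prod_inv_distrib]
        exact Finset.prod_congr rfl fun i _ => zpow_neg _ _
      rw [this]
      exact ha'.pairsInv

/-- The orthogonal space of the relations. -/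
def pairsOrth {q : ℕ} (N : AddSubgroup (Fin q → ℤ)) : Submodule ℚ (Fin q → ℚ) where
  carrier := {φ | ∀ n ∈ N, ∑ i, (n i : ℚ) * φ i = 0}
  zero_mem' := fun n _ => by simp
  add_mem' := by
    intro a b ha hb n hn
    simp only [Pi.add_apply, mul_add, Finset.sum_add_distrib, ha n hn, hb n hn, add_zero]
  smul_mem' := by
    intro c a ha n hn
    have : ∑ i, (n i : ℚ) * (c • a) i = c * ∑ i, (n i : ℚ) * a i := by
      rw [Finset.mul_sum]
      refine Finset.sum_congr rfl fun i _ => ?_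
      rw [Pi.smul_apply, smul_eq_mul]
      ring
    rw [this, ha n hn, mul_zero]

theorem pairsSpan {q : ℕ} (N : AddSubgroup (Fin q → ℤ)) (x : Fin q → ℚ)
    (hx : x ∈ Submodule.span ℚ {y : Fin q → ℚ | ∃ n ∈ N, ∀ i, y i = (n i : ℚ)}) :
    ∃ M : ℤ, M ≠ 0 ∧ ∃ n ∈ N, ∀ i, (n i : ℚ) = M * x i := by
  induction hx using Submodule.span_induction with
  | mem y hy =>
    obtain ⟨n, hn, h⟩ := hy
    exact ⟨1, one_ne_zero, n, hn, fun i => by rw [h i]; simp⟩
  | zero => exact ⟨1, one_ne_zero, 0, N.zero_mem, fun i => by simp⟩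
  | add y z _ _ hy hz =>
    obtain ⟨M, hM, n, hn, h⟩ := hy
    obtain ⟨M', hM', n', hn', h'⟩ := hz
    refine ⟨M * M', mul_ne_zero hM hM', M' • n + M • n', N.add_mem (N.zsmul_mem hn _) (N.zsmul_mem hn' _), fun i => ?_⟩
    rw [Pi.add_apply, Pi.smul_apply, Pi.smul_apply, smul_eq_mul, smul_eq_mul, Pi.add_apply]
    push_cast
    rw [h i, h' i]
    ring
  | smul a y _ hy =>
    obtain ⟨M, hM, n, hn, h⟩ := hy
    refine ⟨M * a.den, mul_ne_zero hM (by exact_mod_cast a.den_ne_zero), a.num • n, N.zsmul_mem hn _, fun i => ?_⟩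
    rw [Pi.smul_apply, smul_eq_mul, Pi.smul_apply, smul_eq_mul]
    push_cast
    rw [h i]
    have h1 : (a.num : ℚ) = a * a.den := (Rat.mul_den_eq_num a).symm
    rw [h1]
    ring

/-- A vector orthogonal to `pairsOrth N` has a multiple in `N`. -/
theorem pairsDbl {q : ℕ} (N : AddSubgroup (Fin q → ℤ)) (x : Fin q → ℚ)
    (hx : ∀ φ ∈ pairsOrth N, ∑ i, x i * φ i = 0) :
    ∃ M : ℤ, M ≠ 0 ∧ ∃ n ∈ N, ∀ i, (n i : ℚ) = M * x i := by
  classical
  apply pairsSpan
  by_contra hcon
  obtain ⟨f, hf1, hf2⟩ := Submodule.exists_le_ker_of_notMem hcon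
  apply hf1
  have hf : ∀ y : Fin q → ℚ, f y = ∑ i, y i * f (Pi.single i 1) := by
    intro y
    conv_lhs => rw [← Finset.univ_sum_single y]
    rw [map_sum]
    refine Finset.sum_congr rfl fun i _ => ?_
    have : (Pi.single i (y i) : Fin q → ℚ) = y i • Pi.single i 1 := by
      rw [← Pi.single_smul, smul_eq_mul, mul_one]
    rw [this, map_smul, smul_eq_mul]
  rw [hf]
  apply hx
  intro n hn
  have h0 : (fun i => (n i : ℚ)) ∈ {y : Fin q → ℚ | ∃ n ∈ N, ∀ i, y i = (n i : ℚ)} :=
    ⟨n, hn, fun i => rfl⟩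
  have h1 := hf2 (Submodule.subset_span h0)
  rw [LinearMap.mem_ker, hf] at h1
  exact h1

theorem pairs (D : Dat k Ω) {q : ℕ} (hq : 6 ≤ q) (ℓ : Fin q → Fin 3 → k) (hℓ : GenPos ℓ)
    (x x' : Fin 3 → Ω) (hx0 : x 0 = 1) (hu : ∀ i, D.U (lin (ℓ i) x * lin (ℓ i) x'))
    (hgen : ∀ P : MvPolynomial (Fin 2) k, P ≠ 0 → MvPolynomial.aeval ![x 1, x 2] P ≠ 0) :
    ∃ e : Fin 6 ≃ Fin q, (∃ c : Fin 6 → k, (∀ i, c i ≠ 0) ∧
      ∀ i, lin (ℓ (e i)) x * lin (ℓ (e i)) x' = algebraMap k Ω (c i) *
        (lin (ℓ (e (![0, 0, 2, 2, 4, 4] i))) x * lin (ℓ (e (![0, 0, 2, 2, 4, 4] i))) x')) ∧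
      ∀ m n : ℤ, Cst k
        (((lin (ℓ (e 0)) x * lin (ℓ (e 0)) x') / (lin (ℓ (e 4)) x * lin (ℓ (e 4)) x')) ^ m *
          ((lin (ℓ (e 2)) x * lin (ℓ (e 2)) x') / (lin (ℓ (e 4)) x * lin (ℓ (e 4)) x')) ^ n) →
        m = 0 ∧ n = 0 := by
  classical
  set w : Fin q → Ω := fun i => lin (ℓ i) x * lin (ℓ i) x' with hw
  have hw0 : ∀ i, w i ≠ 0 := fun i => (hu i).1
  set N := pairsRel k w hw0 with hN
  -- the special relations
  have hspec : ∀ (i j l : Fin q) (m n : ℤ),
      ∏ t, w t ^ (m • Pi.single i 1 + n • Pi.single j 1 - (m + n) • Pi.single l 1 : Fin q → ℤ) t =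
        (w i / w l) ^ m * (w j / w l) ^ n := by
    intro i j l m n
    have h1 : ∀ (i : Fin q) (m : ℤ), ∏ t, w t ^ (m • Pi.single i 1 : Fin q → ℤ) t = w i ^ m := by
      intro i m
      rw [Finset.prod_eq_single i]
      · simp
      · intro j _ hj
        simp [Pi.single_eq_of_ne hj]
      · intro h
        exact absurd (Finset.mem_univ _) h
    have h2 : ∏ t, w t ^ (m • Pi.single i 1 + n • Pi.single j 1 - (m + n) • Pi.single l 1 : Fin q → ℤ) t =
        (∏ t, w t ^ (m • Pi.single i 1 : Fin q → ℤ) t) * (∏ t, w t ^ (n • Pi.single j 1 : Fin q → ℤ) t) /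
          ∏ t, w t ^ ((m + n) • Pi.single l 1 : Fin q → ℤ) t := by
      rw [← Finset.prod_mul_distrib, ← Finset.prod_div_distrib]
      refine Finset.prod_congr rfl fun t _ => ?_
      rw [Pi.sub_apply, Pi.add_apply, zpow_sub₀ (hw0 t), zpow_add₀ (hw0 t)]
    rw [h2, h1, h1, h1, div_zpow, div_zpow, zpow_add₀ (hw0 l)]
    rw [div_mul_div_comm]
  have hsum : ∀ (i j l : Fin q) (m n : ℤ),
      ∑ t, (m • Pi.single i 1 + n • Pi.single j 1 - (m + n) • Pi.single l 1 : Fin q → ℤ) t = 0 := by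
    intro i j l m n
    have h1 : ∀ (i : Fin q) (m : ℤ), ∑ t, (m • Pi.single i 1 : Fin q → ℤ) t = m := by
      intro i m
      rw [Finset.sum_eq_single i]
      · simp
      · intro j _ hj
        simp [Pi.single_eq_of_ne hj]
      · intro h
        exact absurd (Finset.mem_univ _) h
    simp only [Pi.sub_apply, Pi.add_apply, Finset.sum_sub_distrib, Finset.sum_add_distrib]
    rw [h1, h1, h1]
    ring
  have hmem : ∀ (i j l : Fin q) (m n : ℤ), Cst k ((w i / w l) ^ m * (w j / w l) ^ n) →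
      (m • Pi.single i 1 + n • Pi.single j 1 - (m + n) • Pi.single l 1 : Fin q → ℤ) ∈ N := by
    intro i j l m n h
    exact ⟨hsum i j l m n, by rw [hspec]; exact h⟩
  have hdot : ∀ (i : Fin q) (a : ℚ) (φ : Fin q → ℚ), ∑ t, (a • Pi.single i 1 : Fin q → ℚ) t * φ t = a * φ i := by
    intro i a φ
    rw [Finset.sum_eq_single i]
    · simp
    · intro j _ hj
      simp [Pi.single_eq_of_ne hj]
    · intro h
      exact absurd (Finset.mem_univ _) h
  -- the space
  set W := pairsOrth N with hW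
  have h1 : (fun _ => (1 : ℚ)) ∈ W := by
    intro n hn
    have : ∑ i, (n i : ℚ) * (1 : ℚ) = ((∑ i, n i : ℤ) : ℚ) := by push_cast; simp
    rw [this, hn.1, Int.cast_zero]
  have hmin : ∀ φ ∈ W, ∃ I : Finset (Fin q), q ≤ I.card + 4 ∧ ∀ i ∈ I, ∀ j, φ i ≤ φ j := by
    intro φ hφ
    exact argmin D (by omega) ℓ hℓ x x' hu φ fun n hn hc => hφ n ⟨hn, hc⟩
  have h3 : 3 ≤ Module.finrank ℚ W := by
    obtain ⟨i, j, l, hijl⟩ := rank D (by omega) ℓ hℓ x x' hx0 hu hgen
    let f : W →ₗ[ℚ] (Fin 3 → ℚ) :=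
      LinearMap.pi ![(LinearMap.proj i).comp W.subtype, (LinearMap.proj j).comp W.subtype,
        (LinearMap.proj l).comp W.subtype]
    have hf0 : ∀ φ : W, f φ 0 = φ.1 i := fun φ => rfl
    have hf1 : ∀ φ : W, f φ 1 = φ.1 j := fun φ => rfl
    have hf2 : ∀ φ : W, f φ 2 = φ.1 l := fun φ => rfl
    have hsurj : LinearMap.range f = ⊤ := by
      by_contra hcon
      obtain ⟨g, hg1, hg2⟩ := Submodule.exists_le_ker_of_lt_top _ (lt_top_iff_ne_top.mpr hcon)
      have hg : ∀ y : Fin 3 → ℚ, g y = g (Pi.single 0 1) * y 0 + g (Pi.single 1 1) * y 1 + g (Pi.single 2 1) * y 2 := by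
        intro y
        conv_lhs => rw [← Finset.univ_sum_single y]
        rw [map_sum, Fin.sum_univ_three]
        have h2 : ∀ i, g (Pi.single i (y i)) = g (Pi.single i 1) * y i := by
          intro i
          have : (Pi.single i (y i) : Fin 3 → ℚ) = y i • Pi.single i 1 := by
            rw [← Pi.single_smul, smul_eq_mul, mul_one]
          rw [this, map_smul, smul_eq_mul, mul_comm]
        rw [h2, h2, h2]
      set a := g (Pi.single 0 1) with ha
      set b := g (Pi.single 1 1) with hb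
      set c := g (Pi.single 2 1) with hc
      have hrel : ∀ φ ∈ W, a * φ i + b * φ j + c * φ l = 0 := by
        intro φ hφ
        have h2 := hg2 (LinearMap.mem_range_self f ⟨φ, hφ⟩)
        rw [LinearMap.mem_ker, hg, hf0, hf1, hf2] at h2
        exact h2
      have habc : a + b + c = 0 := by
        have := hrel _ h1
        simpa using this
      obtain ⟨M, hM, n, hn, hnM⟩ := pairsDbl N (a • Pi.single i 1 + b • Pi.single j 1 + c • Pi.single l 1) (by
        intro φ hφ
        simp only [Pi.add_apply, add_mul, Finset.sum_add_distrib]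
        rw [hdot, hdot, hdot]
        exact hrel φ hφ)
      -- distinctness
      have hil : i ≠ l := by
        rintro rfl
        have := hijl 1 0 (by
          rw [div_self (hw0 i), one_zpow, zpow_zero, one_mul]
          exact Cst.pairsOne)
        exact one_ne_zero this.1
      have hjl : j ≠ l := by
        rintro rfl
        have := hijl 0 1 (by
          rw [div_self (hw0 j), one_zpow, zpow_zero, one_mul]
          exact Cst.pairsOne)
        exact one_ne_zero this.2
      have hij : i ≠ j := by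
        rintro rfl
        have := hijl 1 (-1) (by
          rw [← zpow_add₀ (div_ne_zero (hw0 i) (hw0 l)), add_neg_cancel, zpow_zero]
          exact Cst.pairsOne)
        exact one_ne_zero this.1
      have e1 : (n i : ℚ) = M * a := by
        rw [hnM i]
        simp [Pi.single_eq_of_ne hij, Pi.single_eq_of_ne hil]
      have e2 : (n j : ℚ) = M * b := by
        rw [hnM j]
        simp [Pi.single_eq_of_ne hij.symm, Pi.single_eq_of_ne hjl]
      have e3 : n = n i • Pi.single i 1 + n j • Pi.single j 1 - (n i + n j) • Pi.single l 1 := by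
        funext t
        have : (n t : ℚ) = ((n i • Pi.single i 1 + n j • Pi.single j 1 - (n i + n j) • Pi.single l 1 : Fin q → ℤ) t : ℚ) := by
          rw [hnM t]
          have hc' : c = -a - b := by linarith
          simp only [Pi.add_apply, Pi.sub_apply, Pi.smul_apply, smul_eq_mul, Pi.single_apply]
          push_cast
          rw [e1, e2, hc']
          split_ifs <;> ring
        exact_mod_cast this
      have e4 : Cst k ((w i / w l) ^ n i * (w j / w l) ^ n j) := by
        rw [← hspec, ← e3]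
        exact hn.2
      obtain ⟨h5, h6⟩ := hijl _ _ e4
      rw [h5, Int.cast_zero] at e1
      rw [h6, Int.cast_zero] at e2
      have hM' : (M : ℚ) ≠ 0 := by exact_mod_cast hM
      have ha0 : a = 0 := by
        rcases mul_eq_zero.mp e1.symm with h | h
        · exact absurd h hM'
        · exact h
      have hb0 : b = 0 := by
        rcases mul_eq_zero.mp e2.symm with h | h
        · exact absurd h hM'
        · exact h
      have hc0 : c = 0 := by rw [ha0, hb0] at habc; linarith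
      apply hg1
      apply LinearMap.ext
      intro y
      rw [hg, ha0, hb0, hc0]
      simp
    have h4 := LinearMap.finrank_range_add_finrank_ker f
    rw [hsurj, finrank_top] at h4
    have h5 : Module.finrank ℚ (Fin 3 → ℚ) = 3 := by simp
    omega
  obtain ⟨e, he⟩ := comb hq W h1 hmin h3
  -- quotients of the pairs
  have hpair : ∀ i j : Fin q, (∀ φ ∈ W, φ i = φ j) → Cst k (w i / w j) := by
    intro i j hφ
    obtain ⟨M, hM, n, hn, hnM⟩ := pairsDbl N ((1 : ℚ) • Pi.single i 1 + (-1 : ℚ) • Pi.single j 1) (by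
      intro φ hφ'
      simp only [Pi.add_apply, add_mul, Finset.sum_add_distrib]
      rw [hdot, hdot, hφ φ hφ']
      ring)
    have e3 : n = M • Pi.single i 1 + (0 : ℤ) • Pi.single i 1 - (M + 0) • Pi.single j 1 := by
      funext t
      have : (n t : ℚ) = ((M • Pi.single i 1 + (0 : ℤ) • Pi.single i 1 - (M + 0) • Pi.single j 1 : Fin q → ℤ) t : ℚ) := by
        rw [hnM t]
        simp only [Pi.add_apply, Pi.sub_apply, Pi.smul_apply, smul_eq_mul, Pi.single_apply]
        push_cast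
        split_ifs <;> ring
      exact_mod_cast this
    have e4 : Cst k ((w i / w j) ^ M) := by
      have h5 := hn.2
      rw [e3, hspec, zpow_zero, mul_one] at h5
      exact h5
    have hmemR : ∀ i j : Fin q, w i / w j ∈ D.R := by
      intro i j
      rw [div_eq_mul_inv]
      exact D.R.mul_mem (hu i).2.1 (hu j).2.2
    rcases lt_or_gt_of_ne hM with hM' | hM'
    · obtain ⟨m, hm⟩ : ∃ m : ℕ, M = -(m : ℤ) := ⟨M.natAbs, by omega⟩
      have hm0 : 0 < m := by omega
      rw [hm, zpow_neg, zpow_natCast] at e4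
      obtain ⟨a, ha⟩ := e4.pairsInv
      rw [inv_inv] at ha
      exact D.root _ (hmemR i j) m hm0 a ha
    · obtain ⟨m, hm⟩ : ∃ m : ℕ, M = (m : ℤ) := ⟨M.natAbs, by omega⟩
      have hm0 : 0 < m := by omega
      rw [hm, zpow_natCast] at e4
      obtain ⟨a, ha⟩ := e4
      exact D.root _ (hmemR i j) m hm0 a ha
  refine ⟨e, ?_, ?_⟩
  · have hc : ∀ i : Fin 6, Cst k (w (e i) / w (e (![0, 0, 2, 2, 4, 4] i))) := by
      intro i
      apply hpair
      intro φ hφ
      obtain ⟨h5, h6, h7⟩ := (he φ).mp hφ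
      fin_cases i
      · rfl
      · exact h5.symm
      · rfl
      · exact h6.symm
      · rfl
      · exact h7.symm
    choose c hc using hc
    have hc' : ∀ i, w (e i) = algebraMap k Ω (c i) * w (e (![0, 0, 2, 2, 4, 4] i)) := by
      intro i
      rw [← hc i, div_mul_cancel₀ _ (hw0 _)]
    refine ⟨c, fun i h0 => ?_, hc'⟩
    have := hc' i
    rw [h0, map_zero, zero_mul] at this
    exact hw0 _ this
  · intro m n hmn
    have h5 := hmem (e 0) (e 2) (e 4) m n hmn
    have hval : ∀ φ ∈ W, (m : ℚ) * φ (e 0) + n * φ (e 2) - (m + n) * φ (e 4) = 0 := by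
      intro φ hφ
      have h6 := hφ _ h5
      have h7 : ∑ t, ((m • Pi.single (e 0) 1 + n • Pi.single (e 2) 1 - (m + n) • Pi.single (e 4) 1 : Fin q → ℤ) t : ℚ) * φ t =
          ∑ t, ((m : ℚ) • Pi.single (e 0) 1 : Fin q → ℚ) t * φ t + ∑ t, ((n : ℚ) • Pi.single (e 2) 1 : Fin q → ℚ) t * φ t -
            ∑ t, (((m : ℚ) + n) • Pi.single (e 4) 1 : Fin q → ℚ) t * φ t := by
        rw [← Finset.sum_add_distrib, ← Finset.sum_sub_distrib]
        refine Finset.sum_congr rfl fun t _ => ?_
        simp only [Pi.add_apply, Pi.sub_apply, Pi.smul_apply, smul_eq_mul, Pi.single_apply]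
        push_cast
        split_ifs <;> ring
      rw [h7, hdot, hdot, hdot] at h6
      exact h6
    have hφ1 : ∀ a b : ℚ, (fun t => ![a, a, b, b, 0, 0] (e.symm t)) ∈ W := by
      intro a b
      rw [he]
      simp
    have h8 := hval _ (hφ1 1 0)
    have h9 := hval _ (hφ1 0 1)
    simp at h8 h9
    exact ⟨h8, h9⟩

end Pool.Agent.SL
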