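import Pool.Agent.Helper16.SL.Defs

/-!
# SixLines: quadratic forms in three variables

A quadratic form is given by its coefficients `g : Fin 6 → F` at `m0², m1², m2², m1 m2, m0 m2, m0 m1`.
-/

set_option autoImplicit false

namespace Pool.Agent.SL

variable {F : Type*} [CommRing F]

/-- The value at `m`. -/
def qf (g : Fin 6 → F) (m : Fin 3 → F) : F :=
  g 0 * m 0 ^ 2 + g 1 * m 1 ^ 2 + g 2 * m 2 ^ 2 + g 3 * (m 1 * m 2) + g 4 * (m 0 * m 2) + g 5 * (m 0 * m 1)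

/-- The polar form. -/
def bf (g : Fin 6 → F) (m m' : Fin 3 → F) : F :=
  2 * g 0 * (m 0 * m' 0) + 2 * g 1 * (m 1 * m' 1) + 2 * g 2 * (m 2 * m' 2) +
    g 3 * (m 1 * m' 2 + m 2 * m' 1) + g 4 * (m 0 * m' 2 + m 2 * m' 0) + g 5 * (m 0 * m' 1 + m 1 * m' 0)

/-- The discriminant (half of the determinant of the matrix of the polar form). -/
def dt (g : Fin 6 → F) : F :=
  4 * g 0 * g 1 * g 2 + g 3 * g 4 * g 5 - g 0 * g 3 ^ 2 - g 1 * g 4 ^ 2 - g 2 * g 5 ^ 2

/-- The product of the linear forms with coefficients `a` and `b`. -/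
def pr (a b : Fin 3 → F) : Fin 6 → F :=
  ![a 0 * b 0, a 1 * b 1, a 2 * b 2, a 1 * b 2 + a 2 * b 1, a 0 * b 2 + a 2 * b 0, a 0 * b 1 + a 1 * b 0]

/-- The determinant. -/
def br (a b c : Fin 3 → F) : F :=
  a 0 * (b 1 * c 2 - b 2 * c 1) - a 1 * (b 0 * c 2 - b 2 * c 0) + a 2 * (b 0 * c 1 - b 1 * c 0)

/-- The vector product. -/
def cr (a b : Fin 3 → F) : Fin 3 → F :=
  ![a 1 * b 2 - a 2 * b 1, a 2 * b 0 - a 0 * b 2, a 0 * b 1 - a 1 * b 0]

theorem dt_pr (a b : Fin 3 → F) : dt (pr a b) = 0 := by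
  simp only [dt, pr, Matrix.cons_val]
  ring

theorem dt_add_sub (a b : Fin 3 → F) (g : Fin 6 → F) :
    dt (pr a b + g) - dt (pr a b - g) = 2 * dt g - 2 * qf g (cr a b) := by
  simp only [dt, pr, qf, cr, Matrix.cons_val, Pi.add_apply, Pi.sub_apply]
  ring

theorem qf_pr (a b m : Fin 3 → F) :
    qf (pr a b) m = (a 0 * m 0 + a 1 * m 1 + a 2 * m 2) * (b 0 * m 0 + b 1 * m 1 + b 2 * m 2) := by
  simp only [pr, qf, Matrix.cons_val]
  ring

theorem qf_comb (g : Fin 6 → F) (a b c : Fin 3 → F) (α β γ : F) :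
    qf g (fun i => α * a i + β * b i + γ * c i) = α ^ 2 * qf g a + β ^ 2 * qf g b + γ ^ 2 * qf g c +
      α * β * bf g a b + β * γ * bf g b c + α * γ * bf g a c := by
  simp only [bf, qf]
  ring

theorem br_smul (a b c n : Fin 3 → F) (i : Fin 3) :
    br a b c * n i = br n b c * a i + br a n c * b i + br a b n * c i := by
  fin_cases i <;> simp [br] <;> ring

theorem gram (g : Fin 6 → F) (a b c : Fin 3 → F) :
    4 * qf g a * qf g b * qf g c + bf g a b * bf g b c * bf g a c - qf g a * bf g b c ^ 2 -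
      qf g b * bf g a c ^ 2 - qf g c * bf g a b ^ 2 = br a b c ^ 2 * dt g := by
  simp only [bf, qf, dt, br]
  ring

end Pool.Agent.SL
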