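import Pool.Agent.Helper16.SL.Argmin

/-!
# SixLines, block B3: the rank is at least two

PROOF. `integral`: let `K0` be the subfield of `Ω` generated by `k` and the `u_i / u_j`. If `x_a / ℓ_0(x)` is not algebraic over `K0`
there is a valuation ring `O ⊇ K0` of `Ω` which does not contain it (`Subring.exists_le_valuationSubring_of_isIntegrallyClosedIn`
for the integral closure of `K0`). In `O` all `u_i` have the same valuation; by `geo` for `x` and `x'` (`4 < q`) it is `s s'`, so all
`ℓ_i(x)` have valuation `s`, and `v (x_a) ≤ s = v(ℓ_0(x))`, contradiction.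
`rank`: if for all `i, j` there is `(m, n) ≠ 0` with `(u_i/u_0)^m (u_j/u_0)^n` in `k`: if all `u_i/u_0` are algebraic over `k` put
`K1 = k`, otherwise `K1 = k(u_b/u_0)` with `u_b/u_0` transcendental over `k`; then all `u_i/u_0` are algebraic over `K1` (in the relation for the pair
`(i, b)` one has `m ≠ 0`, as `(u_b/u_0)^n` is not in `k` for `n ≠ 0`). So `x_1 = (x_1/ℓ_0(x))/(x_0/ℓ_0(x))`, `x_2` are algebraic over `K1`,
which has transcendence degree at most 1 over `k`: they are algebraically dependent over `k`.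
-/

set_option autoImplicit false

namespace Pool.Agent.SL

universe u v

variable {k : Type u} {Ω : Type v} [Field k] [Field Ω] [Algebra k Ω]

open AlgebraicIndependent in
/-- algebraic closure of a set of germs -/
theorem mem_cl {s : Set Ω} {a : Ω} :
    a ∈ (matroid k Ω).closure s ↔ IsAlgebraic (Algebra.adjoin k s) a := by
  rw [matroid_closure_eq]
  exact Iff.rfl

open AlgebraicIndependent in
theorem cl_mul {s : Set Ω} {a b : Ω} (ha : a ∈ (matroid k Ω).closure s) (hb : b ∈ (matroid k Ω).closure s) :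
    a * b ∈ (matroid k Ω).closure s := by
  rw [mem_cl] at *
  exact ha.mul hb

open AlgebraicIndependent in
theorem cl_inv {s : Set Ω} {a : Ω} (ha : a ∈ (matroid k Ω).closure s) :
    a⁻¹ ∈ (matroid k Ω).closure s := by
  rw [mem_cl] at *
  exact IsAlgebraic.inv_iff.mpr ha

open AlgebraicIndependent in
theorem cl_div {s : Set Ω} {a b : Ω} (ha : a ∈ (matroid k Ω).closure s) (hb : b ∈ (matroid k Ω).closure s) :
    a / b ∈ (matroid k Ω).closure s := by
  rw [div_eq_mul_inv]
  exact cl_mul ha (cl_inv hb)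

open AlgebraicIndependent in
theorem cl_cst {s : Set Ω} {a : Ω} (ha : Cst k a) : a ∈ (matroid k Ω).closure s := by
  obtain ⟨c, rfl⟩ := ha
  rw [mem_cl]
  exact isAlgebraic_algebraMap (A := Ω) (algebraMap k (Algebra.adjoin k s) c)

open AlgebraicIndependent in
theorem cl_zpow {s : Set Ω} {a : Ω} (ha : a ∈ (matroid k Ω).closure s) (n : ℤ) :
    a ^ n ∈ (matroid k Ω).closure s := by
  have h : ∀ n : ℕ, a ^ n ∈ (matroid k Ω).closure s := by
    intro n
    induction n with
    | zero =>
      rw [pow_zero]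
      exact cl_cst ⟨1, by simp⟩
    | succ n ih =>
      rw [pow_succ]
      exact cl_mul ih ha
  cases n with
  | ofNat n => rw [Int.ofNat_eq_natCast, zpow_natCast]; exact h n
  | negSucc n => rw [zpow_negSucc]; exact cl_inv (h _)

open AlgebraicIndependent in
theorem cl_of_zpow {s : Set Ω} {a : Ω} (n : ℤ) (hn : n ≠ 0) (ha : a ^ n ∈ (matroid k Ω).closure s) :
    a ∈ (matroid k Ω).closure s := by
  have h : ∀ n : ℕ, n ≠ 0 → a ^ n ∈ (matroid k Ω).closure s → a ∈ (matroid k Ω).closure s := by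
    intro n hn h
    rw [mem_cl] at *
    exact IsAlgebraic.of_pow (Nat.pos_of_ne_zero hn) h
  cases n with
  | ofNat n =>
    rw [Int.ofNat_eq_natCast, zpow_natCast] at ha
    exact h n (by
      rintro rfl
      exact hn rfl) ha
  | negSucc n =>
    rw [zpow_negSucc] at ha
    apply h (n + 1) (Nat.succ_ne_zero n)
    have := cl_inv ha
    rwa [inv_inv] at this

open AlgebraicIndependent in
/-- the coordinates are algebraic over the ratios of the `u i` -/
theorem coord_mem_cl (D : Dat k Ω) {q : ℕ} (hq : 4 < q) (ℓ : Fin q → Fin 3 → k) (hℓ : GenPos ℓ)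
    (x x' : Fin 3 → Ω) (hx0 : x 0 = 1) (hu : ∀ i, D.U (lin (ℓ i) x * lin (ℓ i) x')) (a : Fin 3) :
    x a ∈ (matroid k Ω).closure (Set.range fun p : Fin q × Fin q =>
      (lin (ℓ p.1) x * lin (ℓ p.1) x') / (lin (ℓ p.2) x * lin (ℓ p.2) x')) := by
  classical
  set u : Fin q → Ω := fun i => lin (ℓ i) x * lin (ℓ i) x' with hudef
  set P0 : Set Ω := Set.range fun p : Fin q × Fin q => u p.1 / u p.2 with hP0
  have hx : x ≠ 0 := by
    intro h
    rw [h] at hx0
    exact zero_ne_one hx0
  have hx' : x' ≠ 0 := by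
    rintro rfl
    apply (hu ⟨0, by omega⟩).1
    simp [lin]
  let i0 : Fin q := ⟨0, by omega⟩
  have hL0 : lin (ℓ i0) x ≠ 0 := left_ne_zero_of_mul (hu i0).1
  set T : Set Ω := Set.range (algebraMap k Ω) ∪ P0 with hT
  have key : ∀ a, x a / lin (ℓ i0) x ∈ (matroid k Ω).closure P0 := by
    intro a
    have h1 : x a / lin (ℓ i0) x ∈ (integralClosure (Subring.closure T) Ω).toSubring := by
      rw [← iInf_valuationSubring_superset, Subring.mem_iInf]
      rintro ⟨O, hO⟩
      have hk : ∀ c : k, algebraMap k Ω c ∈ O := fun c => hO (Or.inl ⟨c, rfl⟩)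
      have hUU : ∀ a b, u a / u b ∈ O := fun a b => hO (Or.inr ⟨(a, b), rfl⟩)
      obtain ⟨s, s', hs, hs', hxs, hl, hl', hle, B, hB, hBe⟩ := geo₂ hq ℓ hℓ O hk x x' hx hx'
      have hBne : B.Nonempty := by
        rw [← Finset.card_pos]
        omega
      obtain ⟨b, hb⟩ := hBne
      have h2 := (O.valuation_le_one_iff _).mpr (hUU b i0)
      have h3 : O.valuation (u i0) ≠ 0 := (Valuation.ne_zero_iff _).mpr (hu i0).1
      rw [map_div₀, div_le_one₀ (zero_lt_iff.mpr h3)] at h2
      have h4 : O.valuation (u i0) = s * s' := by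
        apply le_antisymm (hle i0)
        rw [← hBe b hb]
        exact h2
      have h5 : O.valuation (lin (ℓ i0) x) = s := by
        apply le_antisymm (hl i0)
        by_contra hcon
        push Not at hcon
        have h6 : O.valuation (u i0) < s * s' := by
          calc O.valuation (u i0) = O.valuation (lin (ℓ i0) x) * O.valuation (lin (ℓ i0) x') := map_mul _ _ _
            _ ≤ O.valuation (lin (ℓ i0) x) * s' := mul_le_mul' le_rfl (hl' i0)
            _ < s * s' := mul_lt_mul_of_pos_right hcon (zero_lt_iff.mpr hs')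
        exact h6.ne h4
      show x a / lin (ℓ i0) x ∈ O
      rw [← O.valuation_le_one_iff, map_div₀, h5, div_le_one₀ (zero_lt_iff.mpr hs)]
      exact hxs a
    rw [mem_cl]
    obtain ⟨P, hPm, hP⟩ := h1
    have h2 : Subring.closure T ≤ (Algebra.adjoin k P0).toSubring := by
      rw [Subring.closure_le]
      rintro _ (⟨c, rfl⟩ | hp)
      · exact (Algebra.adjoin k P0).algebraMap_mem c
      · exact Algebra.subset_adjoin hp
    have h3 : IsIntegral (Algebra.adjoin k P0) (x a / lin (ℓ i0) x) := by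
      refine ⟨P.map (Subring.inclusion h2), hPm.map _, ?_⟩
      rw [Polynomial.eval₂_map]
      exact hP
    exact h3.isAlgebraic
  have h1 := cl_div (key a) (key 0)
  have h2 : x a / lin (ℓ i0) x / (x 0 / lin (ℓ i0) x) = x a := by
    rw [hx0]
    field_simp
  rwa [h2] at h1

open AlgebraicIndependent in
theorem rank (D : Dat k Ω) {q : ℕ} (hq : 4 < q) (ℓ : Fin q → Fin 3 → k) (hℓ : GenPos ℓ)
    (x x' : Fin 3 → Ω) (hx0 : x 0 = 1) (hu : ∀ i, D.U (lin (ℓ i) x * lin (ℓ i) x'))
    (hgen : ∀ P : MvPolynomial (Fin 2) k, P ≠ 0 → MvPolynomial.aeval ![x 1, x 2] P ≠ 0) :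
    ∃ i j l : Fin q, ∀ m n : ℤ, Cst k
      (((lin (ℓ i) x * lin (ℓ i) x') / (lin (ℓ l) x * lin (ℓ l) x')) ^ m *
        ((lin (ℓ j) x * lin (ℓ j) x') / (lin (ℓ l) x * lin (ℓ l) x')) ^ n) → m = 0 ∧ n = 0 := by
  classical
  by_contra hcon
  push Not at hcon
  set u : Fin q → Ω := fun i => lin (ℓ i) x * lin (ℓ i) x' with hudef
  let i0 : Fin q := ⟨0, by omega⟩
  have hu0 : ∀ i, u i ≠ 0 := fun i => (hu i).1
  have hg0 : ∀ i, u i / u i0 ≠ 0 := fun i => div_ne_zero (hu0 i) (hu0 i0)
  -- one generator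
  obtain ⟨g, hg⟩ : ∃ g : Ω, ∀ j, u j / u i0 ∈ (matroid k Ω).closure {g} := by
    by_cases H : ∃ b, ∀ n : ℤ, Cst k ((u b / u i0) ^ n) → n = 0
    · obtain ⟨b, hb⟩ := H
      refine ⟨u b / u i0, fun j => ?_⟩
      obtain ⟨m, n, ⟨c, hc⟩, hmn⟩ := hcon j b i0
      have hm : m ≠ 0 := by
        intro hm
        rw [hm, zpow_zero, one_mul] at hc
        exact hmn hm (hb n ⟨c, hc⟩)
      apply cl_of_zpow m hm
      have h1 : (u j / u i0) ^ m = algebraMap k Ω c / (u b / u i0) ^ n := by
        rw [eq_div_iff (zpow_ne_zero _ (hg0 b))]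
        exact hc
      rw [h1]
      refine cl_div (cl_cst ⟨c, rfl⟩) (cl_zpow ?_ n)
      exact Matroid.mem_closure_of_mem _ (Set.mem_singleton _) (by simp)
    · push Not at H
      refine ⟨1, fun j => ?_⟩
      obtain ⟨n, hn, hn0⟩ := H j
      exact cl_of_zpow n hn0 (cl_cst hn)
  have hP0 : (Set.range fun p : Fin q × Fin q => u p.1 / u p.2) ⊆ (matroid k Ω).closure {g} := by
    rintro _ ⟨p, rfl⟩
    have h1 := cl_div (hg p.1) (hg p.2)
    have h2 : u p.1 / u i0 / (u p.2 / u i0) = u p.1 / u p.2 := by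
      have := hu0 i0
      have := hu0 p.2
      field_simp
    rwa [h2] at h1
  have hcl := (matroid k Ω).closure_subset_closure_of_subset_closure hP0
  have h1 := hcl (coord_mem_cl D hq ℓ hℓ x x' hx0 hu 1)
  have h2 := hcl (coord_mem_cl D hq ℓ hℓ x x' hx0 hu 2)
  -- algebraic independence of the coordinates
  have hai : AlgebraicIndependent k ![x 1, x 2] := by
    rw [algebraicIndependent_iff]
    intro p hp
    by_contra hp0
    exact hgen p hp0 hp
  have hind : (matroid k Ω).Indep (Set.range ![x 1, x 2]) := by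
    rw [matroid_indep_iff]
    exact hai.coe_range
  have hsub : Set.range ![x 1, x 2] ⊆ (matroid k Ω).closure {g} := by
    rintro _ ⟨i, rfl⟩
    fin_cases i
    · exact h1
    · exact h2
  have h3 := (matroid k Ω).eRk_mono hsub
  rw [Matroid.eRk_closure_eq, hind.eRk_eq_encard] at h3
  have h4 := (matroid k Ω).eRk_le_encard {g}
  rw [Set.encard_singleton] at h4
  have h5 : (Set.range ![x 1, x 2]).encard = 2 := by
    rw [← Set.image_univ, hai.injective.encard_image, Set.encard_univ]
    simp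
  rw [h5] at h3
  exact absurd (h3.trans h4) (by norm_num)

end Pool.Agent.SL
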