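import Mathlib
import Pool.Agent.Helper16.SL.Main

/-!
Integral points of degree at most two on the complement of six lines of the plane.

`k` is a number field, `S` a finite set of places, `D` the sum of `q ≥ 6` lines `ℓ i = 0` of the projective
plane over `k` in general position. Points are given by their affine coordinates `y = (y_1, y_2)`, in the
algebraic closure of `k`: the point `(1 : y_1 : y_2)`. `Pl`, `nv`, `sn` (in
`Pool/Agent/Helper64/Vojta/Places.lean`) are the places, the normalised absolute values and the maximum of
the absolute values of the coordinates, `above` (in `OneSpace.lean`) the set of places above a place.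
-/

namespace Pool.Agent.Results.MP_71c16a_nt.SixLines

open NumberField IntermediateField Pool.Agent.Helper64.Vojta

universe u

section

variable {k : Type u} [Field k] [NumberField k]

/-- The field generated over `k` by the affine coordinates of the point. -/
noncomputable def fld (y : Fin 2 → AlgebraicClosure k) : IntermediateField k (AlgebraicClosure k) :=
  adjoin k (Set.range y)

/-- It is a number field. -/
instance numberField_fld (y : Fin 2 → AlgebraicClosure k) : NumberField (fld y) := by
  have : FiniteDimensional k (fld y) :=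
    finiteDimensional_adjoin fun x _ => Algebra.IsIntegral.isIntegral x
  have h0 : CharZero (fld y) := charZero_of_injective_algebraMap (algebraMap k (fld y)).injective
  have h1 : FiniteDimensional ℚ (fld y) := Module.Finite.trans k (fld y)
  exact { to_charZero := h0, to_finiteDimensional := h1 }

/-- The degree of the point over `k`. -/
noncomputable def dg (y : Fin 2 → AlgebraicClosure k) : ℕ := Module.finrank k (fld y)

/-- The homogeneous coordinates `(1 : y_1 : y_2)` of the point. -/
noncomputable def crd (y : Fin 2 → AlgebraicClosure k) : Fin 3 → fld y :=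
  Fin.cons 1 fun i => ⟨y i, subset_adjoin k _ (Set.mem_range_self i)⟩

/-- The value of the linear form `ℓ` at the point. -/
noncomputable def val (ℓ : Fin 3 → k) (y : Fin 2 → AlgebraicClosure k) : fld y :=
  ∑ j, algebraMap k (fld y) (ℓ j) * crd y j

/-- Logarithmic height, relative to `k`; `Height.logHeight` is Mathlib's height relative to the field of
the coordinates. -/
noncomputable def hgt (y : Fin 2 → AlgebraicClosure k) : ℝ := Height.logHeight (crd y) / dg y

/-- The Weil function, relative to `k`, of the line `ℓ = 0` at the place `ν` of `k`. -/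
noncomputable def lam (ℓ : Fin 3 → k) (ν : Pl k) (y : Fin 2 → AlgebraicClosure k) : ℝ :=
  (∑ w ∈ above (fld y) ν, (Real.log (sn w (crd y)) - Real.log (nv w (val ℓ y)))) / dg y

/-- Any three of the lines `ℓ i = 0` have no common point. -/
def GenPos {q : ℕ} (ℓ : Fin q → Fin 3 → k) : Prop :=
  ∀ i j l, i ≠ j → i ≠ l → j ≠ l → (Matrix.of ![ℓ i, ℓ j, ℓ l]).det ≠ 0

/-- A projective involution of the plane over `k` exchanges the lines `ℓ i = 0` in pairs: the substitution
with matrix `M`, `M² = 1`, maps each linear form `ℓ i` to a multiple of `ℓ (π i)`, where `π` is an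
involution of the indices without fixed points. -/
def Exchanged {q : ℕ} (ℓ : Fin q → Fin 3 → k) : Prop :=
  ∃ (M : Matrix (Fin 3) (Fin 3) k) (π : Fin q → Fin q), M * M = 1 ∧
    ∀ i, π i ≠ i ∧ π (π i) = i ∧ ∃ c : k, M.mulVec (ℓ i) = c • ℓ (π i)

end

/-- Let `D` be the sum of `q ≥ 6` lines in general position; if `q = 6`, assume that no projective involution
exchanges the lines in pairs. Then for every `C` there is a curve `P = 0` which contains (up to the points
on the line at infinity) all points `y` outside `D` of degree at most two over `k` with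
`∑_{ν ∈ S} λ_D(y,ν) ≥ q h(y) - C`. -/
theorem result (k : Type u) [Field k] [NumberField k] (S : Finset (Pl k)) (q : ℕ) (hq : 6 ≤ q)
    (ℓ : Fin q → Fin 3 → k) (hℓ : GenPos ℓ) (hinv : q = 6 → ¬ Exchanged ℓ) (C : ℝ) :
    ∃ P : MvPolynomial (Fin 2) k, P ≠ 0 ∧ ∀ y : Fin 2 → AlgebraicClosure k, dg y ≤ 2 →
      (∀ i, val (ℓ i) y ≠ 0) → q * hgt y - C ≤ ∑ ν ∈ S, ∑ i, lam (ℓ i) ν y →
      MvPolynomial.aeval y P = 0 := by
  have hℓ' : Pool.Agent.SL.GenPos ℓ := by
    intro f hf
    have h := hℓ (f 0) (f 1) (f 2) (fun h => by simpa using hf h) (fun h => by simpa using hf h)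
      (fun h => by simpa using hf h)
    convert h using 2
    ext i j
    fin_cases i <;> rfl
  obtain ⟨P, hP0, hP⟩ := Pool.Agent.SL.main S hq ℓ hℓ' hinv C
  refine ⟨P, hP0, fun y hy hD hN => hP y hy hD ?_⟩
  refine hN.trans (le_of_eq ?_)
  unfold Pool.Agent.VZ.lam
  rw [Finset.sum_div]
  refine Finset.sum_congr rfl fun ν _ => ?_
  unfold lam
  rw [← Finset.sum_div]
  congr 1
  rw [Finset.sum_comm]
  rfl

end Pool.Agent.Results.MP_71c16a_nt.SixLines
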