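import Pool.Agent.Helper16.SL.Quad

/-!
# SixLines: singular conics through four points
-/

set_option autoImplicit false

namespace Pool.Agent.SL

universe u v

section

variable {F : Type*} [Field F]

theorem br_cyc (a b c : Fin 3 → F) : br b c a = br a b c := by
  unfold br; ring

theorem br_swap (a b c : Fin 3 → F) : br b a c = -br a b c := by
  unfold br; ring

theorem bf_comm (g : Fin 6 → F) (a b : Fin 3 → F) : bf g a b = bf g b a := by
  unfold bf; ring

theorem qf_basis (g : Fin 6 → F) (a b c n : Fin 3 → F) (ha : qf g a = 0) (hb : qf g b = 0)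
    (hc : qf g c = 0) : br a b c ^ 2 * qf g n = br n b c * br a n c * bf g a b +
      br a n c * br a b n * bf g b c + br n b c * br a b n * bf g a c := by
  have h1 : br a b c ^ 2 * qf g n = qf g fun i => br a b c * n i := by
    unfold qf; ring
  have h2 : (fun i => br a b c * n i) = fun i => br n b c * a i + br a n c * b i + br a b n * c i :=
    funext fun i => br_smul a b c n i
  rw [h1, h2, qf_comb, ha, hb, hc]
  ring

theorem split_core (g : Fin 6 → F) (a b c d n : Fin 3 → F) (habc : br a b c ≠ 0) (hdbc : br d b c ≠ 0)
    (habd : br a b d ≠ 0) (ha : qf g a = 0) (hb : qf g b = 0) (hc : qf g c = 0)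
    (hd : qf g d = 0) (hab : bf g a b = 0) (hne : ∃ m, qf g m ≠ 0) (hn : qf g n = 0) :
    br a b n = 0 ∨ br c d n = 0 := by
  by_cases h3 : br a b n = 0
  · exact Or.inl h3
  right
  have h1 := qf_basis g a b c n ha hb hc
  have h2 := qf_basis g a b c d ha hb hc
  rw [hn, hab] at h1
  rw [hd, hab] at h2
  have h4 : br a n c * bf g b c + br n b c * bf g a c = 0 := by
    have : br a b n * (br a n c * bf g b c + br n b c * bf g a c) = 0 := by linear_combination -h1
    exact (mul_eq_zero.1 this).resolve_left h3
  have h5 : br a d c * bf g b c + br d b c * bf g a c = 0 := by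
    have : br a b d * (br a d c * bf g b c + br d b c * bf g a c) = 0 := by linear_combination -h2
    exact (mul_eq_zero.1 this).resolve_left habd
  have h6 : bf g b c ≠ 0 := by
    intro h6
    rw [h6, mul_zero, zero_add] at h5
    have h7 : bf g a c = 0 := (mul_eq_zero.1 h5).resolve_left hdbc
    obtain ⟨m, hm⟩ := hne
    have h8 := qf_basis g a b c m ha hb hc
    rw [hab, h6, h7] at h8
    have h9 : br a b c ^ 2 * qf g m = 0 := by rw [h8]; ring
    rcases mul_eq_zero.1 h9 with h | h
    · exact habc (pow_eq_zero_iff two_ne_zero |>.1 h)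
    · exact hm h
  have h7 : bf g b c * (br n b c * br a d c - br a n c * br d b c) = 0 := by
    linear_combination (br n b c) * h5 - (br d b c) * h4
  have h8 : br n b c * br a d c - br a n c * br d b c = -(br a b c * br c d n) := by
    unfold br; ring
  rw [h8] at h7
  have h9 := (mul_eq_zero.1 h7).resolve_left h6
  rw [neg_eq_zero] at h9
  exact (mul_eq_zero.1 h9).resolve_left habc

theorem split_field (g : Fin 6 → F) (a b c d : Fin 3 → F) (habc : br a b c ≠ 0)
    (hdbc : br d b c ≠ 0) (hadc : br a d c ≠ 0) (habd : br a b d ≠ 0) (ha : qf g a = 0) (hb : qf g b = 0)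
    (hc : qf g c = 0) (hd : qf g d = 0) (hg : dt g = 0) (hne : ∃ m, qf g m ≠ 0) (n : Fin 3 → F)
    (hn : qf g n = 0) :
    br a b n = 0 ∨ br c d n = 0 ∨ br a c n = 0 ∨ br b d n = 0 ∨ br a d n = 0 ∨ br b c n = 0 := by
  have h1 := gram g a b c
  rw [ha, hb, hc, hg] at h1
  have h2 : bf g a b * bf g b c * bf g a c = 0 := by linear_combination h1
  rcases mul_eq_zero.1 h2 with h2 | h2
  · rcases mul_eq_zero.1 h2 with h2 | h2
    · rcases split_core g a b c d n habc hdbc habd ha hb hc hd h2 hne hn with h | h
      · exact Or.inl h
      · exact Or.inr (Or.inl h)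
    · rcases split_core g b c a d n (by rwa [br_cyc]) (by
          have : br d c a = br a d c := by unfold br; ring
          rwa [this]) (by
          have : br b c d = br d b c := by unfold br; ring
          rwa [this]) hb hc ha hd h2 hne hn with h | h
      · exact Or.inr (Or.inr (Or.inr (Or.inr (Or.inr h))))
      · exact Or.inr (Or.inr (Or.inr (Or.inr (Or.inl h))))
  · rcases split_core g c a b d n (by
          have : br c a b = br a b c := by unfold br; ring
          rwa [this]) (by
          have : br d a b = br a b d := by unfold br; ring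
          rwa [this]) (by
          have : br c a d = br a d c := by unfold br; ring
          rwa [this]) hc ha hb hd (by rwa [bf_comm]) hne hn with h | h
    · refine Or.inr (Or.inr (Or.inl ?_))
      have : br a c n = -br c a n := by unfold br; ring
      rw [this, h, neg_zero]
    · exact Or.inr (Or.inr (Or.inr (Or.inl h)))

end

end Pool.Agent.SL
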