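import Pool.Agent.Helper16.SL.Defs
import Pool.Agent.Helper64.VZ.Defs

/-!
# SixLines, block B9: points with bounded counting function

PROOF. `L = fld y`, `x = crd y`. If `dg y = 2` let `σ` be the nontrivial `k`-automorphism of `L`, if `dg y = 1` let `σ = id`. `F(m) = lin m x * lin m (σ x)` is in `k` for `m` in `k³`, so the
`x_i σ(x_j) + x_j σ(x_i)` are in `k`. For a place `ν` of `k`: `∑_{w | ν} log sn w x = (dg y / 2) log (max of the |F_ij|_ν)` up to `O(1)`, and equality for finite `ν` (Gauss lemma: `UP/Gauss.lean`, `VG/DeltaI.lean`, or directly for two factors), where `F_ij` are the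
coefficients `x_i σ x_i`, `x_i σ x_j + x_j σ x_i` of `F`; `∑_{w | ν} log nv w (lin (ℓ i) x) = (dg y / 2) log nv ν (F(ℓ i))`. The sum over all places of `q log sn w x - ∑ log nv w (ℓ_i(x))` is `q` times the height of `x` (product formula), so
`hyp` says that the sum over the places outside `S` is at most `C * dg y`; all terms are `≥ -c_ν` with `c_ν = 0` for almost all `ν`. So for finite `ν` outside a finite set `T1` which depends only on `S`, `ℓ` (`S ⊆ T1`, the coefficients of the `ℓ i` are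
`T1`-integers) the terms `log max|F|_ν - log |F(ℓ i)|_ν ≥ 0` are multiples of `log N ν` and at most `C'`; so they are zero for `log N ν > C'`: outside a finite set `T` one has `|F(ℓ i)|_ν = max |F|_ν` for all `i`. Put `x' = σ x / F(ℓ 0)` (as elements of
the algebraic closure of `k`).
-/

set_option autoImplicit false

namespace Pool.Agent.SL

open NumberField IntermediateField Pool.Agent.Helper64.Vojta Pool.Agent.VZ

universe u

variable {k : Type u} [Field k] [NumberField k]

/-- the image of a `T`-integer of `k` -/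
def TInt (T : Finset (FinitePlace k)) (z : AlgebraicClosure k) : Prop :=
  ∃ a : k, algebraMap k (AlgebraicClosure k) a = z ∧ ∀ v : FinitePlace k, v ∉ T → v a ≤ 1

/-- the image of a `T`-unit of `k` -/
def TUnit (T : Finset (FinitePlace k)) (z : AlgebraicClosure k) : Prop :=
  ∃ a : k, algebraMap k (AlgebraicClosure k) a = z ∧ a ≠ 0 ∧ ∀ v : FinitePlace k, v ∉ T → v a = 1


section aux

variable {L : Type*} [Field L] [NumberField L]

theorem absNorm_le (w : FinitePlace L) (z : L) (hz : 1 < w z) :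
    (Ideal.absNorm w.maximalIdeal.asIdeal : ℝ) ≤ w z := by
  have h0 : z ≠ 0 := by
    rintro rfl
    rw [map_zero] at hz
    linarith
  rw [← w.norm_embedding_eq z, FinitePlace.norm_embedding'] at hz ⊢
  have hv : w.maximalIdeal.valuation L z ≠ 0 := (w.maximalIdeal.valuation L).ne_zero_iff.mpr h0
  rw [WithZeroMulInt.toNNReal_neg_apply _ hv] at hz ⊢
  push_cast at hz ⊢
  have h1 : (1 : ℝ) < Ideal.absNorm w.maximalIdeal.asIdeal := by
    exact_mod_cast NumberField.HeightOneSpectrum.one_lt_absNorm w.maximalIdeal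
  rw [one_lt_zpow_iff_right₀ h1] at hz
  calc (Ideal.absNorm w.maximalIdeal.asIdeal : ℝ) = (Ideal.absNorm w.maximalIdeal.asIdeal : ℝ) ^ (1 : ℤ) :=
      (zpow_one _).symm
    _ ≤ _ := zpow_le_zpow_right₀ h1.le (by omega)

theorem nat_le_one (w : FinitePlace L) (n : ℕ) : w (n : L) ≤ 1 := by
  have := nv_int_le_one w (n : 𝓞 L)
  simpa [nv] using this

theorem mem_lt_one (w : FinitePlace L) (x : 𝓞 L) (hx : x ∈ w.maximalIdeal.asIdeal) : w (x : L) < 1 := by
  rw [← w.norm_embedding_eq]
  exact (FinitePlace.norm_lt_one_iff_mem L w.maximalIdeal x).mpr hx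

theorem absNorm_lt_one (w : FinitePlace L) : w ((Ideal.absNorm w.maximalIdeal.asIdeal : ℕ) : L) < 1 := by
  have := mem_lt_one w _ (Ideal.absNorm_mem w.maximalIdeal.asIdeal)
  simpa using this

theorem one_of_dvd (w : FinitePlace L) {m n : ℕ} (h : m ∣ n) (hn : w (n : L) = 1) : w (m : L) = 1 := by
  obtain ⟨c, rfl⟩ := h
  rw [Nat.cast_mul, map_mul] at hn
  have h1 := nat_le_one w m
  have h2 := nat_le_one w c
  have h3 : 0 ≤ w (m : L) := apply_nonneg w _
  have h4 : 0 ≤ w (c : L) := apply_nonneg w _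
  nlinarith

/-- `N`-integral elements -/
def TI (N : ℕ) (z : L) : Prop := ∃ m : ℕ, IsIntegral ℤ ((N : L) ^ m * z)

omit [NumberField L] in
theorem TI.up {N : ℕ} {z : L} {m : ℕ} (h : IsIntegral ℤ ((N : L) ^ m * z)) (m' : ℕ) (hm : m ≤ m') :
    IsIntegral ℤ ((N : L) ^ m' * z) := by
  obtain ⟨c, rfl⟩ := Nat.exists_eq_add_of_le hm
  have h1 : IsIntegral ℤ ((N : L) ^ c) := (isIntegral_algebraMap (R := ℤ) (x := (N : ℤ)) (A := L) |>.pow c) |> fun h => by
    simpa using h
  have := h1.mul h
  rwa [← mul_assoc, ← pow_add, add_comm c m] at this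

omit [NumberField L] in
theorem TI.mul {N : ℕ} {z z' : L} (h : TI N z) (h' : TI N z') : TI N (z * z') := by
  obtain ⟨m, hm⟩ := h
  obtain ⟨m', hm'⟩ := h'
  refine ⟨m + m', ?_⟩
  have := hm.mul hm'
  rwa [mul_mul_mul_comm, ← pow_add] at this

omit [NumberField L] in
theorem TI.add {N : ℕ} {z z' : L} (h : TI N z) (h' : TI N z') : TI N (z + z') := by
  obtain ⟨m, hm⟩ := h
  obtain ⟨m', hm'⟩ := h'
  refine ⟨m + m', ?_⟩
  rw [mul_add]
  exact (TI.up hm _ (Nat.le_add_right _ _)).add (TI.up hm' _ (Nat.le_add_left _ _))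

omit [NumberField L] in
theorem TI.map {L' : Type*} [Field L'] {N : ℕ} {z : L} (φ : L →+* L') (h : TI N z) : TI N (φ z) := by
  obtain ⟨m, hm⟩ := h
  refine ⟨m, ?_⟩
  have := map_isIntegral_int φ hm
  simpa using this

theorem TI.places {N : ℕ} {z : L} (h : TI N z) (w : FinitePlace L) (hw : w (N : L) = 1) : w z ≤ 1 := by
  obtain ⟨m, hm⟩ := h
  have := nv_int_le_one w ⟨_, hm⟩
  simpa [nv, hw] using this

theorem int_of_le_one (z : L) (hz : ∀ w : FinitePlace L, w z ≤ 1) : IsIntegral ℤ z := by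
  have h : z ∈ (algebraMap (𝓞 L) L).range := by
    refine IsDedekindDomain.HeightOneSpectrum.mem_integers_of_valuation_le_one L z fun v => ?_
    have := hz (FinitePlace.mk v)
    rw [FinitePlace.mk_apply, FinitePlace.norm_embedding'] at this
    have h2 : (WithZeroMulInt.toNNReal (NumberField.HeightOneSpectrum.absNorm_ne_zero v) (v.valuation L z)) ≤ 1 := by
      exact_mod_cast this
    exact (WithZeroMulInt.toNNReal_le_one_iff (NumberField.HeightOneSpectrum.one_lt_absNorm_nnreal v)).mp h2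
  obtain ⟨a, rfl⟩ := h
  exact a.2

theorem TI_of_places {N : ℕ} (z : L) (hz : ∀ w : FinitePlace L, w (N : L) = 1 → w z ≤ 1) : TI N z := by
  classical
  rcases eq_or_ne z 0 with rfl | h0
  · exact ⟨0, by simpa using isIntegral_zero⟩
  have hfin : (Function.mulSupport fun w : FinitePlace L => w z).Finite := FinitePlace.hasFiniteMulSupport h0
  have h1 : ∀ w : FinitePlace L, ∃ m : ℕ, ∀ m' ≥ m, w (N : L) ^ m' * w z ≤ 1 := by
    intro w
    rcases (nat_le_one w N).lt_or_eq with h | h
    · have h2 := (tendsto_pow_atTop_nhds_zero_of_lt_one (apply_nonneg w (N : L)) h).mul_const (w z)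
      rw [zero_mul] at h2
      have h3 := h2.eventually (gt_mem_nhds zero_lt_one)
      obtain ⟨m, hm⟩ := Filter.eventually_atTop.mp h3
      exact ⟨m, fun m' hm' => (hm m' hm').le⟩
    · exact ⟨0, fun m' _ => by rw [h, one_pow, one_mul]; exact hz w h⟩
  choose m hm using h1
  refine ⟨∑ w ∈ hfin.toFinset, m w, int_of_le_one _ fun w => ?_⟩
  rw [map_mul, map_pow]
  by_cases hw : w z = 1
  · rw [hw, mul_one]
    exact pow_le_one₀ (apply_nonneg w _) (nat_le_one w N)
  · exact hm w _ (Finset.single_le_sum (f := m) (fun _ _ => Nat.zero_le _) (hfin.mem_toFinset.mpr hw))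

end aux

/-- the conjugation of a field of degree at most two -/
theorem exists_conj (L : IntermediateField k (AlgebraicClosure k)) [FiniteDimensional k L]
    (h : Module.finrank k L ≤ 2) :
    ∃ σ : L →ₐ[k] L, (∀ z, σ (σ z) = z) ∧ ∀ z, σ z = z → ∃ a : k, algebraMap k L a = z := by
  have hpos : 0 < Module.finrank k L := Module.finrank_pos
  rcases (by omega : Module.finrank k L = 1 ∨ Module.finrank k L = 2) with h1 | h2
  · refine ⟨AlgHom.id k L, fun z => rfl, fun z _ => ?_⟩
    have h3 : z ∈ (⊥ : Subalgebra k L) := by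
      rw [Subalgebra.bot_eq_top_of_finrank_eq_one h1]
      exact Algebra.mem_top
    exact Algebra.mem_bot.mp h3
  · have hq : Algebra.IsQuadraticExtension k L := { finrank_eq_two' := h2 }
    have hG : IsGalois k L := inferInstance
    have hc := IsGalois.card_aut_eq_finrank k L
    rw [h2] at hc
    obtain ⟨σ, hσ, huniq⟩ := (Nat.card_eq_two_iff' (1 : Gal(L/k))).mp hc
    have hσ2 : σ * σ = 1 := by
      by_contra hne
      have h4 := huniq (σ * σ) hne
      have h5 : σ * σ = σ * 1 := by rw [h4, mul_one]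
      exact hσ (mul_left_cancel h5)
    refine ⟨σ.toAlgHom, fun z => ?_, fun z hz => ?_⟩
    · have := congrArg (fun τ : Gal(L/k) => τ z) hσ2
      simpa using this
    · rw [← Set.mem_range, IsGalois.mem_range_algebraMap_iff_fixed]
      intro f
      by_cases hf : f = 1
      · rw [hf]; rfl
      · rw [huniq f hf]; exact hz


theorem exists_den (s : Finset k) : ∃ b : ℕ, b ≠ 0 ∧ ∀ c ∈ s, IsIntegral ℤ ((b : k) * c) := by
  classical
  induction s using Finset.induction_on with
  | empty => exact ⟨1, one_ne_zero, by simp⟩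
  | insert a s ha ih =>
    obtain ⟨b, hb, hbs⟩ := ih
    have halg : IsAlgebraic ℤ a := (IsFractionRing.isAlgebraic_iff ℤ ℚ k).mpr (Algebra.IsAlgebraic.isAlgebraic a)
    obtain ⟨y, hy, hya⟩ := halg.exists_integral_multiple
    have hyn : IsIntegral ℤ ((y.natAbs : k) * a) := by
      have h1 : (y • a : k) = (y : k) * a := by rw [zsmul_eq_mul]
      rw [h1] at hya
      rcases Int.natAbs_eq y with h | h
      · have : (y : k) = (y.natAbs : k) := by
          conv_lhs => rw [h]
          exact Int.cast_natCast _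
        rwa [this] at hya
      · have : (y : k) = -(y.natAbs : k) := by
          conv_lhs => rw [h]
          rw [Int.cast_neg, Int.cast_natCast]
        rw [this, neg_mul] at hya
        simpa using hya.neg
    have hnat : ∀ t : ℕ, IsIntegral ℤ (t : k) := fun t => by
      have := isIntegral_algebraMap (R := ℤ) (A := k) (x := (t : ℤ))
      simpa using this
    refine ⟨y.natAbs * b, mul_ne_zero (Int.natAbs_ne_zero.mpr hy) hb, ?_⟩
    intro c hc
    rcases Finset.mem_insert.mp hc with rfl | hc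
    · have : ((y.natAbs * b : ℕ) : k) * c = (b : k) * ((y.natAbs : k) * c) := by push_cast; ring
      rw [this]
      exact (hnat b).mul hyn
    · have : ((y.natAbs * b : ℕ) : k) * c = (y.natAbs : k) * ((b : k) * c) := by push_cast; ring
      rw [this]
      exact (hnat _).mul (hbs c hc)

/-- the norm of a finite place -/
noncomputable def npl : Pl k → ℕ
  | .inl _ => 1
  | .inr v => Ideal.absNorm v.maximalIdeal.asIdeal

theorem npl_ne_zero (ν : Pl k) : npl ν ≠ 0 := by
  rcases ν with ν | ν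
  · exact one_ne_zero
  · have := NumberField.HeightOneSpectrum.one_lt_absNorm ν.maximalIdeal
    show Ideal.absNorm ν.maximalIdeal.asIdeal ≠ 0
    omega

theorem not_above {L : Type*} [Field L] [NumberField L] [Algebra k L] (ν : Pl k) (w : FinitePlace L)
    (hw : w (npl ν : L) = 1) : ¬ Above ν (.inr w : Pl L) := by
  intro h
  rcases ν with ν | ν
  · exact h
  · have h1 : ((Ideal.absNorm ν.maximalIdeal.asIdeal : ℕ) : 𝓞 k) ∈ ν.maximalIdeal.asIdeal :=
      Ideal.absNorm_mem _
    have h2 : w.maximalIdeal.asIdeal.LiesOver ν.maximalIdeal.asIdeal := h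
    have h3 : algebraMap (𝓞 k) (𝓞 L) ((Ideal.absNorm ν.maximalIdeal.asIdeal : ℕ) : 𝓞 k) ∈ w.maximalIdeal.asIdeal :=
      (Ideal.mem_of_liesOver w.maximalIdeal.asIdeal ν.maximalIdeal.asIdeal _).mp h1
    rw [map_natCast] at h3
    have h4 := mem_lt_one w _ h3
    have h5 : w (((Ideal.absNorm ν.maximalIdeal.asIdeal : ℕ) : 𝓞 L) : L) = 1 := by
      have : (((Ideal.absNorm ν.maximalIdeal.asIdeal : ℕ) : 𝓞 L) : L) = ((Ideal.absNorm ν.maximalIdeal.asIdeal : ℕ) : L) := by
        simp
      rw [this]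
      exact hw
    linarith

theorem crd_ne {n : ℕ} (y : Fin n → AlgebraicClosure k) : crd y ≠ 0 := by
  intro h
  have := congrFun h 0
  simp [crd] at this

omit [NumberField k] in
theorem dg_pos' {n : ℕ} (y : Fin n → AlgebraicClosure k) : (0 : ℝ) < dg y := by
  have : FiniteDimensional k (fld y) :=
    finiteDimensional_adjoin fun x _ => Algebra.IsIntegral.isIntegral x
  have : 0 < dg y := Module.finrank_pos
  exact_mod_cast this

theorem main_ineq (S : Finset (Pl k)) {q : ℕ} (ℓ : Fin q → Fin 3 → k) (C : ℝ) :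
    ∃ N : ℕ, N ≠ 0 ∧ ∀ y : Fin 2 → AlgebraicClosure k, dg y ≤ 2 →
      (∀ i, ev (cst (ℓ i)) (crd y) ≠ 0) → q * hgt y - C ≤ lam ℓ S y →
      ∀ w : FinitePlace (fld y), w (N : fld y) = 1 → ∀ i,
        nv (.inr w) (ev (cst (ℓ i)) (crd y)) = sn (.inr w) (crd y) := by
  classical
  obtain ⟨D, hD0, hD⟩ := exists_den (Finset.univ.image fun p : Fin q × Fin 3 => ℓ p.1 p.2)
  choose B hB0 hB using fun i => liouville_k.{u, u} (ℓ i) 2
  set K : ℝ := 2 * |C| + (∑ i, B i) * (2 + 2 * S.card) with hK
  refine ⟨D * (∏ ν ∈ S, npl ν) * (⌈Real.exp K⌉₊).factorial, ?_, ?_⟩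
  · exact mul_ne_zero (mul_ne_zero hD0 (Finset.prod_ne_zero_iff.mpr fun ν _ => npl_ne_zero ν))
      (Nat.factorial_ne_zero _)
  intro y hdg hne hy w hw i
  set x := crd y with hx
  have hx0 : x ≠ 0 := crd_ne y
  have hwD : w (D : fld y) = 1 := one_of_dvd w ⟨(∏ ν ∈ S, npl ν) * (⌈Real.exp K⌉₊).factorial, by ring⟩ hw
  have hwS : ∀ ν ∈ S, w (npl ν : fld y) = 1 := fun ν hν =>
    one_of_dvd w (Dvd.dvd.mul_right (Dvd.dvd.mul_left (Finset.dvd_prod_of_mem _ hν) _) _) hw
  have hwF : w (((⌈Real.exp K⌉₊).factorial : ℕ) : fld y) = 1 := one_of_dvd w (Dvd.intro_left _ rfl) hw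
  have habs : Real.exp K < Ideal.absNorm w.maximalIdeal.asIdeal := by
    by_contra hcon
    push Not at hcon
    have h1 : Ideal.absNorm w.maximalIdeal.asIdeal ≤ ⌈Real.exp K⌉₊ := by
      exact_mod_cast hcon.trans (Nat.le_ceil _)
    have h2 : 0 < Ideal.absNorm w.maximalIdeal.asIdeal :=
      zero_lt_one.trans (NumberField.HeightOneSpectrum.one_lt_absNorm w.maximalIdeal)
    have h3 := one_of_dvd w (Nat.dvd_factorial h2 h1) hwF
    have h4 := absNorm_lt_one w
    linarith
  -- the coefficients are integral at `w`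
  have hcoef : ∀ i j, nv (.inr w) (algebraMap k (fld y) (ℓ i j)) ≤ 1 := by
    intro i j
    have h1 := hD (ℓ i j) (Finset.mem_image.mpr ⟨(i, j), Finset.mem_univ _, rfl⟩)
    have h2 := map_isIntegral_int (algebraMap k (fld y)) h1
    have h3 := nv_int_le_one w ⟨_, h2⟩
    simpa [nv, hwD] using h3
  have hle : ∀ i, nv (.inr w) (ev (cst (ℓ i)) x) ≤ sn (.inr w) x := by
    intro i
    refine nv_sum_le_inr w Finset.univ _ _ (sn_pos _ hx0).le fun j _ => ?_
    rw [nv_mul]
    calc _ ≤ 1 * sn (.inr w) x := mul_le_mul (hcoef i j) (le_sn _ _ _) (nv_nonneg _ _) zero_le_one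
      _ = _ := one_mul _
  have hloc0 : ∀ i, 0 ≤ loc (.inr w) (cst (ℓ i)) x := fun i =>
    sub_nonneg.mpr (Real.log_le_log (nv_pos _ (hne i)) (hle i))
  -- the places
  set W₀ := S.biUnion (above (fld y)) with hW₀
  have hwW : (Sum.inr w : Pl (fld y)) ∉ W₀ := by
    intro h
    obtain ⟨ν, hν, hν'⟩ := Finset.mem_biUnion.mp h
    exact not_above ν w (hwS ν hν) (mem_above.mp hν')
  have hfin : FiniteDimensional k (fld y) :=
    finiteDimensional_adjoin fun x _ => Algebra.IsIntegral.isIntegral x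
  have hcard : (insert (Sum.inr w) W₀).card ≤ 1 + 2 * S.card := by
    refine (Finset.card_insert_le _ _).trans ?_
    have h1 : W₀.card ≤ ∑ ν ∈ S, (above (fld y) ν).card := Finset.card_biUnion_le
    have h2 : ∑ ν ∈ S, (above (fld y) ν).card ≤ ∑ ν ∈ S, 2 :=
      Finset.sum_le_sum fun ν _ => (card_above_le ν).trans hdg
    rw [Finset.sum_const, smul_eq_mul] at h2
    omega
  have hcardR : ((insert (Sum.inr w) W₀).card : ℝ) ≤ 1 + 2 * S.card := by exact_mod_cast hcard
  have hdgp := dg_pos' y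
  have hdg2 : (dg y : ℝ) ≤ 2 := by exact_mod_cast hdg
  have hsum : ∀ i, ∑ w' ∈ insert (Sum.inr w) W₀, loc w' (cst (ℓ i)) x ≤
      dg y * hgt y + B i * (2 + 2 * S.card) := by
    intro i
    have h1 := hB i (fld y) hdg x hx0 (hne i) (insert (Sum.inr w) W₀)
    have h2 : B i * (1 + (insert (Sum.inr w) W₀).card) ≤ B i * (2 + 2 * S.card) :=
      mul_le_mul_of_nonneg_left (by linarith) (hB0 i)
    have h3 : (dg y : ℝ) * hgt y = Height.logHeight x := by
      unfold hgt
      rw [mul_div_cancel₀ _ hdgp.ne']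
    linarith
  have hdisj : (S : Set (Pl k)).PairwiseDisjoint (above (fld y)) := by
    intro a _ b _ hab
    rw [Function.onFun, Finset.disjoint_left]
    intro w hwa hwb
    exact hab (above_unique (mem_above.mp hwa) (mem_above.mp hwb))
  have hlam : (dg y : ℝ) * lam ℓ S y = ∑ i, ∑ w' ∈ W₀, loc w' (cst (ℓ i)) x := by
    unfold lam
    rw [mul_div_cancel₀ _ hdgp.ne', Finset.sum_comm (s := Finset.univ), Finset.sum_biUnion hdisj]
    rfl
  have htot : ∑ i, (loc (.inr w) (cst (ℓ i)) x + ∑ w' ∈ W₀, loc w' (cst (ℓ i)) x) ≤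
      q * (dg y * hgt y) + (∑ i, B i) * (2 + 2 * S.card) := by
    have h1 : ∑ i, (loc (.inr w) (cst (ℓ i)) x + ∑ w' ∈ W₀, loc w' (cst (ℓ i)) x) ≤
        ∑ i : Fin q, (dg y * hgt y + B i * (2 + 2 * S.card)) :=
      Finset.sum_le_sum fun i _ =>
        (Finset.sum_insert (f := fun w' => loc w' (cst (ℓ i)) x) hwW).symm.le.trans (hsum i)
    refine h1.trans (le_of_eq ?_)
    rw [Finset.sum_add_distrib, Finset.sum_const, Finset.card_univ, Fintype.card_fin, nsmul_eq_mul,
      ← Finset.sum_mul]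
  rw [Finset.sum_add_distrib, ← hlam] at htot
  have hlocsum : ∑ i, loc (.inr w) (cst (ℓ i)) x ≤ K := by
    have h1 : (dg y : ℝ) * (q * hgt y - C) ≤ dg y * lam ℓ S y := mul_le_mul_of_nonneg_left hy hdgp.le
    have h2 : (dg y : ℝ) * C ≤ 2 * |C| :=
      (mul_le_mul_of_nonneg_left (le_abs_self C) hdgp.le).trans
        (mul_le_mul_of_nonneg_right hdg2 (abs_nonneg C))
    rw [hK]
    nlinarith
  have hloci : loc (.inr w) (cst (ℓ i)) x ≤ K :=
    (Finset.single_le_sum (fun i _ => hloc0 i) (Finset.mem_univ i)).trans hlocsum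
  refine le_antisymm (hle i) ?_
  refine sn_le _ _ _ (nv_nonneg _ _) fun j => ?_
  by_contra hcon
  push Not at hcon
  have h1 : 1 < w (x j / ev (cst (ℓ i)) x) := by
    rw [map_div₀]
    exact (one_lt_div (nv_pos (.inr w) (hne i))).mpr hcon
  have h2 := absNorm_le w _ h1
  rw [map_div₀] at h2
  have hxj : 0 < w (x j) := lt_of_le_of_lt (apply_nonneg w _) hcon
  have h3 : Real.log (w (x j) / w (ev (cst (ℓ i)) x)) ≤ loc (.inr w) (cst (ℓ i)) x := by
    have h5 : w (ev (cst (ℓ i)) x) ≠ 0 := (nv_pos (.inr w) (hne i)).ne'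
    rw [Real.log_div hxj.ne' h5]
    exact sub_le_sub_right (Real.log_le_log hxj (le_sn (.inr w) x j)) _
  have h4 : K < Real.log (w (x j) / w (ev (cst (ℓ i)) x)) := by
    rw [Real.lt_log_iff_exp_lt (lt_of_lt_of_le (Real.exp_pos K) (habs.le.trans h2))]
    exact lt_of_lt_of_le habs h2
  linarith

theorem units (S : Finset (Pl k)) {q : ℕ} (hq : 0 < q)
    (ℓ : Fin q → Fin 3 → k) (C : ℝ) :
    ∃ T : Finset (FinitePlace k), ∀ y : Fin 2 → AlgebraicClosure k, dg y ≤ 2 →
      (∀ i, ∑ j, algebraMap k (fld y) (ℓ i j) * crd y j ≠ 0) → q * hgt y - C ≤ lam ℓ S y →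
      ∃ x' : Fin 3 → AlgebraicClosure k,
        (∀ i j, TInt T ((![1, y 0, y 1] : Fin 3 → AlgebraicClosure k) i * x' j +
          (![1, y 0, y 1] : Fin 3 → AlgebraicClosure k) j * x' i)) ∧
        ∀ i, TUnit T (lin (ℓ i) ![1, y 0, y 1] * lin (ℓ i) x') := by

  classical
  obtain ⟨N, hN, hmain⟩ := main_ineq S ℓ C
  have hfin : (Function.mulSupport fun v : FinitePlace k => v (N : k)).Finite :=
    FinitePlace.hasFiniteMulSupport (by exact_mod_cast hN)
  refine ⟨hfin.toFinset, fun y hdg hne hy => ?_⟩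
  have hfd : FiniteDimensional k (fld y) :=
    finiteDimensional_adjoin fun x _ => Algebra.IsIntegral.isIntegral x
  obtain ⟨σ, hσ, hfix⟩ := exists_conj (fld y) hdg
  have hv1 : ∀ v : FinitePlace k, v ∉ hfin.toFinset → v (N : k) = 1 := by
    intro v hv
    by_contra h
    exact hv (hfin.mem_toFinset.mpr h)
  set x := crd y with hx
  set t : Fin q → fld y := fun i => ev (cst (ℓ i)) x with ht
  have ht0 : ∀ i, t i ≠ 0 := hne
  have hsx : ∀ w : FinitePlace (fld y), 0 < sn (.inr w) x := fun w => sn_pos _ (crd_ne y)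
  have hty : ∀ i (w : FinitePlace (fld y)), w (N : fld y) = 1 → w (t i) = sn (.inr w) x := fun i w hw =>
    hmain y hdg hne hy w hw i
  have hxt : ∀ i j, TI N (x j / t i) := fun i j => TI_of_places _ fun w hw => by
    rw [map_div₀, hty i w hw]
    exact (div_le_one (hsx w)).mpr (le_sn (.inr w) x j)
  have htt : ∀ i i', TI N (t i' / t i) := fun i i' => TI_of_places _ fun w hw => by
    rw [map_div₀, hty i w hw, hty i' w hw, div_self (hsx w).ne']
  -- descent
  have hdown : ∀ a : k, TI N (algebraMap k (fld y) a) → ∀ v : FinitePlace k, v (N : k) = 1 → v a ≤ 1 := by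
    intro a ha v hv
    obtain ⟨m, hm⟩ := ha
    have h1 : IsIntegral ℤ ((N : k) ^ m * a) := by
      have h2 : (N : fld y) ^ m * algebraMap k (fld y) a = algebraMap k (fld y) ((N : k) ^ m * a) := by
        simp
      rw [h2] at hm
      exact (isIntegral_algebraMap_iff (algebraMap k (fld y)).injective).mp hm
    exact TI.places ⟨m, h1⟩ v hv
  set i₀ : Fin q := ⟨0, hq⟩ with hi₀
  set F0 : fld y := t i₀ * σ (t i₀) with hF0
  have hσt0 : ∀ i, σ (t i) ≠ 0 := fun i => by
    rw [Ne, map_eq_zero_iff σ σ.injective]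
    exact ht0 i
  have hF00 : F0 ≠ 0 := mul_ne_zero (ht0 _) (hσt0 _)
  have hvec : ∀ i, (![1, y 0, y 1] : Fin 3 → AlgebraicClosure k) i = (x i : AlgebraicClosure k) := by
    intro i
    fin_cases i
    · simp [hx, crd]
    · rfl
    · rfl
  have hlin : ∀ i, lin (ℓ i) (![1, y 0, y 1] : Fin 3 → AlgebraicClosure k) = (t i : AlgebraicClosure k) := by
    intro i
    simp only [lin, ht, ev, cst]
    rw [AddSubmonoidClass.coe_finsetSum]
    exact Finset.sum_congr rfl fun j _ => by rw [hvec]; rfl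
  refine ⟨fun j => ((σ (x j) / F0 : fld y) : AlgebraicClosure k), fun i j => ?_, fun i => ?_⟩
  · -- the symmetric products
    set a : fld y := (x i / t i₀) * σ (x j / t i₀) + (x j / t i₀) * σ (x i / t i₀) with ha
    have haT : TI N a := ((hxt i₀ i).mul ((hxt i₀ j).map σ.toRingHom)).add ((hxt i₀ j).mul ((hxt i₀ i).map σ.toRingHom))
    have haσ : σ a = a := by
      rw [ha, map_add, map_mul, map_mul, hσ, hσ]
      ring
    obtain ⟨a', ha'⟩ := hfix a haσ
    refine ⟨a', ?_, fun v hv => hdown a' (by rw [ha']; exact haT) v (hv1 v hv)⟩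
    have h1 : algebraMap k (AlgebraicClosure k) a' = (a : AlgebraicClosure k) := by
      rw [← ha']; rfl
    rw [h1, hvec, hvec, ha]
    rw [show ((x i : AlgebraicClosure k)) * ((σ (x j) / F0 : fld y) : AlgebraicClosure k) +
      (x j : AlgebraicClosure k) * ((σ (x i) / F0 : fld y) : AlgebraicClosure k) =
      ((x i * (σ (x j) / F0) + x j * (σ (x i) / F0) : fld y) : AlgebraicClosure k) by push_cast; rfl]
    congr 1
    rw [hF0, map_div₀, map_div₀]
    have h2 := ht0 i₀
    have h3 := hσt0 i₀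
    field_simp
  · -- the norm form
    have hli : lin (ℓ i) (fun j => ((σ (x j) / F0 : fld y) : AlgebraicClosure k)) =
        ((σ (t i) / F0 : fld y) : AlgebraicClosure k) := by
      have h1 : σ (t i) / F0 = ∑ j, algebraMap k (fld y) (ℓ i j) * (σ (x j) / F0) := by
        simp only [ht, ev, cst, map_sum, map_mul, AlgHom.commutes, Finset.sum_div, mul_div_assoc]
      rw [h1]
      simp only [lin]
      rw [AddSubmonoidClass.coe_finsetSum]
      exact Finset.sum_congr rfl fun j _ => rfl
    rw [hlin, hli]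
    set a : fld y := (t i / t i₀) * σ (t i / t i₀) with ha
    set b : fld y := (t i₀ / t i) * σ (t i₀ / t i) with hb
    have haT : TI N a := (htt i₀ i).mul ((htt i₀ i).map σ.toRingHom)
    have hbT : TI N b := (htt i i₀).mul ((htt i i₀).map σ.toRingHom)
    have hab : a * b = 1 := by
      rw [ha, hb, map_div₀, map_div₀]
      have h2 := ht0 i₀
      have h3 := hσt0 i₀
      have h4 := ht0 i
      have h5 := hσt0 i
      field_simp
    have haσ : σ a = a := by
      rw [ha, map_mul, hσ]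
      ring
    have hbσ : σ b = b := by
      rw [hb, map_mul, hσ]
      ring
    obtain ⟨a', ha'⟩ := hfix a haσ
    obtain ⟨b', hb'⟩ := hfix b hbσ
    have hab' : a' * b' = 1 := by
      apply (algebraMap k (fld y)).injective
      rw [map_mul, ha', hb', hab, map_one]
    refine ⟨a', ?_, left_ne_zero_of_mul_eq_one hab', fun v hv => ?_⟩
    · have h1 : algebraMap k (AlgebraicClosure k) a' = (a : AlgebraicClosure k) := by
        rw [← ha']; rfl
      rw [h1, ha]
      rw [show (t i : AlgebraicClosure k) * ((σ (t i) / F0 : fld y) : AlgebraicClosure k) =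
        ((t i * (σ (t i) / F0) : fld y) : AlgebraicClosure k) by push_cast; rfl]
      congr 1
      rw [hF0, map_div₀]
      have h2 := ht0 i₀
      have h3 := hσt0 i₀
      field_simp
    · have h1 := hdown a' (by rw [ha']; exact haT) v (hv1 v hv)
      have h2 := hdown b' (by rw [hb']; exact hbT) v (hv1 v hv)
      have h3 : v a' * v b' = 1 := by rw [← map_mul, hab', map_one]
      have h4 : 0 ≤ v a' := apply_nonneg v _
      have h5 : 0 ≤ v b' := apply_nonneg v _
      nlinarith

end Pool.Agent.SL
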